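import Pool.Agent.Helper36.CV.StmtsW

/-!
# MP_e5aeaf_mp, module D9: from the entry level to the centre
-/

set_option autoImplicit false

namespace Pool.Agent.Helper36.CV

noncomputable section

theorem d9_gam : (618 / 1000 : ℝ) < gam ∧ gam < 61804 / 100000 := by
  unfold gam
  have h5 : (Real.sqrt 5) ^ 2 = 5 := Real.sq_sqrt (by norm_num)
  have h0 : 0 ≤ Real.sqrt 5 := Real.sqrt_nonneg 5
  constructor <;> nlinarith

theorem d9_add : phi = 1 + gam := by unfold phi gam; ring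

theorem d9_sq : gam ^ 2 = 1 - gam := by
  unfold gam
  have h5 : (Real.sqrt 5) ^ 2 = 5 := Real.sq_sqrt (by norm_num)
  nlinarith

theorem d9_mul : gam * phi = 1 := by
  rw [d9_add]; nlinarith [d9_sq]

theorem d9_phi : (1618 / 1000 : ℝ) < phi ∧ phi < 161804 / 100000 := by
  rw [d9_add]; obtain ⟨h1, h2⟩ := d9_gam
  constructor <;> linarith

theorem d9_phisq : phi ^ 2 = 1 + phi := by
  rw [d9_add]; nlinarith [d9_sq]

theorem d9_phi4 : phi ^ 4 ≤ 6856 / 1000 := by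
  have h1 := d9_phisq
  have h2 := d9_phi.2
  have : phi ^ 4 = 2 + 3 * phi := by
    have : phi ^ 4 = (phi ^ 2) ^ 2 := by ring
    rw [this, h1]; nlinarith
  rw [this]; linarith

/-- monotonicity of the polynomial -/
theorem d9_pol_mono {t u : ℝ} (h : t < u) : Pol t < Pol u := by
  have h1 : Pol u - Pol t = (u - t) * (1 + (t + u) / 6 + 2 * (t ^ 2 + t * u + u ^ 2) / 45) := by
    unfold Pol; ring
  have h2 : 0 < 1 + (t + u) / 6 + 2 * (t ^ 2 + t * u + u ^ 2) / 45 := by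
    nlinarith [sq_nonneg (t - u), sq_nonneg (t + u + 5 / 2)]
  have h3 : 0 < (u - t) * (1 + (t + u) / 6 + 2 * (t ^ 2 + t * u + u ^ 2) / 45) :=
    mul_pos (by linarith) h2
  linarith

/-- inversion of the polynomial near zero -/
theorem d9_pol_inv {t y B : ℝ} (h : Pol t = y) (hy : |y| ≤ B) (hB : B ≤ 1 / 10) :
    |t| ≤ 11 / 10 * B := by
  have hB0 : 0 ≤ B := le_trans (abs_nonneg y) hy
  obtain ⟨h1, h2⟩ := abs_le.mp hy
  rw [abs_le]
  constructor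
  · by_contra hc
    push Not at hc
    have := d9_pol_mono hc
    have h3 : Pol (-(11 / 10 * B)) ≤ -B := by
      unfold Pol
      nlinarith [mul_nonneg hB0 hB0, mul_nonneg (mul_nonneg hB0 hB0) hB0]
    linarith
  · by_contra hc
    push Not at hc
    have := d9_pol_mono hc
    have h3 : B ≤ Pol (11 / 10 * B) := by
      unfold Pol
      nlinarith [mul_nonneg hB0 hB0, mul_nonneg (mul_nonneg hB0 hB0) hB0]
    linarith

/-- the data at one level -/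
structure D9H (q G : ℝ) (N : ℕ) (P Q R e y t : ℕ → ℝ) : Prop where
  q0 : 0 < q
  q1 : q ≤ 1 / 10 ^ 80
  G1 : q ≤ G
  G2 : G < phi * q
  N1 : 15 / 100 * q ^ 2 ≤ G * gam ^ N
  Q0 : |Q 0| ≤ 10 * G ^ 2
  R0 : |R 0| ≤ 30 * q ^ 4
  P0 : |P 0| ≤ 20 * q ^ 6
  y0 : ∀ k, y k = P k + Q k + R k
  y1 : ∀ k, y (k + 1) = phi ^ 2 * P k + gam ^ 2 * Q k - R k
  y2 : ∀ k, y (k + 2) = phi ^ 4 * P k + gam ^ 4 * Q k + R k
  hP : ∀ k, P (k + 1) = phi ^ 2 * P k + gam * e k / 5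
  hQ : ∀ k, Q (k + 1) = gam ^ 2 * Q k - phi * e k / 5
  hR : ∀ k, R (k + 1) = -R k + e k / 5
  pol : ∀ k, Pol (t k) = y k
  he : ∀ k m, m ≤ 1 / 10 → |t (k + 1)| ≤ m → |t (k + 2)| ≤ m →
    |e k - q ^ 8 / 12| ≤ 4 * m ^ 4 + m * q ^ 8

/-- number of levels -/
theorem d9_count {q G : ℝ} {N : ℕ} {P Q R e y t : ℕ → ℝ} (h : D9H q G N P Q R e y t) {k : ℕ}
    (hk : k ≤ N + 12) : (k : ℝ) * q ≤ 18 := by
  have hq := h.q0
  have hg := d9_gam
  have hp := d9_phi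
  have hgam0 : 0 < gam := by linarith [hg.1]
  have hphi0 : 0 < phi := by linarith [hp.1]
  have h1 : phi ^ N * (G * gam ^ N) = G := by
    have : phi ^ N * gam ^ N = 1 := by rw [← mul_pow, mul_comm phi gam, d9_mul, one_pow]
    calc phi ^ N * (G * gam ^ N) = G * (phi ^ N * gam ^ N) := by ring
      _ = G := by rw [this, mul_one]
  have hpN : 0 < phi ^ N := pow_pos (by linarith) N
  have h2 : phi ^ N * (15 / 100 * q ^ 2) ≤ phi * q := by
    calc phi ^ N * (15 / 100 * q ^ 2) ≤ phi ^ N * (G * gam ^ N) :=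
          mul_le_mul_of_nonneg_left h.N1 hpN.le
      _ = G := h1
      _ ≤ phi * q := h.G2.le
  have h3 : phi ^ N * q ≤ 100 / 15 * phi := by
    by_contra hc
    push Not at hc
    have := mul_lt_mul_of_pos_right hc hq
    nlinarith
  have h4 : 1 + (N : ℝ) * gam ≤ phi ^ N := by
    have := one_add_mul_le_pow (a := gam) (by linarith) N
    rw [d9_add]; exact this
  have h5 : (N : ℝ) * gam * q ≤ 100 / 15 * phi := by
    have : (N : ℝ) * gam * q ≤ phi ^ N * q := by gcongr; linarith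
    linarith
  have h6 : (N : ℝ) * q ≤ 100 / 15 * phi * phi := by
    calc (N : ℝ) * q = ((N : ℝ) * gam * q) * phi := by linear_combination (-(N : ℝ) * q) * d9_mul
      _ ≤ 100 / 15 * phi * phi := by gcongr
  have h7 : (k : ℝ) ≤ N + 12 := by exact_mod_cast hk
  have h8 : (k : ℝ) * q ≤ (N + 12) * q := by gcongr
  have h9 : q ≤ 1 / 100 := le_trans h.q1 (by norm_num)
  nlinarith [d9_phisq]

/-- bounds at one level -/
theorem d9_level {q G : ℝ} {N : ℕ} {P Q R e y t : ℕ → ℝ} (h : D9H q G N P Q R e y t) {k : ℕ}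
    (hk : k ≤ N + 12) (hP : |P k| ≤ phi ^ (2 * k) * (20 * q ^ 6 + 10 ^ 67 * q ^ 8) - 10 ^ 67 * q ^ 8)
    (hQ : |Q k| ≤ 10 * (G * gam ^ k) ^ 2 + 10 ^ 67 * q ^ 8)
    (hR : |R k| ≤ |R 0| + k * (10 ^ 67 * q ^ 8 / 5)) :
    |y k| ≤ 10 ^ 16 * (G * gam ^ k) ^ 2 ∧ |t k| ≤ 11 / 10 * (10 ^ 16 * (G * gam ^ k) ^ 2) ∧
    (G * gam ^ k) ^ 2 ≤ 2619 / 1000 * q ^ 2 ∧
    |e k - q ^ 8 / 12| ≤ 2 * 10 ^ 66 * q ^ 6 * (G * gam ^ k) ^ 2 ∧ |e k| ≤ 10 ^ 67 * q ^ 8 := by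
  have hq := h.q0
  have hq1 := h.q1
  have hg := d9_gam
  have hp := d9_phi
  have hgam0 : 0 < gam := by linarith [hg.1]
  have hphi0 : 0 < phi := by linarith [hp.1]
  have hG : 0 < G := lt_of_lt_of_le hq h.G1
  have hgk : 0 < gam ^ k := pow_pos (by linarith) k
  have hgk1 : gam ^ k ≤ 1 := pow_le_one₀ (by linarith) (by linarith)
  set g := G * gam ^ k with hgdef
  have hg0 : 0 < g := mul_pos hG hgk
  have hgG : g ≤ G := by
    have : G * gam ^ k ≤ G * 1 := by gcongr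
    linarith
  -- upper bound of g
  have hg1 : g ≤ 161804 / 100000 * q := by
    have : phi * q ≤ 161804 / 100000 * q := by gcongr; linarith
    linarith [h.G2]
  have hG1 : G ≤ 161804 / 100000 * q := by
    have : phi * q ≤ 161804 / 100000 * q := by gcongr; linarith
    linarith [h.G2]
  have hg2 : g ^ 2 ≤ 2619 / 1000 * q ^ 2 := by
    calc g ^ 2 ≤ (161804 / 100000 * q) ^ 2 := by gcongr
      _ = (161804 / 100000) ^ 2 * q ^ 2 := by ring
      _ ≤ 2619 / 1000 * q ^ 2 := by gcongr; norm_num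
  have hG2 : G ^ 2 ≤ 2619 / 1000 * q ^ 2 := by
    calc G ^ 2 ≤ (161804 / 100000 * q) ^ 2 := by gcongr
      _ = (161804 / 100000) ^ 2 * q ^ 2 := by ring
      _ ≤ 2619 / 1000 * q ^ 2 := by gcongr; norm_num
  -- lower bound of g
  have hg3 : q ^ 2 ≤ 2200 * g := by
    have h1 : gam ^ (N + 12) ≤ gam ^ k := pow_le_pow_of_le_one (by linarith) (by linarith) hk
    have h2 : (31 / 10000 : ℝ) ≤ gam ^ 12 := by
      calc (31 / 10000 : ℝ) ≤ (618 / 1000) ^ 12 := by norm_num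
        _ ≤ gam ^ 12 := by gcongr; linarith
    have h3 : G * gam ^ N * (31 / 10000) ≤ g := by
      calc G * gam ^ N * (31 / 10000) ≤ G * gam ^ N * gam ^ 12 := by gcongr
        _ = G * gam ^ (N + 12) := by rw [pow_add]; ring
        _ ≤ G * gam ^ k := by gcongr
    have h4 := h.N1
    nlinarith
  have hq4 : q ^ 4 ≤ 4840000 * g ^ 2 := by
    calc q ^ 4 = (q ^ 2) ^ 2 := by ring
      _ ≤ (2200 * g) ^ 2 := by gcongr
      _ = 4840000 * g ^ 2 := by ring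
  have hq8 : q ^ 8 ≤ 23425600000000 * g ^ 4 := by
    calc q ^ 8 = (q ^ 4) ^ 2 := by ring
      _ ≤ (4840000 * g ^ 2) ^ 2 := by gcongr
      _ = 23425600000000 * g ^ 4 := by ring
  -- small quantities
  have hs1 : 10 ^ 67 * q ≤ 1 / 10 ^ 13 := by
    calc (10 : ℝ) ^ 67 * q ≤ 10 ^ 67 * (1 / 10 ^ 80) := by gcongr
      _ = 1 / 10 ^ 13 := by norm_num
  have hqle : q ≤ 1 := le_trans hq1 (by norm_num)
  have hs8 : 10 ^ 67 * q ^ 8 ≤ 1 / 10 ^ 13 * q ^ 7 := by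
    calc 10 ^ 67 * q ^ 8 = (10 ^ 67 * q) * q ^ 7 := by ring
      _ ≤ 1 / 10 ^ 13 * q ^ 7 := by gcongr
  have hq76 : q ^ 7 ≤ q ^ 6 := by
    calc q ^ 7 = q * q ^ 6 := by ring
      _ ≤ 1 * q ^ 6 := by gcongr
      _ = q ^ 6 := one_mul _
  have hq64 : q ^ 6 ≤ q ^ 4 := by
    calc q ^ 6 = q ^ 2 * q ^ 4 := by ring
      _ ≤ 1 * q ^ 4 := by gcongr; exact pow_le_one₀ hq.le hqle
      _ = q ^ 4 := one_mul _
  have hs86 : 10 ^ 67 * q ^ 8 ≤ q ^ 6 := by
    have : 1 / 10 ^ 13 * q ^ 7 ≤ q ^ 7 := by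
      have := pow_pos hq 7
      nlinarith
    linarith
  have hH0 : 0 ≤ 10 ^ 67 * q ^ 8 := by positivity
  -- P
  have hPg : |P k| ≤ 1300000000000000 * g ^ 2 := by
    have h1 : |P k| ≤ phi ^ (2 * k) * (21 * q ^ 6) := by
      have : phi ^ (2 * k) * (20 * q ^ 6 + 10 ^ 67 * q ^ 8) ≤ phi ^ (2 * k) * (21 * q ^ 6) := by
        have h0 : 0 ≤ phi ^ (2 * k) := pow_nonneg (by linarith) _
        exact mul_le_mul_of_nonneg_left (by linarith) h0
      linarith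
    have h2 : phi ^ (2 * k) * g ^ 2 = G ^ 2 := by
      have : phi ^ (2 * k) * (gam ^ k) ^ 2 = 1 := by
        rw [← pow_mul, mul_comm k 2, ← mul_pow, mul_comm phi gam, d9_mul, one_pow]
      calc phi ^ (2 * k) * g ^ 2 = G ^ 2 * (phi ^ (2 * k) * (gam ^ k) ^ 2) := by rw [hgdef]; ring
        _ = G ^ 2 := by rw [this, mul_one]
    have h3 : |P k| * g ^ 2 ≤ 55 * q ^ 8 := by
      calc |P k| * g ^ 2 ≤ phi ^ (2 * k) * (21 * q ^ 6) * g ^ 2 := by gcongr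
        _ = 21 * q ^ 6 * (phi ^ (2 * k) * g ^ 2) := by ring
        _ = 21 * q ^ 6 * G ^ 2 := by rw [h2]
        _ ≤ 21 * q ^ 6 * (2619 / 1000 * q ^ 2) := by gcongr
        _ = 21 * (2619 / 1000) * q ^ 8 := by ring
        _ ≤ 55 * q ^ 8 := by gcongr; norm_num
    have h4 : |P k| * g ^ 2 ≤ (1300000000000000 * g ^ 2) * g ^ 2 := by
      calc |P k| * g ^ 2 ≤ 55 * (23425600000000 * g ^ 4) := by linarith
        _ ≤ (1300000000000000 * g ^ 2) * g ^ 2 := by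
          have : 0 ≤ g ^ 4 := by positivity
          nlinarith
    exact le_of_mul_le_mul_right h4 (by positivity)
  have hQg : |Q k| ≤ 11 * g ^ 2 := by
    have : 10 ^ 67 * q ^ 8 ≤ g ^ 2 := by
      have h1 : 10 ^ 67 * q ^ 8 = (10 ^ 67 * q) * q ^ 3 * q ^ 4 := by ring
      have h2 : (10 ^ 67 * q) * q ^ 3 * q ^ 4 ≤ 1 / 10 ^ 13 * 1 * (4840000 * g ^ 2) := by
        gcongr
        exact pow_le_one₀ hq.le hqle
      have h3 : 1 / 10 ^ 13 * 1 * (4840000 * g ^ 2) ≤ g ^ 2 := by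
        have : 0 ≤ g ^ 2 := by positivity
        nlinarith
      linarith
    linarith
  have hRg : |R k| ≤ 160000000 * g ^ 2 := by
    have h1 := d9_count h hk
    have h2 : (k : ℝ) * (10 ^ 67 * q ^ 8 / 5) ≤ q ^ 4 := by
      calc (k : ℝ) * (10 ^ 67 * q ^ 8 / 5) = ((k : ℝ) * q) * (10 ^ 67 * q) * q ^ 6 / 5 := by ring
        _ ≤ 18 * (1 / 10 ^ 13) * q ^ 6 / 5 := by gcongr
        _ ≤ q ^ 6 := by
          have := pow_pos hq 6
          nlinarith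
        _ ≤ q ^ 4 := hq64
    have h3 := h.R0
    linarith
  -- y
  have hph4 := d9_phi4
  have hph2 : phi ^ 2 ≤ 6856 / 1000 := by rw [d9_phisq]; linarith
  have hga2 : gam ^ 2 ≤ 1 := by rw [d9_sq]; linarith
  have hga4 : gam ^ 4 ≤ 1 := pow_le_one₀ (by linarith) (by linarith)
  have hg20 : 0 ≤ g ^ 2 := by positivity
  have hyb : ∀ a b c : ℝ, |a| ≤ 6856 / 1000 → |b| ≤ 1 → |c| ≤ 1 →
      |a * P k + b * Q k + c * R k| ≤ 10 ^ 16 * g ^ 2 := by
    intro a b c ha hb hc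
    calc |a * P k + b * Q k + c * R k| ≤ |a * P k + b * Q k| + |c * R k| := abs_add_le _ _
      _ ≤ |a * P k| + |b * Q k| + |c * R k| := by gcongr; exact abs_add_le _ _
      _ = |a| * |P k| + |b| * |Q k| + |c| * |R k| := by rw [abs_mul, abs_mul, abs_mul]
      _ ≤ 6856 / 1000 * (1300000000000000 * g ^ 2) + 1 * (11 * g ^ 2) + 1 * (160000000 * g ^ 2) := by
        gcongr
      _ ≤ 10 ^ 16 * g ^ 2 := by nlinarith
  have hB : 10 ^ 16 * g ^ 2 ≤ 1 / 1000 := by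
    have h1 : q ^ 2 ≤ (1 / 10 ^ 80) * 1 := by
      calc q ^ 2 = q * q := by ring
        _ ≤ (1 / 10 ^ 80) * 1 := by gcongr
    calc 10 ^ 16 * g ^ 2 ≤ 10 ^ 16 * (2619 / 1000 * ((1 / 10 ^ 80) * 1)) := by
          gcongr; linarith
      _ ≤ 1 / 1000 := by norm_num
  have hyk : |y k| ≤ 10 ^ 16 * g ^ 2 := by
    have := hyb 1 1 1 (by norm_num) (by norm_num) (by norm_num)
    rw [h.y0 k]
    simpa using this
  have hyk1 : |y (k + 1)| ≤ 10 ^ 16 * g ^ 2 := by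
    have := hyb (phi ^ 2) (gam ^ 2) (-1) (by rw [abs_of_nonneg (by positivity)]; exact hph2)
      (by rw [abs_of_nonneg (by positivity)]; exact hga2) (by norm_num)
    rw [h.y1 k]
    have e1 : phi ^ 2 * P k + gam ^ 2 * Q k - R k = phi ^ 2 * P k + gam ^ 2 * Q k + -1 * R k := by ring
    rw [e1]; exact this
  have hyk2 : |y (k + 2)| ≤ 10 ^ 16 * g ^ 2 := by
    have := hyb (phi ^ 4) (gam ^ 4) 1 (by rw [abs_of_nonneg (by positivity)]; exact hph4)
      (by rw [abs_of_nonneg (by positivity)]; exact hga4) (by norm_num)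
    rw [h.y2 k]
    have e1 : phi ^ 4 * P k + gam ^ 4 * Q k + R k = phi ^ 4 * P k + gam ^ 4 * Q k + 1 * R k := by ring
    rw [e1]; exact this
  have ht0 := d9_pol_inv (h.pol k) hyk (by linarith)
  have ht1 := d9_pol_inv (h.pol (k + 1)) hyk1 (by linarith)
  have ht2 := d9_pol_inv (h.pol (k + 2)) hyk2 (by linarith)
  have hek := h.he k (11 / 10 * (10 ^ 16 * g ^ 2)) (by linarith) ht1 ht2
  have hek' : |e k - q ^ 8 / 12| ≤ 2 * 10 ^ 66 * q ^ 6 * g ^ 2 := by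
    have h6 : (g ^ 2) ^ 3 ≤ (2619 / 1000 * q ^ 2) ^ 3 := by gcongr
    have h1 : 4 * (11 / 10 * (10 ^ 16 * g ^ 2)) ^ 4 ≤ 11 / 10 * 10 ^ 66 * q ^ 6 * g ^ 2 := by
      calc 4 * (11 / 10 * (10 ^ 16 * g ^ 2)) ^ 4 = 4 * (11 / 10 * 10 ^ 16) ^ 4 * (g ^ 2) ^ 3 * g ^ 2 := by ring
        _ ≤ 4 * (11 / 10 * 10 ^ 16) ^ 4 * (2619 / 1000 * q ^ 2) ^ 3 * g ^ 2 := by gcongr
        _ = 4 * (11 / 10 * 10 ^ 16) ^ 4 * (2619 / 1000) ^ 3 * (q ^ 6 * g ^ 2) := by ring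
        _ ≤ 11 / 10 * 10 ^ 66 * (q ^ 6 * g ^ 2) :=
          mul_le_mul_of_nonneg_right (by norm_num) (by positivity)
        _ = 11 / 10 * 10 ^ 66 * q ^ 6 * g ^ 2 := by ring
    have h2 : 11 / 10 * (10 ^ 16 * g ^ 2) * q ^ 8 ≤ q ^ 6 * g ^ 2 := by
      calc 11 / 10 * (10 ^ 16 * g ^ 2) * q ^ 8 = 11 / 10 * (10 ^ 16 * q) * q * (q ^ 6 * g ^ 2) := by ring
        _ ≤ 11 / 10 * (10 ^ 16 * (1 / 10 ^ 80)) * 1 * (q ^ 6 * g ^ 2) := by gcongr
        _ ≤ 1 * (q ^ 6 * g ^ 2) := by gcongr; norm_num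
        _ = q ^ 6 * g ^ 2 := one_mul _
    have h3 : q ^ 6 * g ^ 2 ≤ 9 / 10 * 10 ^ 66 * q ^ 6 * g ^ 2 := by
      have : (1 : ℝ) * (q ^ 6 * g ^ 2) ≤ 9 / 10 * 10 ^ 66 * (q ^ 6 * g ^ 2) :=
        mul_le_mul_of_nonneg_right (by norm_num) (by positivity)
      linarith
    linarith
  refine ⟨hyk, ht0, hg2, hek', ?_⟩
  have h1 : |e k| ≤ |e k - q ^ 8 / 12| + q ^ 8 / 12 := by
    have := abs_add_le (e k - q ^ 8 / 12) (q ^ 8 / 12)
    rw [sub_add_cancel, abs_of_nonneg (by positivity : (0 : ℝ) ≤ q ^ 8 / 12)] at this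
    exact this
  have h2 : 2 * 10 ^ 66 * q ^ 6 * g ^ 2 ≤ 6 * 10 ^ 66 * q ^ 8 := by
    calc 2 * 10 ^ 66 * q ^ 6 * g ^ 2 ≤ 2 * 10 ^ 66 * q ^ 6 * (2619 / 1000 * q ^ 2) := by gcongr
      _ = 2 * 10 ^ 66 * (2619 / 1000) * q ^ 8 := by ring
      _ ≤ 6 * 10 ^ 66 * q ^ 8 := mul_le_mul_of_nonneg_right (by norm_num) (by positivity)
  have h3 : q ^ 8 / 12 ≤ 4 * 10 ^ 66 * q ^ 8 := by
    have : (1 / 12 : ℝ) * q ^ 8 ≤ 4 * 10 ^ 66 * q ^ 8 :=
      mul_le_mul_of_nonneg_right (by norm_num) (by positivity)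
    linarith
  linarith

/-- the induction -/
theorem d9_ind {q G : ℝ} {N : ℕ} {P Q R e y t : ℕ → ℝ} (h : D9H q G N P Q R e y t) :
    ∀ k, k ≤ N + 12 → |P k| ≤ phi ^ (2 * k) * (20 * q ^ 6 + 10 ^ 67 * q ^ 8) - 10 ^ 67 * q ^ 8 ∧
      |Q k| ≤ 10 * (G * gam ^ k) ^ 2 + 10 ^ 67 * q ^ 8 ∧
      |R k| ≤ |R 0| + k * (10 ^ 67 * q ^ 8 / 5) ∧
      |Q k - gam ^ (2 * k) * Q 0| ≤ phi ^ 2 * q ^ 8 / 60 +
        7 / 5 * (2 * 10 ^ 66 * q ^ 6) * (G * (G * gam ^ k)) := by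
  have hq := h.q0
  have hg := d9_gam
  have hp := d9_phi
  have hgam0 : 0 < gam := by linarith [hg.1]
  have hphi0 : 0 < phi := by linarith [hp.1]
  have hG : 0 < G := lt_of_lt_of_le hq h.G1
  intro k
  induction k with
  | zero =>
    intro _
    refine ⟨?_, ?_, ?_, ?_⟩
    · have := h.P0
      simp only [mul_zero, pow_zero, one_mul]
      linarith
    · have := h.Q0
      have h2 : 0 ≤ 10 ^ 67 * q ^ 8 := by positivity
      simp only [pow_zero, mul_one]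
      linarith
    · simp
    · have h1 : 0 < phi ^ 2 := by positivity
      simp only [mul_zero, pow_zero, one_mul, sub_self, abs_zero]
      positivity
  | succ k ih =>
    intro hk
    obtain ⟨i1, i2, i3, i4⟩ := ih (by omega)
    obtain ⟨-, -, -, l4, l5⟩ := d9_level h (by omega : k ≤ N + 12) i1 i2 i3
    have hH0 : 0 ≤ 10 ^ 67 * q ^ 8 := by positivity
    have hph2 := d9_phisq
    have hga2 := d9_sq
    refine ⟨?_, ?_, ?_, ?_⟩
    · rw [h.hP k]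
      calc |phi ^ 2 * P k + gam * e k / 5| ≤ |phi ^ 2 * P k| + |gam * e k / 5| := abs_add_le _ _
        _ = phi ^ 2 * |P k| + gam * |e k| / 5 := by
          rw [abs_mul, abs_div, abs_mul, abs_of_pos (by positivity : 0 < phi ^ 2),
            abs_of_pos (by linarith : 0 < gam), abs_of_pos (by norm_num : (0 : ℝ) < 5)]
        _ ≤ phi ^ 2 * (phi ^ (2 * k) * (20 * q ^ 6 + 10 ^ 67 * q ^ 8) - 10 ^ 67 * q ^ 8) +
            gam * (10 ^ 67 * q ^ 8) / 5 := by gcongr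
        _ = phi ^ (2 * (k + 1)) * (20 * q ^ 6 + 10 ^ 67 * q ^ 8) - 10 ^ 67 * q ^ 8 * (phi ^ 2 - gam / 5) := by
          rw [mul_add 2 k 1, pow_add]; ring
        _ ≤ phi ^ (2 * (k + 1)) * (20 * q ^ 6 + 10 ^ 67 * q ^ 8) - 10 ^ 67 * q ^ 8 := by
          have : 10 ^ 67 * q ^ 8 * 1 ≤ 10 ^ 67 * q ^ 8 * (phi ^ 2 - gam / 5) := by
            apply mul_le_mul_of_nonneg_left _ hH0
            rw [hph2]; linarith
          linarith
    · rw [h.hQ k]
      calc |gam ^ 2 * Q k - phi * e k / 5| ≤ |gam ^ 2 * Q k| + |phi * e k / 5| := abs_sub _ _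
        _ = gam ^ 2 * |Q k| + phi * |e k| / 5 := by
          rw [abs_mul, abs_div, abs_mul, abs_of_pos (by positivity : 0 < gam ^ 2),
            abs_of_pos (by linarith : 0 < phi), abs_of_pos (by norm_num : (0 : ℝ) < 5)]
        _ ≤ gam ^ 2 * (10 * (G * gam ^ k) ^ 2 + 10 ^ 67 * q ^ 8) + phi * (10 ^ 67 * q ^ 8) / 5 := by
          gcongr
        _ = 10 * (G * gam ^ (k + 1)) ^ 2 + 10 ^ 67 * q ^ 8 * (gam ^ 2 + phi / 5) := by
          rw [pow_succ]; ring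
        _ ≤ 10 * (G * gam ^ (k + 1)) ^ 2 + 10 ^ 67 * q ^ 8 := by
          have : 10 ^ 67 * q ^ 8 * (gam ^ 2 + phi / 5) ≤ 10 ^ 67 * q ^ 8 * 1 := by
            apply mul_le_mul_of_nonneg_left _ hH0
            rw [hga2]; linarith
          linarith
    · rw [h.hR k]
      calc |-R k + e k / 5| ≤ |-R k| + |e k / 5| := abs_add_le _ _
        _ = |R k| + |e k| / 5 := by rw [abs_neg, abs_div, abs_of_pos (by norm_num : (0 : ℝ) < 5)]
        _ ≤ |R 0| + k * (10 ^ 67 * q ^ 8 / 5) + 10 ^ 67 * q ^ 8 / 5 := by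
          have : |e k| / 5 ≤ 10 ^ 67 * q ^ 8 / 5 := by gcongr
          linarith
        _ = |R 0| + ((k + 1 : ℕ) : ℝ) * (10 ^ 67 * q ^ 8 / 5) := by push_cast; ring
    · have e1 : Q (k + 1) - gam ^ (2 * (k + 1)) * Q 0 =
          gam ^ 2 * (Q k - gam ^ (2 * k) * Q 0) - phi * (e k - q ^ 8 / 12) / 5 - phi * (q ^ 8 / 60) := by
        rw [h.hQ k, mul_add 2 k 1, pow_add]; ring
      have hgk : 0 < gam ^ k := pow_pos (by linarith) k
      have hgk1 : gam ^ k ≤ 1 := pow_le_one₀ (by linarith) (by linarith)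
      set g := G * gam ^ k with hgdef
      have hg0 : 0 < g := mul_pos hG hgk
      have hgG : g ≤ G := by
        have : G * gam ^ k ≤ G * 1 := by gcongr
        linarith
      have e2 : G * gam ^ (k + 1) = g * gam := by rw [hgdef, pow_succ]; ring
      rw [e1, e2]
      have hA0 : 0 ≤ 2 * 10 ^ 66 * q ^ 6 := by positivity
      calc |gam ^ 2 * (Q k - gam ^ (2 * k) * Q 0) - phi * (e k - q ^ 8 / 12) / 5 - phi * (q ^ 8 / 60)|
          ≤ |gam ^ 2 * (Q k - gam ^ (2 * k) * Q 0) - phi * (e k - q ^ 8 / 12) / 5| +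
            |phi * (q ^ 8 / 60)| := abs_sub _ _
        _ ≤ |gam ^ 2 * (Q k - gam ^ (2 * k) * Q 0)| + |phi * (e k - q ^ 8 / 12) / 5| +
            |phi * (q ^ 8 / 60)| := by gcongr; exact abs_sub _ _
        _ = gam ^ 2 * |Q k - gam ^ (2 * k) * Q 0| + phi * |e k - q ^ 8 / 12| / 5 +
            phi * (q ^ 8 / 60) := by
          rw [abs_mul, abs_div, abs_mul, abs_of_pos (by positivity : 0 < gam ^ 2),
            abs_of_pos (by linarith : 0 < phi), abs_of_pos (by norm_num : (0 : ℝ) < 5),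
            abs_of_nonneg (by positivity : 0 ≤ phi * (q ^ 8 / 60))]
        _ ≤ gam ^ 2 * (phi ^ 2 * q ^ 8 / 60 + 7 / 5 * (2 * 10 ^ 66 * q ^ 6) * (G * g)) +
            phi * (2 * 10 ^ 66 * q ^ 6 * g ^ 2) / 5 + phi * (q ^ 8 / 60) := by
          gcongr
        _ = ((gam * phi) ^ 2 + phi) * q ^ 8 / 60 + (2 * 10 ^ 66 * q ^ 6) * g *
            (7 / 5 * gam ^ 2 * G + phi * g / 5) := by ring
        _ = phi ^ 2 * q ^ 8 / 60 + (2 * 10 ^ 66 * q ^ 6) * g *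
            (7 / 5 * gam ^ 2 * G + phi * g / 5) := by rw [d9_mul, hph2]; ring
        _ ≤ phi ^ 2 * q ^ 8 / 60 + (2 * 10 ^ 66 * q ^ 6) * g * (7 / 5 * gam * G) := by
          gcongr
          have h1 : phi * g / 5 ≤ phi * G / 5 := by gcongr
          have h2 : 7 / 5 * gam ^ 2 + phi / 5 ≤ 7 / 5 * gam := by
            rw [hga2, d9_add]; linarith
          have h3 : (7 / 5 * gam ^ 2 + phi / 5) * G ≤ 7 / 5 * gam * G := by gcongr
          linarith
        _ = phi ^ 2 * q ^ 8 / 60 + 7 / 5 * (2 * 10 ^ 66 * q ^ 6) * (G * (g * gam)) := by ring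

/-- error terms are small up to level `N + 12` -/
theorem d9_e {q G : ℝ} {N : ℕ} {P Q R e y t : ℕ → ℝ} (h : D9H q G N P Q R e y t) {k : ℕ}
    (hk : k ≤ N + 12) : |e k| ≤ 10 ^ 67 * q ^ 8 := by
  obtain ⟨i1, i2, i3, -⟩ := d9_ind h k hk
  exact (d9_level h hk i1 i2 i3).2.2.2.2

/-- propagation from level `N` -/
theorem d9_prop {q G : ℝ} {N : ℕ} {P Q R e y t : ℕ → ℝ} (h : D9H q G N P Q R e y t) :
    ∀ k, k ≤ 9 → |P (N + k) - phi ^ (2 * k) * P N| ≤ (phi ^ (2 * k) - 1) * (10 ^ 67 * q ^ 8) ∧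
      |Q (N + k) - gam ^ (2 * k) * Q N| ≤ 10 ^ 67 * q ^ 8 ∧
      |R (N + k) - (-1) ^ k * R N| ≤ k * (10 ^ 67 * q ^ 8 / 5) := by
  have hq := h.q0
  have hg := d9_gam
  have hp := d9_phi
  have hgam0 : 0 < gam := by linarith [hg.1]
  have hphi0 : 0 < phi := by linarith [hp.1]
  have hH0 : 0 ≤ 10 ^ 67 * q ^ 8 := by positivity
  have hph2 := d9_phisq
  have hga2 := d9_sq
  intro k
  induction k with
  | zero =>
    intro _
    simp [hH0]
  | succ k ih =>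
    intro hk
    obtain ⟨i1, i2, i3⟩ := ih (by omega)
    have he := d9_e h (by omega : N + k ≤ N + 12)
    refine ⟨?_, ?_, ?_⟩
    · have e1 : P (N + (k + 1)) - phi ^ (2 * (k + 1)) * P N =
          phi ^ 2 * (P (N + k) - phi ^ (2 * k) * P N) + gam * e (N + k) / 5 := by
        have := h.hP (N + k)
        rw [show N + (k + 1) = N + k + 1 by ring, this, mul_add 2 k 1, pow_add]; ring
      rw [e1]
      calc |phi ^ 2 * (P (N + k) - phi ^ (2 * k) * P N) + gam * e (N + k) / 5|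
          ≤ |phi ^ 2 * (P (N + k) - phi ^ (2 * k) * P N)| + |gam * e (N + k) / 5| := abs_add_le _ _
        _ = phi ^ 2 * |P (N + k) - phi ^ (2 * k) * P N| + gam * |e (N + k)| / 5 := by
          rw [abs_mul, abs_div, abs_mul, abs_of_pos (by positivity : 0 < phi ^ 2),
            abs_of_pos hgam0, abs_of_pos (by norm_num : (0 : ℝ) < 5)]
        _ ≤ phi ^ 2 * ((phi ^ (2 * k) - 1) * (10 ^ 67 * q ^ 8)) + gam * (10 ^ 67 * q ^ 8) / 5 := by
          gcongr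
        _ = (phi ^ (2 * (k + 1)) - (phi ^ 2 - gam / 5)) * (10 ^ 67 * q ^ 8) := by
          rw [mul_add 2 k 1, pow_add]; ring
        _ ≤ (phi ^ (2 * (k + 1)) - 1) * (10 ^ 67 * q ^ 8) := by
          apply mul_le_mul_of_nonneg_right _ hH0
          rw [hph2]; linarith
    · have e1 : Q (N + (k + 1)) - gam ^ (2 * (k + 1)) * Q N =
          gam ^ 2 * (Q (N + k) - gam ^ (2 * k) * Q N) - phi * e (N + k) / 5 := by
        have := h.hQ (N + k)
        rw [show N + (k + 1) = N + k + 1 by ring, this, mul_add 2 k 1, pow_add]; ring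
      rw [e1]
      calc |gam ^ 2 * (Q (N + k) - gam ^ (2 * k) * Q N) - phi * e (N + k) / 5|
          ≤ |gam ^ 2 * (Q (N + k) - gam ^ (2 * k) * Q N)| + |phi * e (N + k) / 5| := abs_sub _ _
        _ = gam ^ 2 * |Q (N + k) - gam ^ (2 * k) * Q N| + phi * |e (N + k)| / 5 := by
          rw [abs_mul, abs_div, abs_mul, abs_of_pos (by positivity : 0 < gam ^ 2),
            abs_of_pos hphi0, abs_of_pos (by norm_num : (0 : ℝ) < 5)]
        _ ≤ gam ^ 2 * (10 ^ 67 * q ^ 8) + phi * (10 ^ 67 * q ^ 8) / 5 := by gcongr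
        _ = (gam ^ 2 + phi / 5) * (10 ^ 67 * q ^ 8) := by ring
        _ ≤ 1 * (10 ^ 67 * q ^ 8) := by
          apply mul_le_mul_of_nonneg_right _ hH0
          rw [hga2]; linarith
        _ = 10 ^ 67 * q ^ 8 := one_mul _
    · have e1 : R (N + (k + 1)) - (-1) ^ (k + 1) * R N =
          -(R (N + k) - (-1) ^ k * R N) + e (N + k) / 5 := by
        have := h.hR (N + k)
        rw [show N + (k + 1) = N + k + 1 by ring, this, pow_succ]; ring
      rw [e1]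
      calc |-(R (N + k) - (-1) ^ k * R N) + e (N + k) / 5|
          ≤ |-(R (N + k) - (-1) ^ k * R N)| + |e (N + k) / 5| := abs_add_le _ _
        _ = |R (N + k) - (-1) ^ k * R N| + |e (N + k)| / 5 := by
          rw [abs_neg, abs_div, abs_of_pos (by norm_num : (0 : ℝ) < 5)]
        _ ≤ k * (10 ^ 67 * q ^ 8 / 5) + 10 ^ 67 * q ^ 8 / 5 := by
          have : |e (N + k)| / 5 ≤ 10 ^ 67 * q ^ 8 / 5 := by gcongr
          linarith
        _ = ((k + 1 : ℕ) : ℝ) * (10 ^ 67 * q ^ 8 / 5) := by push_cast; ring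

/-- the conclusions in terms of `q` -/
theorem d9_fin {q G : ℝ} {N : ℕ} {P Q R e y t : ℕ → ℝ} (h : D9H q G N P Q R e y t)
    (hN2 : G * gam ^ N < 15 / 100 * phi * q ^ 2) :
    |Q N - gam ^ (2 * N) * Q 0| ≤ 44 / 1000 * q ^ 8 ∧ |R N| ≤ |R 0| + q ^ 6 / 10 ∧
    |P N| ≤ 4000 * q ^ 4 ∧ (∀ j, j ≤ N + 12 → |y j| ≤ q ∧ |t j| ≤ q) ∧
    (∀ k, k ≤ 9 → |P (N + k) - phi ^ (2 * k) * P N| ≤ q ^ 6 ∧
      |Q (N + k) - gam ^ (2 * k) * Q N| ≤ q ^ 6 ∧ |R (N + k) - (-1) ^ k * R N| ≤ q ^ 6) := by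
  have hq := h.q0
  have hq1 := h.q1
  have hg := d9_gam
  have hp := d9_phi
  have hgam0 : 0 < gam := by linarith [hg.1]
  have hphi0 : 0 < phi := by linarith [hp.1]
  have hph2 := d9_phisq
  have hG : 0 < G := lt_of_lt_of_le hq h.G1
  have hgN : 0 < gam ^ N := pow_pos hgam0 N
  have hs1 : 10 ^ 67 * q ≤ 1 / 10 ^ 13 := by
    calc (10 : ℝ) ^ 67 * q ≤ 10 ^ 67 * (1 / 10 ^ 80) := by gcongr
      _ = 1 / 10 ^ 13 := by norm_num
  have hqle : q ≤ 1 := le_trans hq1 (by norm_num)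
  have hq6 : 0 < q ^ 6 := by positivity
  have hs7 : 10 ^ 67 * q ^ 7 ≤ 1 / 10 ^ 13 * q ^ 6 := by
    calc 10 ^ 67 * q ^ 7 = (10 ^ 67 * q) * q ^ 6 := by ring
      _ ≤ 1 / 10 ^ 13 * q ^ 6 := by gcongr
  have hs8 : 10 ^ 67 * q ^ 8 ≤ 1 / 10 ^ 13 * q ^ 6 := by
    calc 10 ^ 67 * q ^ 8 = (10 ^ 67 * q) * q * q ^ 6 := by ring
      _ ≤ 1 / 10 ^ 13 * 1 * q ^ 6 := by gcongr
      _ = 1 / 10 ^ 13 * q ^ 6 := by ring
  have hH0 : 0 ≤ 10 ^ 67 * q ^ 8 := by positivity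
  obtain ⟨i1, i2, i3, i4⟩ := d9_ind h N (by omega)
  refine ⟨?_, ?_, ?_, ?_, ?_⟩
  · have h1 : G * (G * gam ^ N) ≤ 2 * q * (1 * q ^ 2) := by
      have ha : G ≤ 2 * q := by
        have : phi * q ≤ 2 * q := by gcongr; linarith
        linarith [h.G2]
      have hb : G * gam ^ N ≤ 1 * q ^ 2 := by
        have : 15 / 100 * phi * q ^ 2 ≤ 1 * q ^ 2 := by gcongr; linarith
        linarith
      gcongr
    have h2 : 7 / 5 * (2 * 10 ^ 66 * q ^ 6) * (G * (G * gam ^ N)) ≤ 1 / 10 ^ 10 * q ^ 8 := by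
      calc 7 / 5 * (2 * 10 ^ 66 * q ^ 6) * (G * (G * gam ^ N))
          ≤ 7 / 5 * (2 * 10 ^ 66 * q ^ 6) * (2 * q * (1 * q ^ 2)) := by gcongr
        _ = 56 / 100 * (10 ^ 67 * q) * q ^ 8 := by ring
        _ ≤ 56 / 100 * (1 / 10 ^ 13) * q ^ 8 := by gcongr
        _ ≤ 1 / 10 ^ 10 * q ^ 8 := mul_le_mul_of_nonneg_right (by norm_num) (by positivity)
    have h3 : phi ^ 2 * q ^ 8 / 60 ≤ 4364 / 100000 * q ^ 8 := by
      have h4 : phi ^ 2 / 60 ≤ 4364 / 100000 := by rw [hph2]; linarith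
      calc phi ^ 2 * q ^ 8 / 60 = phi ^ 2 / 60 * q ^ 8 := by ring
        _ ≤ 4364 / 100000 * q ^ 8 := by gcongr
    have h5 : 4364 / 100000 * q ^ 8 + 1 / 10 ^ 10 * q ^ 8 ≤ 44 / 1000 * q ^ 8 := by
      rw [← add_mul]
      exact mul_le_mul_of_nonneg_right (by norm_num) (by positivity)
    linarith
  · have h1 := d9_count h (by omega : N ≤ N + 12)
    have h2 : (N : ℝ) * (10 ^ 67 * q ^ 8 / 5) ≤ q ^ 6 / 10 := by
      calc (N : ℝ) * (10 ^ 67 * q ^ 8 / 5) = ((N : ℝ) * q) * (10 ^ 67 * q) * q ^ 6 / 5 := by ring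
        _ ≤ 18 * (1 / 10 ^ 13) * q ^ 6 / 5 := by gcongr
        _ ≤ q ^ 6 / 10 := by linarith
    linarith
  · have h1 : phi ^ (2 * N) * (G * gam ^ N) ^ 2 = G ^ 2 := by
      have : phi ^ (2 * N) * (gam ^ N) ^ 2 = 1 := by
        rw [← pow_mul, mul_comm N 2, ← mul_pow, mul_comm phi gam, d9_mul, one_pow]
      calc phi ^ (2 * N) * (G * gam ^ N) ^ 2 = G ^ 2 * (phi ^ (2 * N) * (gam ^ N) ^ 2) := by ring
        _ = G ^ 2 := by rw [this, mul_one]
    have h2 : phi ^ (2 * N) * (15 / 100 * q ^ 2) ^ 2 ≤ (phi * q) ^ 2 := by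
      calc phi ^ (2 * N) * (15 / 100 * q ^ 2) ^ 2 ≤ phi ^ (2 * N) * (G * gam ^ N) ^ 2 := by
            have := h.N1
            gcongr
        _ = G ^ 2 := h1
        _ ≤ (phi * q) ^ 2 := by
          have := h.G2.le
          gcongr
    have h3 : phi ^ (2 * N) * q ^ 2 ≤ 117 := by
      have h4 : (phi ^ (2 * N) * q ^ 2) * (225 / 10000 * q ^ 2) ≤ 117 * (225 / 10000 * q ^ 2) := by
        have : (phi * q) ^ 2 ≤ 117 * (225 / 10000 * q ^ 2) := by
          have h5 : (phi * q) ^ 2 = phi ^ 2 * q ^ 2 := by ring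
          rw [h5, hph2]
          have : (1 + phi) * q ^ 2 ≤ 26325 / 10000 * q ^ 2 := by gcongr; linarith
          linarith
        have h6 : (phi ^ (2 * N) * q ^ 2) * (225 / 10000 * q ^ 2) = phi ^ (2 * N) * (15 / 100 * q ^ 2) ^ 2 := by
          ring
        linarith
      exact le_of_mul_le_mul_right h4 (by positivity)
    have h4 : |P N| ≤ phi ^ (2 * N) * (21 * q ^ 6) := by
      have : phi ^ (2 * N) * (20 * q ^ 6 + 10 ^ 67 * q ^ 8) ≤ phi ^ (2 * N) * (21 * q ^ 6) := by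
        have h0 : 0 ≤ phi ^ (2 * N) := pow_nonneg hphi0.le _
        exact mul_le_mul_of_nonneg_left (by linarith) h0
      linarith
    calc |P N| ≤ phi ^ (2 * N) * (21 * q ^ 6) := h4
      _ = (phi ^ (2 * N) * q ^ 2) * (21 * q ^ 4) := by ring
      _ ≤ 117 * (21 * q ^ 4) := by gcongr
      _ = 117 * 21 * q ^ 4 := by ring
      _ ≤ 4000 * q ^ 4 := mul_le_mul_of_nonneg_right (by norm_num) (by positivity)
  · intro j hj
    obtain ⟨j1, j2, j3, -⟩ := d9_ind h j hj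
    obtain ⟨l1, l2, l3, -⟩ := d9_level h hj j1 j2 j3
    have h1 : 11 / 10 * (10 ^ 16 * (G * gam ^ j) ^ 2) ≤ q := by
      calc 11 / 10 * (10 ^ 16 * (G * gam ^ j) ^ 2) ≤ 11 / 10 * (10 ^ 16 * (2619 / 1000 * q ^ 2)) := by
            gcongr
        _ = (11 / 10 * 10 ^ 16 * (2619 / 1000) * q) * q := by ring
        _ ≤ 1 * q := by
          have : 11 / 10 * 10 ^ 16 * (2619 / 1000) * q ≤ 1 := by
            calc 11 / 10 * 10 ^ 16 * (2619 / 1000) * q ≤ 11 / 10 * 10 ^ 16 * (2619 / 1000) * (1 / 10 ^ 80) := by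
                  gcongr
              _ ≤ 1 := by norm_num
          gcongr
        _ = q := one_mul q
    have h2 : 0 ≤ 10 ^ 16 * (G * gam ^ j) ^ 2 := by positivity
    constructor <;> linarith
  · intro k hk
    obtain ⟨p1, p2, p3⟩ := d9_prop h k hk
    refine ⟨le_trans p1 ?_, le_trans p2 ?_, le_trans p3 ?_⟩
    · have h1 : phi ^ (2 * k) ≤ 10 ^ 4 := by
        calc phi ^ (2 * k) ≤ phi ^ 18 := pow_le_pow_right₀ (by linarith) (by omega)
          _ ≤ (161804 / 100000) ^ 18 := by gcongr; exact hp.2.le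
          _ ≤ 10 ^ 4 := by norm_num
      have h2 : (phi ^ (2 * k) - 1) * (10 ^ 67 * q ^ 8) ≤ 10 ^ 4 * (1 / 10 ^ 13 * q ^ 6) := by
        have h3 : phi ^ (2 * k) - 1 ≤ 10 ^ 4 := by linarith
        calc (phi ^ (2 * k) - 1) * (10 ^ 67 * q ^ 8) ≤ 10 ^ 4 * (10 ^ 67 * q ^ 8) :=
              mul_le_mul_of_nonneg_right h3 hH0
          _ ≤ 10 ^ 4 * (1 / 10 ^ 13 * q ^ 6) := by gcongr
      linarith
    · linarith
    · have h1 : (k : ℝ) ≤ 9 := by exact_mod_cast hk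
      calc (k : ℝ) * (10 ^ 67 * q ^ 8 / 5) ≤ 9 * (1 / 10 ^ 13 * q ^ 6 / 5) := by gcongr
        _ ≤ q ^ 6 := by linarith

theorem st_D9 (h6 : ST_D6) (h7 : ST_D7) : ST_D9 := by
  refine ⟨(1 / 10 ^ 80) ^ 4, by positivity, ?_⟩
  intro l E a b n c hl0 hl1 hb hnc hg1 hg2 hc1 hc2 hQ hR hP
  have hg := d9_gam
  have hgam0 : 0 < gam := by linarith [hg.1]
  have hphi0 : 0 < phi := by linarith [d9_phi.1]
  obtain ⟨N, rfl⟩ : ∃ N, c = n + N := ⟨c - n, by omega⟩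
  set q := Real.sqrt (Real.sqrt |l|) with hq
  have hs0 : 0 < Real.sqrt |l| := Real.sqrt_pos.mpr hl0
  have hq0 : 0 < q := Real.sqrt_pos.mpr hs0
  have hq2 : q ^ 2 = Real.sqrt |l| := Real.sq_sqrt hs0.le
  have hq4 : q ^ 4 = |l| := by
    calc q ^ 4 = (q ^ 2) ^ 2 := by ring
      _ = |l| := by rw [hq2]; exact Real.sq_sqrt hl0.le
  have hq8 : l ^ 2 = q ^ 8 := by
    calc l ^ 2 = |l| ^ 2 := (sq_abs l).symm
      _ = q ^ 8 := by rw [← hq4]; ring
  have hq6 : |l| * Real.sqrt |l| = q ^ 6 := by rw [← hq2, ← hq4]; ring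
  have hqle : q ≤ 1 / 10 ^ 80 := by
    by_contra hc
    push Not at hc
    have : (1 / 10 ^ 80 : ℝ) ^ 4 < q ^ 4 := by
      apply pow_lt_pow_left₀ hc (by positivity) (by norm_num)
    rw [hq4] at this
    linarith
  have hGN : |(b : ℝ)| * gam ^ (n + N) = |(b : ℝ)| * gam ^ n * gam ^ N := by rw [pow_add]; ring
  have hinv1 : ∀ x : ℝ, x / (5 * phi) = gam * x / 5 := by
    intro x
    rw [div_eq_div_iff (by positivity) (by norm_num)]
    linear_combination (-5 * x) * d9_mul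
  have hinv2 : ∀ x : ℝ, x / (5 * gam) = phi * x / 5 := by
    intro x
    rw [div_eq_div_iff (by positivity) (by norm_num)]
    linear_combination (-5 * x) * d9_mul
  have H : D9H q (|(b : ℝ)| * gam ^ n) N (fun k => mP l a b (n + k) E) (fun k => mQ l a b (n + k) E)
      (fun k => mR l a b (n + k) E) (fun k => ee l a b (n + k) E) (fun k => yy l a b (n + k) E)
      (fun k => tt l a b (n + k) E) := by
    refine ⟨hq0, hqle, hg1, hg2, ?_, ?_, ?_, ?_, ?_, ?_, ?_, ?_, ?_, ?_, ?_, ?_⟩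
    · rw [← hGN, hq2]; exact hc1
    · exact hQ
    · change |mR l a b n E| ≤ 30 * q ^ 4
      rw [hq4]; exact hR
    · change |mP l a b n E| ≤ 20 * q ^ 6
      rw [← hq6]; linarith
    · intro k; exact (h7 l E a b (n + k)).1
    · intro k; exact (h7 l E a b (n + k)).2.1
    · intro k; exact (h7 l E a b (n + k)).2.2.1
    · intro k
      have := (h7 l E a b (n + k)).2.2.2.1
      change mP l a b (n + k + 1) E = phi ^ 2 * mP l a b (n + k) E + gam * ee l a b (n + k) E / 5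
      rw [← hinv1]; exact this
    · intro k
      have := (h7 l E a b (n + k)).2.2.2.2.1
      change mQ l a b (n + k + 1) E = gam ^ 2 * mQ l a b (n + k) E - phi * ee l a b (n + k) E / 5
      rw [← hinv2]; exact this
    · intro k; exact (h7 l E a b (n + k)).2.2.2.2.2.1
    · intro k; rfl
    · intro k m hm ht1 ht2
      have hl : |l| ≤ 1 / 100 := le_trans hl1 (by norm_num)
      have := (h6 l E a b (n + k)).2.2 m hm hl ht1 ht2
      rw [hq8] at this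
      exact this
  obtain ⟨f1, f2, f3, f4, f5⟩ := d9_fin H (by rw [← hGN, hq2]; exact hc2)
  refine ⟨?_, ?_, ?_, ?_, ?_⟩
  · rw [hq8, Nat.add_sub_cancel_left]; exact f1
  · have f2' : |mR l a b (n + N) E| ≤ |mR l a b n E| + q ^ 6 / 10 := f2
    have hq60 : 0 ≤ q ^ 6 := by positivity
    rw [hq6]; linarith
  · rw [← hq4]; exact f3
  · intro j hj1 hj2
    obtain ⟨i, rfl⟩ : ∃ i, j = n + i := ⟨j - n, by omega⟩
    exact f4 i (by omega)
  · intro k hk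
    rw [hq6, add_assoc]
    exact f5 k hk

end

end Pool.Agent.Helper36.CV
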