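import Pool.Agent.Helper38.CV.K2c

set_option autoImplicit false

namespace Pool.Agent.Helper38.CV

open Metric Set Filter Topology Pool.Agent.Helper36.CV

noncomputable section

theorem deriv_im_zero {f : ℂ → ℂ} {r : ℝ} (hr : 0 < r) (hf : DifferentiableAt ℂ f 0)
    (h : ∀ x : ℝ, |x| < r → (f x).im = 0) : (deriv f 0).im = 0 := by
  have h1 : HasDerivAt (fun x : ℝ => f x) (deriv f 0) 0 := by
    have := hf.hasDerivAt
    exact HasDerivAt.comp_ofReal (z := 0) (by simpa using this)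
  have h2 : HasDerivAt (fun x : ℝ => (f x).im) (deriv f 0).im 0 :=
    Complex.imCLM.hasFDerivAt.comp_hasDerivAt 0 h1
  have h3 : HasDerivAt (fun x : ℝ => (f x).im) 0 0 := by
    refine (hasDerivAt_const (0 : ℝ) (0 : ℝ)).congr_of_eventuallyEq ?_
    filter_upwards [Metric.ball_mem_nhds (0 : ℝ) hr] with x hx
    exact h x (by simpa using hx)
  exact h2.unique h3

variable {L0 : ℝ} {k : ℕ} {o s : ℝ} {u E ζ : ℂ → ℂ → ℂ}

theorem Br.est (h : Br L0 k o s u E ζ) {l z : ℂ} (hd : (l, z) ∈ Dom L0) :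
    ‖XX l (k + 3) (E l (ζ l z))‖ ≤ 3 / ‖l‖ ∧ ‖XX l (k + 4) (E l (ζ l z)) + s * l / 2‖ ≤ 3 ∧
    ‖ζ l z - s * u l 0 / l‖ ≤ 24 / ‖l‖ ^ 2 := by
  have hloc := h.loc hd.1
  have hN := hloc.hN
  have hp := hloc.pos
  have hl0 := hloc.l0
  have hw := h.z2 l z hd
  have hdw := h.dd hd
  obtain ⟨g1, g2, g3⟩ := G_eq h.pre hdw
  obtain ⟨-, -, b3, -⟩ := hloc.bd (h.w10 hd)
  have hPs := hloc.Ps hdw.2
  have hlast := h.eq l z hd
  rw [show XX l (k + 5) (E l (ζ l z)) = 2 * XX l (k + 4) (E l (ζ l z)) * XX l (k + 3) (E l (ζ l z))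
      - XX l (k + 2) (E l (ζ l z)) from by rw [show k + 5 = (k + 2) + 3 from rfl, XX],
      h.pre.t2 l _ hdw] at hlast
  have hY1 : XX l (k + 3) (E l (ζ l z)) = 2 * ζ l z * XX l (k + 1) (E l (ζ l z)) - u l (ζ l z) := by
    rw [← g1, Yf]
  have hW1 : XX l (k + 4) (E l (ζ l z)) = 2 * XX l (k + 3) (E l (ζ l z)) * ζ l z
      - XX l (k + 1) (E l (ζ l z)) := by
    rw [← g2, Wf, g1]
  rw [g2] at b3
  set w := ζ l z with hwdef
  set Y := XX l (k + 3) (E l w) with hY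
  set W := XX l (k + 4) (E l w) with hW
  set Q := XX l (k + 1) (E l w) with hQ
  have hsl : ‖(s : ℂ) * l‖ = ‖l‖ := by rw [norm_mul, hloc.sn, one_mul]
  have hWn : 49 / 100 * ‖l‖ ≤ ‖W‖ := by
    have h3 : ‖(s : ℂ) * l / 2‖ ≤ ‖W + s * l / 2‖ + ‖W‖ := by
      have : (s : ℂ) * l / 2 = (W + s * l / 2) - W := by ring
      calc ‖(s : ℂ) * l / 2‖ = ‖(W + s * l / 2) - W‖ := by rw [← this]
        _ ≤ _ := norm_sub_le _ _
    rw [norm_div, hsl] at h3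
    simp only [Complex.norm_ofNat] at h3
    linarith
  have hz2 : ‖z‖ < 2 := hd.2
  have hw1 : ‖w‖ ≤ 1 / 1000 := hw.trans (by
    rw [div_le_div_iff₀ hp (by norm_num)]; linarith)
  have hYb : ‖Y‖ ≤ (22 / 10) / ‖l‖ := by
    have h4 : ‖2 * W * Y‖ ≤ 2 + 1 / 1000 := by
      have : 2 * W * Y = z + w := by linear_combination hlast
      rw [this]
      exact (norm_add_le _ _).trans (by linarith)
    rw [norm_mul, norm_mul] at h4
    simp only [Complex.norm_ofNat] at h4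
    rw [le_div_iff₀ hp]
    have h5 : 2 * (49 / 100 * ‖l‖) * ‖Y‖ ≤ 2 * ‖W‖ * ‖Y‖ := by gcongr
    nlinarith [norm_nonneg Y]
  have huw := h.pre.ub l w hdw
  have hPq : ‖Q - s * l / 2‖ ≤ 15 / ‖l‖ := by
    have : Q - s * l / 2 = (Q - u l w * w - s * l / 2) + u l w * w := by ring
    rw [this]
    refine (norm_add_le _ _).trans ?_
    have h6 : ‖u l w * w‖ ≤ 11 / 10 * (2 / ‖l‖) := by
      rw [norm_mul]; gcongr
    calc _ ≤ 12 / ‖l‖ + 11 / 10 * (2 / ‖l‖) := add_le_add hPs h6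
      _ ≤ 15 / ‖l‖ := by
        rw [show 12 / ‖l‖ + 11 / 10 * (2 / ‖l‖) = (12 + 22 / 10) / ‖l‖ from by ring]
        gcongr; norm_num
  refine ⟨hYb.trans (by gcongr; norm_num), ?_, ?_⟩
  · have e : W + s * l / 2 = 2 * Y * w - (Q - s * l / 2) := by rw [hW1]; ring
    rw [e]
    have h7 : ‖2 * Y * w‖ ≤ 2 * ((22 / 10) / ‖l‖) * (1 / 1000) := by
      rw [norm_mul, norm_mul]; simp only [Complex.norm_ofNat]; gcongr
    have h8 : (22 / 10) / ‖l‖ ≤ 1 := by rw [div_le_one hp]; linarith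
    have h9 : 15 / ‖l‖ ≤ 1 := by rw [div_le_one hp]; linarith
    calc _ ≤ ‖2 * Y * w‖ + ‖Q - s * l / 2‖ := norm_sub_le _ _
      _ ≤ 3 := by linarith
  · have hd0 : (l, (0 : ℂ)) ∈ Dom L0 := ⟨hd.1, by show ‖(0 : ℂ)‖ < 2; simp⟩
    have hdu := h.pre.du l w hdw
    have hs2 := hloc.s2
    have e : w - s * u l 0 / l = (Y + (u l w - u l 0) - 2 * w * (Q - s * l / 2)) / (s * l) := by
      have hs0 : (s : ℂ) ≠ 0 := by
        intro h0
        have := hloc.sn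
        rw [h0] at this
        simp at this
      rw [hY1]
      field_simp
      linear_combination (- u l 0) * hs2
    rw [e, norm_div, hsl, div_le_div_iff₀ hp (by positivity)]
    have h10 : ‖Y + (u l w - u l 0) - 2 * w * (Q - s * l / 2)‖ ≤
        (22 / 10) / ‖l‖ + 20 / ‖l‖ + 2 * (1 / 1000) * (15 / ‖l‖) := by
      calc _ ≤ ‖Y + (u l w - u l 0)‖ + ‖2 * w * (Q - s * l / 2)‖ := norm_sub_le _ _
        _ ≤ ‖Y‖ + ‖u l w - u l 0‖ + ‖2 * w * (Q - s * l / 2)‖ := by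
          gcongr; exact norm_add_le _ _
        _ = ‖Y‖ + ‖u l w - u l 0‖ + 2 * ‖w‖ * ‖Q - s * l / 2‖ := by
          rw [norm_mul, norm_mul]; simp
        _ ≤ _ := by gcongr
    have h11 : (22 / 10) / ‖l‖ + 20 / ‖l‖ + 2 * (1 / 1000) * (15 / ‖l‖) ≤ 24 / ‖l‖ := by
      rw [show (22 / 10) / ‖l‖ + 20 / ‖l‖ + 2 * (1 / 1000) * (15 / ‖l‖) =
        (22 / 10 + 20 + 2 * (1 / 1000) * 15) / ‖l‖ from by ring]
      gcongr; norm_num
    calc _ ≤ 24 / ‖l‖ * ‖l‖ ^ 2 := by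
          gcongr; exact h10.trans h11
      _ = 24 * ‖l‖ := by field_simp
      _ ≤ _ := le_refl _

theorem Br.dzz (h : Br L0 k o s u E ζ) {l z : ℂ} (hd : (l, z) ∈ Dom L0) :
    ‖ζ l z - ζ l 0‖ ≤ 3 / ‖l‖ ^ 2 := by
  have hloc := h.loc hd.1
  have hd0 : (l, (0 : ℂ)) ∈ Dom L0 := ⟨hd.1, by show ‖(0 : ℂ)‖ < 2; simp⟩
  have h1 := hloc.inj' (h.w10 hd0) (h.w10 hd)
  rw [h.geq hd, h.geq hd0, sub_zero] at h1
  have h2 := hloc.big
  have hp := hloc.pos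
  have hz2 : ‖z‖ < 2 := hd.2
  rw [le_div_iff₀ (by positivity)]
  have h3 : 9 / 10 * ‖l‖ ^ 2 * ‖ζ l z - ζ l 0‖ ≤ (‖l‖ ^ 2 - 16 * ‖l‖) * ‖ζ l z - ζ l 0‖ := by gcongr
  nlinarith

theorem Loc.Gvar {l : ℂ} {s : ℝ} {u P : ℂ → ℂ} (h : Loc l s u P) {a b : ℂ} (ha : ‖a‖ ≤ 2 / ‖l‖)
    (hb : ‖b‖ ≤ 2 / ‖l‖) : ‖Gd u P b - Gd u P a‖ ≤ 16 * ‖l‖ ^ 2 * ‖b - a‖ := by
  have hp := h.pos
  have h10 := h.small (c := 10) (by norm_num)
  have hGd : DifferentiableOn ℂ (Gf u P) (ball 0 2) := fun z hz =>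
    (h.hG (by simpa using hz)).differentiableAt.differentiableWithinAt
  have hK : DifferentiableOn ℂ (deriv (Gf u P)) (ball 0 2) := hGd.deriv isOpen_ball
  have he : ∀ z : ℂ, ‖z‖ < 2 → deriv (Gf u P) z = Gd u P z := fun z hz => (h.hG hz).deriv
  have hsub : ball (0 : ℂ) (10 / ‖l‖) ⊆ ball 0 2 := ball_subset_ball (by linarith)
  have h23 : 2 / ‖l‖ + 1 / ‖l‖ < 10 / ‖l‖ := by
    rw [← add_div]; gcongr; norm_num
  have h1 : ∀ z ∈ closedBall (0 : ℂ) (2 / ‖l‖), ‖deriv (deriv (Gf u P)) z‖ ≤ 16 * ‖l‖ ^ 2 := by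
    intro z hz
    rw [mem_closedBall_zero_iff] at hz
    have h2 := cauchy_b (f := deriv (Gf u P)) (a := - l ^ 2) (ρ := 10 / ‖l‖) (M := 16 * ‖l‖) (R := 1 / ‖l‖)
      (by positivity) (hK.mono hsub) (fun w hw => by
        rw [he w (by simpa using hsub hw), sub_neg_eq_add]
        exact h.Gdb (by simpa using (mem_ball_zero_iff.1 hw).le)) (z := z) (by linarith)
    refine h2.trans (le_of_eq ?_)
    field_simp
  have h20 : 2 / ‖l‖ ≤ 1 := h.small (c := 2) (by norm_num)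
  have h3 := mvt_cb (f := deriv (Gf u P)) (c := 0) (r := 2 / ‖l‖) (C := 16 * ‖l‖ ^ 2)
    (fun z hz => hK.differentiableAt (isOpen_ball.mem_nhds (by
      rw [mem_closedBall_zero_iff] at hz
      rw [mem_ball_zero_iff]; linarith))) h1 (x := a) (y := b)
    (by simpa using ha) (by simpa using hb)
  rwa [he b (by linarith), he a (by linarith)] at h3

theorem Br.Dvar (h : Br L0 k o s u E ζ) {l : ℂ} (hl : l ∈ Om2 L0) {a b : ℂ} (ha : ‖a‖ ≤ 1 / 2)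
    (hb : ‖b‖ ≤ 1 / 2) :
    ‖deriv (E l) b / deriv (E l) 0 - deriv (E l) a / deriv (E l) 0‖ ≤ 10 / ‖l‖ * ‖b - a‖ := by
  have hE : DifferentiableOn ℂ (E l) (ball 0 2) := sec_diff h.pre.an_E hl
  have hK : DifferentiableOn ℂ (fun z => deriv (E l) z / deriv (E l) 0) (ball 0 2) :=
    (hE.deriv isOpen_ball).div_const _
  have h1 : ∀ z ∈ closedBall (0 : ℂ) (1 / 2),
      ‖deriv (fun z => deriv (E l) z / deriv (E l) 0) z‖ ≤ 10 / ‖l‖ := by
    intro z hz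
    rw [mem_closedBall_zero_iff] at hz
    have h2 := cauchy_b (f := fun z => deriv (E l) z / deriv (E l) 0) (a := 1) (ρ := 2)
      (M := 10 / ‖l‖) (R := 1) one_pos hK
      (fun w hw => h.pre.dE l w ⟨hl, by simpa using hw⟩) (z := z) (by linarith)
    rwa [div_one] at h2
  exact mvt_cb (c := 0) (r := 1 / 2) (fun z hz => hK.differentiableAt (isOpen_ball.mem_nhds (by
      rw [mem_closedBall_zero_iff] at hz
      rw [mem_ball_zero_iff]; linarith))) h1 (by simpa using ha) (by simpa using hb)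

theorem Br.hF (h : Br L0 k o s u E ζ) {l z : ℂ} (hd : (l, z) ∈ Dom L0) :
    HasDerivAt (fun z => E l (ζ l z)) (deriv (E l) (ζ l z) *
      (Gd (u l) (fun z => XX l (k + 1) (E l z)) (ζ l z))⁻¹) z := by
  have hE : DifferentiableOn ℂ (E l) (ball 0 2) := sec_diff h.pre.an_E hd.1
  have h1 : HasDerivAt (E l) (deriv (E l) (ζ l z)) (ζ l z) :=
    (hE.differentiableAt (isOpen_ball.mem_nhds (by simpa using (h.dd hd).2))).hasDerivAt
  exact h1.comp z (h.hz hd)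

theorem Br.ratio (h : Br L0 k o s u E ζ) {l z : ℂ} (hd : (l, z) ∈ Dom L0) :
    ‖deriv (fun z => E l (ζ l z)) z / deriv (fun z => E l (ζ l z)) 0 - 1‖ ≤ 60 / ‖l‖ ^ 2 ∧
    deriv (fun z => E l (ζ l z)) 0 ≠ 0 ∧
    ‖deriv (fun z => E l (ζ l z)) 0 / deriv (E l) 0 + 1 / l ^ 2‖ ≤ 20 / ‖l‖ ^ 3 := by
  have hl := hd.1
  have hloc := h.loc hl
  have hN := hloc.hN
  have hp := hloc.pos
  have hl0 := hloc.l0
  have hd0 : (l, (0 : ℂ)) ∈ Dom L0 := ⟨hl, by show ‖(0 : ℂ)‖ < 2; simp⟩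
  have hw := h.z2 l z hd
  have hw0 := h.z2 l 0 hd0
  rw [(h.hF hd).deriv, (h.hF hd0).deriv]
  have e0 := h.pre.dE0 l 0 hd0
  have g1 := h.Gd0 hl (h.w10 hd)
  have g0 := h.Gd0 hl (h.w10 hd0)
  have gn1 := h.Gdn hl (h.w10 hd)
  have gn0 := h.Gdn hl (h.w10 hd0)
  have gv := hloc.Gvar hw hw0
  have gb := hloc.Gdb (h.w10 hd0)
  have hdz := h.dzz hd
  have h2N : 2 / ‖l‖ ≤ 1 / 2 := by rw [div_le_div_iff₀ hp (by norm_num)]; linarith
  have dv := h.Dvar hl (a := ζ l 0) (b := ζ l z) (hw0.trans h2N) (hw.trans h2N)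
  have dv0 := h.Dvar hl (a := 0) (b := ζ l 0) (by simp) (hw0.trans h2N)
  set w := ζ l z with hwd
  set w0 := ζ l 0 with hw0d
  set G1 := Gd (u l) (fun z => XX l (k + 1) (E l z)) w with hG1
  set G0 := Gd (u l) (fun z => XX l (k + 1) (E l z)) w0 with hG0
  set E0 := deriv (E l) 0 with hE0
  set A := deriv (E l) w / E0 with hA
  set B := deriv (E l) w0 / E0 with hB
  have hA' : deriv (E l) w = A * E0 := by rw [hA, div_mul_cancel₀ _ e0]
  have hB' : deriv (E l) w0 = B * E0 := by rw [hB, div_mul_cancel₀ _ e0]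
  rw [div_self e0, sub_zero] at dv0
  have hN2 : (0 : ℝ) < ‖l‖ ^ 2 := by positivity
  have b1 : ‖B - 1‖ ≤ 20 / ‖l‖ ^ 2 := by
    refine dv0.trans ?_
    calc 10 / ‖l‖ * ‖w0‖ ≤ 10 / ‖l‖ * (2 / ‖l‖) := by gcongr
      _ = 20 / ‖l‖ ^ 2 := by field_simp; norm_num
  have b2 : 1 / 2 ≤ ‖B‖ := by
    have h20 : 20 / ‖l‖ ^ 2 ≤ 1 / 2 := by
      rw [div_le_div_iff₀ hN2 (by norm_num)]; nlinarith
    have : ‖(1 : ℂ)‖ ≤ ‖B‖ + ‖B - 1‖ := by
      calc ‖(1 : ℂ)‖ = ‖B - (B - 1)‖ := by rw [sub_sub_cancel]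
        _ ≤ _ := norm_sub_le _ _
    rw [norm_one] at this
    linarith
  have hBn : B ≠ 0 := norm_pos_iff.1 (by linarith)
  have a1 : ‖A - B‖ ≤ 1 / 2 / ‖l‖ ^ 2 := by
    refine dv.trans ?_
    calc 10 / ‖l‖ * ‖w - w0‖ ≤ 10 / ‖l‖ * (3 / ‖l‖ ^ 2) := by gcongr
      _ = (30 / ‖l‖) / ‖l‖ ^ 2 := by ring
      _ ≤ 1 / 2 / ‖l‖ ^ 2 := by
        have h30 : 30 / ‖l‖ ≤ 1 / 2 := by
          rw [div_le_div_iff₀ hp (by norm_num)]; linarith
        exact div_le_div_of_nonneg_right h30 hN2.le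
  have a2 : ‖A / B - 1‖ ≤ 1 / ‖l‖ ^ 2 := by
    have : A / B - 1 = (A - B) / B := by field_simp
    rw [this, norm_div, div_le_iff₀ (by linarith)]
    calc ‖A - B‖ ≤ 1 / 2 / ‖l‖ ^ 2 := a1
      _ = 1 / ‖l‖ ^ 2 * (1 / 2) := by ring
      _ ≤ _ := by gcongr
  have c1 : ‖G0 / G1 - 1‖ ≤ 54 / ‖l‖ ^ 2 := by
    have : G0 / G1 - 1 = (G0 - G1) / G1 := by field_simp
    rw [this, norm_div, div_le_iff₀ (by linarith [show 0 < 9 / 10 * ‖l‖ ^ 2 by positivity])]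
    have h5 : ‖G0 - G1‖ ≤ 48 := by
      refine gv.trans ?_
      rw [norm_sub_rev]
      calc 16 * ‖l‖ ^ 2 * ‖w - w0‖ ≤ 16 * ‖l‖ ^ 2 * (3 / ‖l‖ ^ 2) := by gcongr
        _ = 48 := by field_simp; norm_num
    have h6 : 54 / ‖l‖ ^ 2 * (9 / 10 * ‖l‖ ^ 2) ≤ 54 / ‖l‖ ^ 2 * ‖G1‖ := by gcongr
    have h7 : 54 / ‖l‖ ^ 2 * (9 / 10 * ‖l‖ ^ 2) = 486 / 10 := by field_simp; norm_num
    linarith
  have c2 : (54 : ℝ) / ‖l‖ ^ 2 ≤ 1 := by rw [div_le_one hN2]; nlinarith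
  have hs0 : B * E0 * G0⁻¹ ≠ 0 := mul_ne_zero (mul_ne_zero hBn e0) (inv_ne_zero gn0)
  refine ⟨?_, ?_, ?_⟩
  · have e : deriv (E l) w * G1⁻¹ / (deriv (E l) w0 * G0⁻¹) - 1 =
        (A / B - 1) * (G0 / G1 - 1) + (A / B - 1) + (G0 / G1 - 1) := by
      rw [hA', hB']; field_simp; ring
    rw [e]
    calc _ ≤ ‖(A / B - 1) * (G0 / G1 - 1) + (A / B - 1)‖ + ‖G0 / G1 - 1‖ := norm_add_le _ _
      _ ≤ ‖(A / B - 1) * (G0 / G1 - 1)‖ + ‖A / B - 1‖ + ‖G0 / G1 - 1‖ := by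
        gcongr; exact norm_add_le _ _
      _ ≤ 1 / ‖l‖ ^ 2 * 1 + 1 / ‖l‖ ^ 2 + 54 / ‖l‖ ^ 2 := by
        rw [norm_mul]; gcongr; exact c1.trans c2
      _ = 56 / ‖l‖ ^ 2 := by ring
      _ ≤ 60 / ‖l‖ ^ 2 := by gcongr; norm_num
  · rw [hB']; exact hs0
  · have e : deriv (E l) w0 * G0⁻¹ / E0 + 1 / l ^ 2 = ((B - 1) * l ^ 2 + (G0 + l ^ 2)) / (l ^ 2 * G0) := by
      rw [hB']; field_simp; ring
    rw [e, norm_div, norm_mul, norm_pow]
    have h8 : ‖(B - 1) * l ^ 2 + (G0 + l ^ 2)‖ ≤ 17 * ‖l‖ := by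
      calc _ ≤ ‖(B - 1) * l ^ 2‖ + ‖G0 + l ^ 2‖ := norm_add_le _ _
        _ ≤ 20 / ‖l‖ ^ 2 * ‖l‖ ^ 2 + 16 * ‖l‖ := by
          rw [norm_mul, norm_pow]; gcongr
        _ = 20 + 16 * ‖l‖ := by field_simp
        _ ≤ _ := by linarith
    have h9 : ‖l‖ ^ 2 * (9 / 10 * ‖l‖ ^ 2) ≤ ‖l‖ ^ 2 * ‖G0‖ := by gcongr
    have h10 : 0 < ‖l‖ ^ 2 * (9 / 10 * ‖l‖ ^ 2) := by positivity
    rw [div_le_div_iff₀ (by linarith) (by positivity)]
    calc _ ≤ 17 * ‖l‖ * ‖l‖ ^ 3 := by gcongr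
      _ ≤ 20 * (‖l‖ ^ 2 * (9 / 10 * ‖l‖ ^ 2)) := by nlinarith [pow_pos hp 4]
      _ ≤ _ := by gcongr

theorem k2_sg (h : Br L0 k o s u E ζ) {l : ℝ} (hl : (l : ℂ) ∈ Om2 L0) :
    0 < (-o) * (deriv (fun z => E l (ζ l z)) 0).re := by
  have hloc := h.loc hl
  have hN := hloc.hN
  have hp := hloc.pos
  have hd0 : ((l : ℂ), (0 : ℂ)) ∈ Dom L0 := ⟨hl, by show ‖(0 : ℂ)‖ < 2; simp⟩
  obtain ⟨-, -, h3⟩ := h.ratio hd0
  have e0 := h.pre.dE0 l 0 hd0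
  have hsg := h.pre.sg l hl
  have him : (deriv (E l) 0).im = 0 := by
    refine deriv_im_zero (r := 2) (by norm_num) ?_ ?_
    · exact (sec_diff h.pre.an_E hl).differentiableAt (isOpen_ball.mem_nhds (by simp))
    · intro x hx
      exact h.pre.re_E l x ⟨hl, by
        show ‖(x : ℂ)‖ < 2
        rw [Complex.norm_real]; exact hx⟩
  set ρ := deriv (fun z => E l (ζ l z)) 0 / deriv (E l) 0 with hρ
  have hF : deriv (fun z => E l (ζ l z)) 0 = ρ * deriv (E l) 0 := by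
    rw [hρ, div_mul_cancel₀ _ e0]
  rw [hF, Complex.mul_re, him, mul_zero, sub_zero]
  have hnl : ‖(l : ℂ)‖ = |l| := Complex.norm_real l
  have h4 : (ρ + 1 / (l : ℂ) ^ 2).re ≤ 20 / ‖(l : ℂ)‖ ^ 3 := (Complex.re_le_norm _).trans h3
  have h5 : (ρ + 1 / (l : ℂ) ^ 2).re = ρ.re + 1 / l ^ 2 := by
    rw [Complex.add_re]
    congr 1
    rw [← Complex.ofReal_pow, ← Complex.ofReal_one, ← Complex.ofReal_div, Complex.ofReal_re]
  rw [h5, hnl] at h4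
  rw [hnl] at hN hp
  have h6 : 20 / |l| ^ 3 < 1 / l ^ 2 := by
    rw [← sq_abs l, div_lt_div_iff₀ (by positivity) (by positivity)]
    nlinarith [pow_pos hp 2]
  have h7 : ρ.re < 0 := by linarith
  nlinarith

theorem k2 : ST_K2 := by
  refine ⟨100, 10000, by norm_num, by norm_num, ?_⟩
  intro L0 k o s u E hL hpre
  obtain ⟨ζ, hζ⟩ := zeta_ex hL hpre
  have h : Br L0 k o s u E ζ := ⟨hL, hpre, fun l z hd => (hζ l z hd).1, fun l z hd => (hζ l z hd).2⟩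
  have hmaps : MapsTo (fun q : ℂ × ℂ => ((q.1, ζ q.1 q.2) : ℂ × ℂ)) (Dom L0) (Dom L0) :=
    fun q hq => h.dd (l := q.1) (z := q.2) hq
  have hEd : DifferentiableOn ℂ (fun p : ℂ × ℂ => E p.1 (ζ p.1 p.2)) (Dom L0) :=
    hpre.an_E.comp (differentiableOn_fst.prodMk h.diff) hmaps
  have hreal : ∀ l z : ℝ, ((l : ℂ), (z : ℂ)) ∈ Dom L0 → (E l (ζ l z)).im = 0 := by
    intro l z hd
    have h1 := h.real hd
    have h2 : (((ζ l z).re : ℝ) : ℂ) = ζ l z := Complex.ext (by simp) (by simpa using h1.symm)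
    have h3 := hpre.re_E l (ζ l z).re (by rw [h2]; exact h.dd hd)
    rwa [h2] at h3
  have hsmall : ∀ {l z : ℂ}, (l, z) ∈ Dom L0 → ∀ c : ℝ, c ≤ 10000 → c / ‖l‖ ≤ 1 :=
    fun hd c hc => (h.loc hd.1).small hc
  have hpos : ∀ {l z : ℂ}, (l, z) ∈ Dom L0 → 0 < ‖l‖ := fun hd => (h.loc hd.1).pos
  have hratio : ∀ l z : ℂ, (l, z) ∈ Dom L0 →
      ‖deriv (fun z => E l (ζ l z)) z / deriv (fun z => E l (ζ l z)) 0 - 1‖ ≤ 60 / ‖l‖ ^ 2 :=
    fun l z hd => (h.ratio hd).1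
  have hneg : ∀ x : ℝ, (x = 1 ∨ x = -1) → (-x = 1 ∨ -x = -1) := by
    rintro x (rfl | rfl)
    · right; rfl
    · left; norm_num
  refine ⟨fun l z => XX l (k + 3) (E l (ζ l z)), ζ, ?_, ?_, ?_, ?_, ?_⟩
  · refine ⟨⟨hneg o hpre.oo, hneg s hpre.ss, XX_diff differentiableOn_fst hEd (k + 3), hEd, ?_, hreal,
      ?_, ?_, ?_, ?_, ?_, ?_, ?_, ?_⟩, Or.inr (Or.inl rfl), ?_, ?_⟩
    · intro l z hd
      exact XX_im (Complex.ofReal_im l) (hreal l z hd) (k + 3)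
    · intro l z hd; rfl
    · intro l z hd
      have h2 := (h.est hd).2.1
      have e : XX l (k + 3 + 1) (E l (ζ l z)) - ((-s : ℝ) : ℂ) * l / 2 =
          XX l (k + 4) (E l (ζ l z)) + s * l / 2 := by
        push_cast
        rw [show k + 3 + 1 = k + 4 from rfl]
        ring
      rw [e]; exact h2
    · intro l z hd
      exact h.eq l z hd
    · intro l z hd
      have := hsmall hd 3 (by norm_num)
      exact ((h.est hd).1).trans (by linarith)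
    · intro l z hd
      have hd0 : (l, (0 : ℂ)) ∈ Dom L0 := ⟨hd.1, by show ‖(0 : ℂ)‖ < 2; simp⟩
      have h1 := (h.est hd).1
      have h2 := (h.est hd0).1
      refine (norm_sub_le _ _).trans ((add_le_add h1 h2).trans ?_)
      rw [← add_div]
      have := hpos hd
      gcongr; norm_num
    · intro l z hd
      exact (h.ratio hd).2.1
    · intro l z hd
      refine (hratio l z hd).trans ?_
      have hp := hpos hd
      have h6 := hsmall hd 6 (by norm_num)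
      calc 60 / ‖l‖ ^ 2 = 10 / ‖l‖ * (6 / ‖l‖) := by field_simp; norm_num
        _ ≤ 10 / ‖l‖ * 1 := by gcongr
        _ = _ := mul_one _
    · intro l hl
      exact k2_sg h hl
    · intro l z hd
      have hp := hpos hd
      have h1 := (h.est hd).1
      have e : ((0 : ℝ) : ℂ) * ((-s : ℝ) : ℂ) * ((-o : ℝ) : ℂ) / 2 = 0 := by simp
      rw [e, sub_zero]
      exact h1.trans (by gcongr; norm_num)
    · intro l z hd
      have hp := hpos hd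
      have e : (1 : ℂ) - ((0 : ℝ) : ℂ) * ((-o : ℝ) : ℂ) * z / l = 1 := by simp
      rw [e]
      exact (hratio l z hd).trans (by gcongr; norm_num)
  · intro l z hd
    have hp := hpos hd
    exact ((h.est hd).2.2).trans (by gcongr; norm_num)
  · intro l z hd
    have hp := hpos hd
    exact (h.z2 l z hd).trans (by gcongr; norm_num)
  · intro l hl
    have hd0 : (l, (0 : ℂ)) ∈ Dom L0 := ⟨hl, by show ‖(0 : ℂ)‖ < 2; simp⟩
    have hp := hpos hd0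
    exact ((h.ratio hd0).2.2).trans (by gcongr; norm_num)
  · intro l z z' hd hz' he
    have hp := hpos hd
    exact h.un hd (hz'.trans (by gcongr; norm_num)) he

end

end Pool.Agent.Helper38.CV
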