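import Pool.Agent.Helper36.CV.StmtsR

set_option autoImplicit false

namespace Pool.Agent.Helper38.CV.R11

open Pool.Agent.Helper36.CV
open MeasureTheory Set Complex

/-- sizes of the outer children -/
theorem r11_size (ε cK τ z w : ℝ) (hε : 0 < ε) (hz : 0 < z) (hcK : cK * ε ≤ 1 / 10 ^ 6)
    (hτ : τ = -1 ∨ τ = 0 ∨ τ = 1) (h : |w - ε * (1 - 2 * ε * τ) * z| ≤ cK * ε ^ 3 * z) :
    w ≤ ε * (1 + 3 * ε) * z ∧ ε * (1 - 3 * ε) * z ≤ w := by
  have h' := abs_le.mp h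
  have h1 : cK * ε ^ 3 * z ≤ ε ^ 2 * z := by
    have e : cK * ε ^ 3 * z = (cK * ε) * (ε ^ 2 * z) := by ring
    rw [e]
    have h2 : 0 < ε ^ 2 * z := by positivity
    have := mul_le_mul_of_nonneg_right hcK h2.le
    linarith only [this, h2]
  have h0 : 0 < ε ^ 2 * z := by positivity
  rcases hτ with rfl | rfl | rfl
  · constructor
    · linarith only [h'.2, h1, h0]
    · linarith only [h'.1, h1, h0]
  · constructor
    · linarith only [h'.2, h1, h0]
    · linarith only [h'.1, h1, h0]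
  · constructor
    · linarith only [h'.2, h1, h0]
    · linarith only [h'.1, h1, h0]

/-- geometric part -/
theorem r11_geo (ε e23 a b l r l2 r2 x ρ D : ℝ) (hε : 0 < ε) (hε1 : ε ≤ 1 / 10 ^ 6)
    (he1 : 3 * ε ≤ e23) (he2 : e23 ≤ 1 / 1000) (hab : a < b) (hlr : l < r)
    (hr2 : r2 = r) (hl2 : l2 < r2)
    (hx : x = (l2 + r2) / 2) (hρ : ρ = r2 - l2) (hD : D = x - b)
    (hs1 : ρ ≤ ε * (1 + 3 * ε) * (r - l)) (hs2 : ε * (1 - 3 * ε) * (r - l) ≤ ρ)
    (far : a - l ≤ r - b)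
    (nw1 : ¬ (a - 13 / 10 * ε * (r - l) ≤ l ∧ r ≤ b + 13 / 10 * ε * (r - l)))
    (nw2 : ¬ ((1 + 30 * e23) * (r - l) ≤ b - a ∧ a - (r - l) / 10 ≤ l ∧ r ≤ b + (r - l) / 10))
    (w2 : (a - 13 / 10 * ε * (r2 - l2) ≤ l2 ∧ r2 ≤ b + 13 / 10 * ε * (r2 - l2)) ∨
      ((1 + 30 * e23) * (r2 - l2) ≤ b - a ∧ a - (r2 - l2) / 10 ≤ l2 ∧ r2 ≤ b + (r2 - l2) / 10) ∨
      (21 / 20 * (r2 - l2) ≤ b - a ∧ ((a ≤ r2 ∧ l2 ≤ b) ∨
        ((b - a) / 2 < |(l2 + r2) / 2 - (a + b) / 2| ∧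
          8 * ε * |(l2 + r2) / 2 - (a + b) / 2| *
            (((l2 + r2) / 2 - (a + b) / 2) ^ 2 - ((b - a) / 2) ^ 2) ≤
            (r2 - l2) * ((b - a) / 2) ^ 2)))) :
    77 / 100 * ρ ≤ D ∧ 28 / 100 * ρ ≤ l2 - b ∧
    8 * ε * (x - (a + b) / 2) * ((x - (a + b) / 2) ^ 2 - ((b - a) / 2) ^ 2) ≤
      ρ * ((b - a) / 2) ^ 2 ∧
    D ≤ ρ / (16 * ε) ∧ (1 - 31 * e23) * (ε * (b - a)) ≤ ρ ∧ ρ ≤ 115 / 100 * (ε * (b - a)) ∧
    ρ ≤ (1 + 5 * ε * (D / ρ + 1)) * (ε * (b - a)) ∧ r - b ≤ 7 / 100 * (r - l) := by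
  have hz : 0 < r - l := by linarith only [hlr]
  have hρ0 : 0 < ρ := by linarith only [hρ, hl2]
  have h1 : 13 / 10 * ε * (r - l) < r - b := by
    by_contra hcon
    push Not at hcon
    exact nw1 ⟨by linarith only [far, hcon], by linarith only [hcon]⟩
  have h2 : 128 / 100 * ρ ≤ 13 / 10 * ε * (r - l) := by
    have h3 : 0 < ε * (r - l) := by positivity
    have h4 : 128 / 100 * (1 + 3 * ε) ≤ 13 / 10 := by linarith only [hε1]
    have h5 : 128 / 100 * (1 + 3 * ε) * (ε * (r - l)) ≤ 13 / 10 * (ε * (r - l)) :=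
      mul_le_mul_of_nonneg_right h4 h3.le
    linarith only [h5, hs1]
  have h3 : 28 / 100 * ρ ≤ l2 - b := by linarith only [h1, h2, hr2, hρ]
  have hDa : 77 / 100 * ρ ≤ D := by linarith only [h3, hD, hx, hρ, hρ0]
  have hD0 : 0 < D := by linarith only [hDa, hρ0]
  -- only the last alternative
  have hoff : 8 * ε * (x - (a + b) / 2) * ((x - (a + b) / 2) ^ 2 - ((b - a) / 2) ^ 2) ≤
      ρ * ((b - a) / 2) ^ 2 := by
    rcases w2 with h | h | ⟨-, h | h⟩
    · exfalso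
      have h4 : 13 / 10 * ε * (r2 - l2) ≤ 1 / 10 * ρ := by
        rw [← hρ]
        have := mul_le_mul_of_nonneg_right hε1 hρ0.le
        linarith only [this, hρ0]
      linarith only [h.2, h4, h3, hρ0, hρ]
    · exfalso
      linarith only [h.2.2, h3, hρ0, hρ]
    · exfalso
      linarith only [h.2, h3, hρ0]
    · have h5 : 0 < (l2 + r2) / 2 - (a + b) / 2 := by linarith only [hD0, hD, hx, hab]
      rw [abs_of_pos h5, ← hρ, ← hx] at h
      exact h.2
  have hh : 0 < (b - a) / 2 := by linarith only [hab]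
  have hDc : D ≤ ρ / (16 * ε) := by
    rw [le_div_iff₀ (by positivity)]
    have e1 : x - (a + b) / 2 = D + (b - a) / 2 := by rw [hD]; ring
    rw [e1] at hoff
    set h := (b - a) / 2 with hhdef
    have e2 : (D + h) ^ 2 - h ^ 2 = D * (D + 2 * h) := by ring
    rw [e2] at hoff
    have h6 : h * (D * (2 * h)) ≤ (D + h) * (D * (D + 2 * h)) := by
      apply mul_le_mul (by linarith only [hD0]) _ (by positivity) (by positivity)
      exact mul_le_mul_of_nonneg_left (by linarith only [hD0]) hD0.le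
    have h7 : 8 * ε * (h * (D * (2 * h))) ≤ ρ * h ^ 2 := by
      have := mul_le_mul_of_nonneg_left h6 (by positivity : 0 ≤ 8 * ε)
      linarith only [this, hoff]
    have h8 : (D * (16 * ε)) * h ^ 2 ≤ ρ * h ^ 2 := by
      have e3 : (D * (16 * ε)) * h ^ 2 = 8 * ε * (h * (D * (2 * h))) := by ring
      rw [e3]; exact h7
    exact le_of_mul_le_mul_right h8 (by positivity)
  have hDz : D ≤ 626 / 10000 * (r - l) := by
    have h5 : ρ / (16 * ε) ≤ 626 / 10000 * (r - l) := by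
      rw [div_le_iff₀ (by positivity)]
      have h6 : ε * (1 + 3 * ε) * (r - l) ≤ 10016 / 10000 * (ε * (r - l)) := by
        have h3 : 0 < ε * (r - l) := by positivity
        have h4 : (1 + 3 * ε) ≤ 10016 / 10000 := by linarith only [hε1]
        have := mul_le_mul_of_nonneg_right h4 h3.le
        linarith only [this]
      linarith only [h6, hs1]
    exact le_trans hDc h5
  have hρz : ρ ≤ 2 / 10 ^ 6 * (r - l) := by
    have h4 : ε * (1 + 3 * ε) ≤ 2 / 10 ^ 6 := by nlinarith only [hε, hε1]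
    have := mul_le_mul_of_nonneg_right h4 hz.le
    linarith only [this, hs1]
  have hrb : r - b = D + ρ / 2 := by rw [hD, hx, hρ, hr2]; ring
  have hrb7 : r - b ≤ 7 / 100 * (r - l) := by linarith only [hrb, hDz, hρz, hz]
  have hs3 : b - a < (1 + 30 * e23) * (r - l) := by
    by_contra hcon
    push Not at hcon
    exact nw2 ⟨hcon, by linarith only [far, hrb7, hz], by linarith only [hrb7, hz]⟩
  have hs4 : (r - l) - 2 * D - ρ ≤ b - a := by linarith only [far, hrb]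
  refine ⟨hDa, h3, hoff, hDc, ?_, ?_, ?_, hrb7⟩
  · -- (1 - 31 e) (1 + 30 e) ≤ 1 - 3 ε
    have h5 : (1 - 31 * e23) * (ε * (b - a)) ≤ (1 - 31 * e23) * (ε * ((1 + 30 * e23) * (r - l))) := by
      apply mul_le_mul_of_nonneg_left _ (by linarith only [he2])
      exact mul_le_mul_of_nonneg_left hs3.le hε.le
    have h6 : (1 - 31 * e23) * (1 + 30 * e23) ≤ 1 - 3 * ε := by nlinarith only [he1, he2, hε]
    have h7 : (1 - 31 * e23) * (ε * ((1 + 30 * e23) * (r - l))) =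
      (1 - 31 * e23) * (1 + 30 * e23) * (ε * (r - l)) := by ring
    rw [h7] at h5
    have h8 := mul_le_mul_of_nonneg_right h6 (by positivity : 0 ≤ ε * (r - l))
    linarith only [h5, h8, hs2]
  · have h5 : 874 / 1000 * (r - l) ≤ b - a := by linarith only [hs4, hDz, hρz, hz]
    have h6 : ε * (874 / 1000 * (r - l)) ≤ ε * (b - a) := mul_le_mul_of_nonneg_left h5 hε.le
    have h7 : ε * (1 + 3 * ε) * (r - l) ≤ 1001 / 1000 * (ε * (r - l)) := by
      have h3 : 0 < ε * (r - l) := by positivity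
      have h4 : (1 + 3 * ε) ≤ 1001 / 1000 := by linarith only [hε1]
      have := mul_le_mul_of_nonneg_right h4 h3.le
      linarith only [this]
    have h8 : 0 < ε * (r - l) := by positivity
    linarith only [h6, h7, hs1, h8]
  · set d := D / ρ with hd
    have hdD : D = d * ρ := by rw [hd]; field_simp
    have hd0 : 0 ≤ d := by positivity
    have hd1 : ε * d ≤ 1 / 16 := by
      rw [hd, ← mul_div_assoc, div_le_iff₀ hρ0]
      rw [le_div_iff₀ (by positivity)] at hDc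
      linarith only [hDc]
    have h5 : ρ * (1 - 4 * ε - 2 * ε * d) ≤ ε * (b - a) := by
      have h6 : ε * ((r - l) - 2 * D - ρ) ≤ ε * (b - a) := mul_le_mul_of_nonneg_left hs4 hε.le
      have h7 : ρ * (1 - 3 * ε) ≤ ε * (r - l) := by
        have h8 : ρ * (1 - 3 * ε) ≤ ε * (1 + 3 * ε) * (r - l) * (1 - 3 * ε) :=
          mul_le_mul_of_nonneg_right hs1 (by linarith only [hε1])
        have h9 : ε * (1 + 3 * ε) * (r - l) * (1 - 3 * ε) = (1 - 9 * ε ^ 2) * (ε * (r - l)) := by ring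
        have h10 : (1 - 9 * ε ^ 2) * (ε * (r - l)) ≤ 1 * (ε * (r - l)) :=
          mul_le_mul_of_nonneg_right (by nlinarith only [hε]) (by positivity)
        linarith only [h8, h9, h10]
      have e1 : ε * ((r - l) - 2 * D - ρ) = ε * (r - l) - 2 * ε * D - ε * ρ := by ring
      rw [e1] at h6
      rw [hdD] at h6
      linarith only [h6, h7]
    have h6 : 1 ≤ (1 + 5 * ε * (d + 1)) * (1 - 4 * ε - 2 * ε * d) := by
      have e1 : (1 + 5 * ε * (d + 1)) * (1 - 4 * ε - 2 * ε * d) =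
        1 + ε * (3 * d + 1 - 10 * ((ε * d) * d) - 30 * (ε * d) - 20 * ε) := by ring
      rw [e1]
      have h7 : (ε * d) * d ≤ 1 / 16 * d := mul_le_mul_of_nonneg_right hd1 hd0
      have h8 : ε * d ≤ 1 / 10 ^ 6 * d := mul_le_mul_of_nonneg_right hε1 hd0
      have h9 : 0 ≤ 3 * d + 1 - 10 * ((ε * d) * d) - 30 * (ε * d) - 20 * ε := by
        linarith only [h7, h8, hε1, hd0]
      have := mul_nonneg hε.le h9
      linarith only [this]
    have h7 : ρ * 1 ≤ ρ * ((1 + 5 * ε * (d + 1)) * (1 - 4 * ε - 2 * ε * d)) :=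
      mul_le_mul_of_nonneg_left h6 hρ0.le
    have h8 : (1 + 5 * ε * (d + 1)) * (ρ * (1 - 4 * ε - 2 * ε * d)) ≤
        (1 + 5 * ε * (d + 1)) * (ε * (b - a)) :=
      mul_le_mul_of_nonneg_left h5 (by positivity)
    have e2 : (1 + 5 * ε * (d + 1)) * (ρ * (1 - 4 * ε - 2 * ε * d)) =
      ρ * ((1 + 5 * ε * (d + 1)) * (1 - 4 * ε - 2 * ε * d)) := by ring
    linarith only [h7, h8, e2]

/-- violator estimate -/
theorem r11_viol (ε mu kk s ρ D r Yr Yc τ : ℝ) (hε : 0 < ε) (hε1 : ε ≤ 1 / 10 ^ 10)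
    (hs : 0 < s) (hρ : 0 < ρ) (hD0 : 0 < D)
    (hD : D ≤ ρ / (16 * ε)) (hρs : ρ ≤ 115 / 100 * (ε * s)) (hr : r = max ρ D) (hτ : τ = D + s / 2)
    (hmu : 0 ≤ mu) (hkk : 0 ≤ kk)
    (hY : Yr ≤ 3 * Yc) (hYc : Yc ≤ Real.sqrt (τ ^ 2 + s ^ 2 / 4) * kk)
    (hmk : mu * kk * s ≤ ε / 2 * (1 + 98 * ε)) :
    mu * Real.sqrt (r / ρ) * Yr < ε ^ (2 / 5 : ℝ) := by
  have hDs : D ≤ 72 / 1000 * s := by
    have h1 : ρ / (16 * ε) ≤ 72 / 1000 * s := by
      rw [div_le_iff₀ (by positivity)]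
      have : 0 < ε * s := by positivity
      linarith only [hρs, this]
    exact le_trans hD h1
  have hsq : Real.sqrt (τ ^ 2 + s ^ 2 / 4) ≤ 8 / 10 * s := by
    apply Real.sqrt_le_iff.mpr
    refine ⟨by positivity, ?_⟩
    have h1 : τ ≤ 572 / 1000 * s := by linarith only [hτ, hDs]
    have h2 : 0 ≤ τ := by rw [hτ]; positivity
    have h3 : τ ^ 2 ≤ (572 / 1000 * s) ^ 2 := pow_le_pow_left₀ h2 h1 2
    nlinarith only [h3, hs]
  -- mu * Yr ≤ 1.3 ε
  have h1 : mu * Yr ≤ 13 / 10 * ε := by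
    have h2 : Yr ≤ 3 * (8 / 10 * s * kk) := by
      have := mul_le_mul_of_nonneg_right hsq hkk
      linarith only [this, hY, hYc]
    have h3 : mu * Yr ≤ mu * (3 * (8 / 10 * s * kk)) := mul_le_mul_of_nonneg_left h2 hmu
    have e1 : mu * (3 * (8 / 10 * s * kk)) = 24 / 10 * (mu * kk * s) := by ring
    have h4 : ε / 2 * (1 + 98 * ε) ≤ ε / 2 * (101 / 100) :=
      mul_le_mul_of_nonneg_left (by linarith only [hε1]) (by positivity)
    linarith only [h3, e1, hmk, h4, hε]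
  have hsε : 0 < Real.sqrt ε := Real.sqrt_pos.mpr hε
  have hss : Real.sqrt ε * Real.sqrt ε = ε := Real.mul_self_sqrt hε.le
  have h2 : Real.sqrt (r / ρ) ≤ 1 / (4 * Real.sqrt ε) := by
    apply Real.sqrt_le_iff.mpr
    refine ⟨by positivity, ?_⟩
    have e1 : (1 / (4 * Real.sqrt ε)) ^ 2 = 1 / (16 * ε) := by
      rw [div_pow, mul_pow, Real.sq_sqrt hε.le]
      norm_num
    rw [e1, div_le_iff₀ hρ]
    have h3 : ρ ≤ ρ / (16 * ε) := by
      rw [le_div_iff₀ (by positivity)]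
      have : ρ * (16 * ε) ≤ ρ * 1 := mul_le_mul_of_nonneg_left (by linarith only [hε1]) hρ.le
      linarith only [this]
    rw [hr]
    have e2 : 1 / (16 * ε) * ρ = ρ / (16 * ε) := by ring
    rw [e2]
    exact max_le h3 hD
  have h3 : 0 ≤ Real.sqrt (r / ρ) := Real.sqrt_nonneg _
  have h4 : mu * Real.sqrt (r / ρ) * Yr ≤ 13 / 10 * ε * (1 / (4 * Real.sqrt ε)) := by
    have e1 : mu * Real.sqrt (r / ρ) * Yr = (mu * Yr) * Real.sqrt (r / ρ) := by ring
    rw [e1]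
    calc (mu * Yr) * Real.sqrt (r / ρ) ≤ 13 / 10 * ε * Real.sqrt (r / ρ) :=
          mul_le_mul_of_nonneg_right h1 h3
      _ ≤ _ := mul_le_mul_of_nonneg_left h2 (by positivity)
  have h5 : 13 / 10 * ε * (1 / (4 * Real.sqrt ε)) = 13 / 40 * Real.sqrt ε := by
    field_simp
    nlinarith only [hss]
  have h6 : Real.sqrt ε ≤ ε ^ (2 / 5 : ℝ) := by
    rw [Real.sqrt_eq_rpow]
    exact Real.rpow_le_rpow_of_exponent_ge hε (by linarith only [hε1]) (by norm_num)
  rw [h5] at h4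
  linarith only [h4, h6, hsε]

theorem st_R11 (hP1 : ST_P1) (hP3 : ST_P3) (hQ4 : ST_Q4) (hR0 : ST_R0) : ST_R11 := by
  intro cK hcK
  obtain ⟨e0, he0, H0⟩ := hR0
  have hcK0 : 0 < cK := by linarith
  refine ⟨min (min e0 (1 / 10 ^ 12)) (1 / (10 ^ 6 * cK)), by positivity, ?_⟩
  intro ε Hm Hp C cd hPar hεle τ0 l r l0 r0 l1 r1 l2 r2 k0 s0 k1 s1 k2 s2 V0 h x ρ D hx hρ hD
  simp only [le_min_iff] at hεle
  obtain ⟨⟨hl0, hl1⟩, hl2⟩ := hεle
  have hε : 0 < ε := hPar.1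
  have hcKε : cK * ε ≤ 1 / 10 ^ 6 := by
    rw [le_div_iff₀ (by positivity)] at hl2
    linarith only [hl2]
  have hε6 : ε ≤ 1 / 10 ^ 6 := le_trans hl1 (by norm_num)
  -- e = ε^(2/3)
  obtain ⟨e23, he23⟩ : ∃ e : ℝ, e = ε ^ (2 / 3 : ℝ) := ⟨_, rfl⟩
  have he2 : e23 ≤ 1 / 1000 := by
    rw [he23]
    have h1 : ε ^ (2 / 3 : ℝ) ≤ (1 / 10 ^ 12 : ℝ) ^ (2 / 3 : ℝ) :=
      Real.rpow_le_rpow hε.le hl1 (by norm_num)
    have h2 : (1 / 10 ^ 12 : ℝ) ^ (2 / 3 : ℝ) = 1 / 10 ^ 8 := by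
      rw [show (1 / 10 ^ 12 : ℝ) = (1 / 10 ^ 4) ^ (3 : ℝ) by
        rw [show (3 : ℝ) = ((3 : ℕ) : ℝ) by norm_num, Real.rpow_natCast]; norm_num]
      rw [← Real.rpow_mul (by positivity)]
      rw [show (3 : ℝ) * (2 / 3) = ((2 : ℕ) : ℝ) by norm_num, Real.rpow_natCast]
      norm_num
    rw [h2] at h1
    refine le_trans h1 (by norm_num)
  have he1 : 3 * ε ≤ e23 := by
    rw [he23]
    have h1 : ε = ε ^ (2 / 3 : ℝ) * ε ^ (1 / 3 : ℝ) := by
      rw [← Real.rpow_add hε]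
      norm_num
    have h2 : ε ^ (1 / 3 : ℝ) ≤ 1 / 3 := by
      have h3 : ε ^ (1 / 3 : ℝ) ≤ (1 / 10 ^ 12 : ℝ) ^ (1 / 3 : ℝ) :=
        Real.rpow_le_rpow hε.le hl1 (by norm_num)
      have h4 : (1 / 10 ^ 12 : ℝ) ^ (1 / 3 : ℝ) = 1 / 10 ^ 4 := by
        rw [show (1 / 10 ^ 12 : ℝ) = (1 / 10 ^ 4) ^ (3 : ℝ) by
          rw [show (3 : ℝ) = ((3 : ℕ) : ℝ) by norm_num, Real.rpow_natCast]; norm_num]
        rw [← Real.rpow_mul (by positivity)]
        norm_num
      rw [h4] at h3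
      refine le_trans h3 (by norm_num)
    have h5 : 0 < ε ^ (2 / 3 : ℝ) := Real.rpow_pos_of_pos hε _
    have h6 := mul_le_mul_of_nonneg_left h2 h5.le
    rw [← h1] at h6
    linarith only [h6]
  have hY := h.kidsY
  have hX := h.kids
  have hlr := hX.lt
  have hl2r2 := hY.lt
  have hρ0 : 0 < ρ := by linarith only [hρ, hl2r2]
  have hz : 0 < r - l := by linarith only [hlr]
  obtain ⟨hs1, hs2⟩ := r11_size ε cK τ0 (r - l) (r2 - l2) hε hz hcKε hX.tt hX.n2
  rw [← hρ] at hs1 hs2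
  have nw := h.nw
  have w2 := h.w2
  unfold Wit at nw w2
  rw [← he23] at nw w2
  push Not at nw
  obtain ⟨nw1, nw2, -⟩ := nw
  obtain ⟨ha, hkey, hb, hc, hd, he, hf, hrb⟩ := r11_geo ε e23 V0.a V0.b l r l2 r2 x ρ D hε hε6 he1 he2
    V0.lt hlr hX.e2 hl2r2 hx hρ hD hs1 hs2 h.far (fun h' => absurd h'.2 (not_le.mpr (nw1 h'.1)))
    (fun h' => absurd h'.2.2 (not_le.mpr (nw2 h'.1 h'.2.1))) w2
  have hVs : V0.s = V0.b - V0.a := rfl
  have hVc : V0.c = (V0.a + V0.b) / 2 := rfl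
  have hD0 : 0 < D := by linarith only [ha, hρ0]
  have hρz : ρ ≤ 2 * ε * (r - l) := by
    have h1 : ε * (1 + 3 * ε) * (r - l) ≤ 2 * ε * (r - l) := by
      apply mul_le_mul_of_nonneg_right _ hz.le
      nlinarith only [hε, hε6]
    linarith only [h1, hs1]
  have hxm : |x - (l + r) / 2| ≤ (r - l) / 2 := by
    rw [abs_le]
    have h1 := hX.e2
    have h2 : 2 * ε * (r - l) ≤ 1 * (r - l) :=
      mul_le_mul_of_nonneg_right (by linarith only [hε6]) hz.le
    constructor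
    · linarith only [hx, hρ, h1, hρz, h2, hz]
    · linarith only [hx, hρ, h1, hρ0, hz]
  have hrad : ρ / ε ^ 3 + (r - l) / 2 ≤ (r - l) / ε ^ 3 := by
    rw [← sub_nonneg]
    have e1 : (r - l) / ε ^ 3 - (ρ / ε ^ 3 + (r - l) / 2) =
      ((r - l) - ρ - (r - l) / 2 * ε ^ 3) / ε ^ 3 := by
      field_simp
      ring
    rw [e1]
    apply div_nonneg _ (by positivity)
    have h1 : ρ ≤ 1 / 10 * (r - l) := by
      have : 2 * ε * (r - l) ≤ 1 / 10 * (r - l) :=
        mul_le_mul_of_nonneg_right (by linarith only [hε6]) hz.le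
      linarith only [this, hρz]
    have h2 : (r - l) / 2 * ε ^ 3 ≤ (r - l) / 2 * 1 := by
      apply mul_le_mul_of_nonneg_left _ (by positivity)
      exact pow_le_one₀ hε.le (by linarith only [hε6])
    linarith only [h1, h2, hz]
  have hGood : Good cd ε l2 r2 := by
    refine ⟨?_, ?_⟩
    · intro t ht
      apply h.good.inn
      rw [← hx, ← hρ] at ht
      have h1 : |t - (l + r) / 2| ≤ |t - x| + |x - (l + r) / 2| := by
        have := abs_add_le (t - x) (x - (l + r) / 2)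
        have e : t - x + (x - (l + r) / 2) = t - (l + r) / 2 := by ring
        rwa [e] at this
      linarith only [h1, ht, hxm, hrad]
    · intro W hW
      apply h.good.big
      rw [← hx, ← hρ] at hW
      obtain ⟨h1, h2⟩ := hW
      have h3 := abs_le.mp hxm
      constructor
      · linarith only [h1, h3.2, hrad]
      · linarith only [h2, h3.1, hrad]
  have hmu : 1000 ≤ |V0.mu| := by
    have h1 : 1 / ε ^ 4 ≤ |V0.mu| := by
      apply h.good.big
      have h3 : (r - l) ≤ (r - l) / ε ^ 3 := by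
        rw [le_div_iff₀ (by positivity)]
        have : (r - l) * ε ^ 3 ≤ (r - l) * 1 := by
          apply mul_le_mul_of_nonneg_left _ (by positivity)
          exact pow_le_one₀ hε.le (by linarith only [hε6])
        linarith only [this]
      have h4 := V0.lt
      have h5 := hX.e2
      constructor
      · linarith only [h3, h4, hkey, hρ0, hl2r2, h5, hz]
      · linarith only [h3, hrb, hz]
    have h2 : 1000 ≤ 1 / ε ^ 4 := by
      rw [le_div_iff₀ (by positivity)]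
      have h3 : ε ^ 4 ≤ (1 / 10 ^ 6) ^ 4 := pow_le_pow_left₀ hε.le hε6 4
      have h4 : (1000 : ℝ) * (1 / 10 ^ 6) ^ 4 ≤ 1 := by norm_num
      linarith only [h3, h4]
    linarith only [h1, h2]
  -- children of `Y`
  have hn0 := r11_size ε cK (-1) ρ (s0 - k0) hε hρ0 hcKε (Or.inl rfl) (by
    have := hY.n0
    rw [← hρ] at this
    have e : ε * (1 - 2 * ε * -1) * ρ = ε * (1 + 2 * ε * 1) * ρ := by ring
    rw [e]; exact this)
  have hn2 := r11_size ε cK 1 ρ (s2 - k2) hε hρ0 hcKε (Or.inr (Or.inr rfl)) (by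
    have := hY.n2
    rw [← hρ] at this
    exact this)
  have hkb : ∀ k : ℝ, k ≤ ε * (1 + 3 * ε) * ρ → k / (16 * ε) ≤ 7 / 100 * ρ := by
    intro k hk
    rw [div_le_iff₀ (by positivity)]
    have h1 : (1 + 3 * ε) * (ε * ρ) ≤ 101 / 100 * (ε * ρ) :=
      mul_le_mul_of_nonneg_right (by linarith only [hε6]) (by positivity)
    have h2 : 0 < ε * ρ := by positivity
    linarith only [hk, h1, h2]
  have hsm : ε * (1 + 3 * ε) * ρ ≤ 1 / 100 * ρ := by
    apply mul_le_mul_of_nonneg_right _ hρ0.le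
    nlinarith only [hε, hε6]
  have hlow : ∀ k : ℝ, ε * (1 - 3 * ε) * ρ ≤ k → 0 < k := by
    intro k hk
    have : 0 < ε * (1 - 3 * ε) * ρ := by
      apply mul_pos _ hρ0
      apply mul_pos hε
      linarith only [hε6]
    linarith only [this, hk]
  have hnk0 : ¬ Wit ε V0.a V0.b k0 s0 := by
    intro hW
    have h1 := (H0 ε V0.a V0.b k0 s0 hε hl0 V0.lt (by linarith only [hlow _ hn0.2])).2 hW
    have h2 := h1.2.2.1
    have h3 := hkb _ hn0.1
    have h4 := hY.e0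
    have h5 := hlow _ hn0.2
    linarith only [h2, h3, h4, h5, hkey, hρ0]
  have hnk2 : ¬ Wit ε V0.a V0.b k2 s2 := by
    intro hW
    have h1 := (H0 ε V0.a V0.b k2 s2 hε hl0 V0.lt (by linarith only [hlow _ hn2.2])).2 hW
    have h2 := h1.2.2.1
    have h3 := hkb _ hn2.1
    have h4 := hY.e2
    have h5 := hn2.1
    linarith only [h2, h3, h4, h5, hkey, hρ0, hsm, hρ, hl2r2]
  refine ⟨ha, ?_, hc, ?_, ?_, ?_, hGood, hnk0, hnk2, hmu, ?_⟩
  · rw [hVc, hVs]; exact hb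
  · rw [← he23, hVs]; exact hd
  · rw [hVs]; exact he
  · rw [hVs]; exact hf
  -- the violator
  · unfold NV
    rw [not_le]
    have hdist : V0.dist x = D := by
      unfold Gap.dist
      have h1 := V0.lt
      rw [max_eq_right (by linarith only [hD, hD0, h1] : V0.a - x ≤ x - V0.b), ← hD,
        max_eq_right hD0.le]
    rw [hdist]
    obtain ⟨τ, hτ⟩ : ∃ τ : ℝ, τ = D + V0.s / 2 := ⟨_, rfl⟩
    have hs0 : 0 < V0.s := by rw [hVs]; linarith only [V0.lt]
    have hτ0 : 0 < τ := by rw [hτ]; positivity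
    have hτc : x - V0.c = τ := by rw [hτ, hVc, hVs, hD]; ring
    have hr0 : 0 < max ρ D := lt_max_of_lt_left hρ0
    have hrτ : max ρ D ≤ τ := by
      apply max_le
      · have h1 : 115 / 100 * (ε * V0.s) ≤ 1 / 2 * V0.s := by
          have := mul_le_mul_of_nonneg_right hε6 hs0.le
          linarith only [this, hs0]
        rw [hVs] at h1 hτ
        linarith only [h1, he, hτ, hD0]
      · linarith only [hτ, hs0]
    have hY1 : Yf cd x (max ρ D) ≤ Yf cd x τ := ((hP1 Hm Hp C cd).2.2.1 x _ τ hr0 hrτ).2.1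
    have hY2 : Yf cd x τ ≤ 3 * Yf cd V0.c τ := by
      have h1 := (hP1 Hm Hp C cd).2.2.2.1 V0.c x τ hτ0 (by
        rw [abs_sub_comm, hτc, abs_of_pos hτ0]; linarith only [hτ0])
      rw [abs_sub_comm, hτc, abs_of_pos hτ0, div_self hτ0.ne'] at h1
      norm_num at h1
      exact h1
    have hP3' := hP3 Hm Hp C cd V0.a V0.b V0.N V0.lt (fun t ht => V0.lab t ht)
    have hcm : V0.c ∈ Ioo V0.a V0.b := by
      have h1 := V0.lt
      rw [hVc]
      constructor <;> linarith only [h1]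
    have hkk : 0 < V0.kk := (hP3'.1 V0.c hcm).2.1
    have hYc : Yf cd V0.c τ ≤ Real.sqrt (τ ^ 2 + V0.s ^ 2 / 4) * V0.kk := by
      have h1 := hP3'.2.2 τ hτ0
      have h2 : Yf cd V0.c τ ≤ ‖cd.f (((V0.a + V0.b) / 2 : ℝ) + (τ : ℂ) * I) - V0.N‖ := by
        have h3 : Yf cd V0.c τ = (cd.f (((V0.a + V0.b) / 2 : ℝ) + (τ : ℂ) * I) - V0.N).im := by
          unfold Yf
          rw [Complex.sub_im, Complex.ofReal_im, sub_zero]
          rfl
        rw [h3]
        exact le_trans (le_abs_self _) (Complex.abs_im_le_norm _)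
      exact le_trans h2 h1
    have hmk := (hQ4 ε Hm Hp C cd hPar (le_trans hε6 (by norm_num))).2.1 V0
    exact r11_viol ε |V0.mu| V0.kk V0.s ρ D (max ρ D) (Yf cd x (max ρ D)) (Yf cd V0.c τ) τ hε
      (le_trans hl1 (by norm_num)) hs0 hρ0 hD0 hc (by rw [hVs]; exact he) rfl hτ (abs_nonneg _)
      hkk.le (le_trans hY1 hY2) hYc hmk

end Pool.Agent.Helper38.CV.R11
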