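import Mathlib

set_option autoImplicit false

namespace Pool.Agent.Helper38.CV

open Metric Set Filter Topology

noncomputable section

theorem cauchy_b {f : ℂ → ℂ} {a : ℂ} {ρ M R : ℝ} (hR : 0 < R) (hf : DifferentiableOn ℂ f (ball 0 ρ))
    (hM : ∀ z ∈ ball (0 : ℂ) ρ, ‖f z - a‖ ≤ M) {z : ℂ} (hz : ‖z‖ + R < ρ) :
    ‖deriv f z‖ ≤ M / R := by
  have hsub : closedBall z R ⊆ ball (0 : ℂ) ρ := by
    intro w hw
    rw [mem_closedBall, dist_eq_norm] at hw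
    rw [mem_ball_zero_iff]
    calc ‖w‖ = ‖(w - z) + z‖ := by rw [sub_add_cancel]
      _ ≤ ‖w - z‖ + ‖z‖ := norm_add_le _ _
      _ < ρ := by linarith
  have h1 : deriv (fun w => f w - a) z = deriv f z := deriv_sub_const a
  rw [← h1]
  refine Complex.norm_deriv_le_of_forall_mem_sphere_norm_le hR ?_ ?_
  · apply DifferentiableOn.diffContOnCl
    rw [closure_ball _ hR.ne']
    exact (hf.sub_const a).mono hsub
  · intro w hw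
    exact hM w (hsub (sphere_subset_closedBall hw))

theorem mvt_cb {f : ℂ → ℂ} {c : ℂ} {r C : ℝ} (hf : ∀ z ∈ closedBall c r, DifferentiableAt ℂ f z)
    (hb : ∀ z ∈ closedBall c r, ‖deriv f z‖ ≤ C) {x y : ℂ} (hx : x ∈ closedBall c r)
    (hy : y ∈ closedBall c r) : ‖f y - f x‖ ≤ C * ‖y - x‖ :=
  (convex_closedBall c r).norm_image_sub_le_of_norm_deriv_le hf hb hx hy

/-- data at a fixed coupling -/
structure Loc (l : ℂ) (s : ℝ) (u P : ℂ → ℂ) : Prop where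
  ss : s = 1 ∨ s = -1
  hN : 10000 ≤ ‖l‖
  du : DifferentiableOn ℂ u (ball 0 2)
  dP : DifferentiableOn ℂ P (ball 0 2)
  ub : ∀ z ∈ ball (0 : ℂ) 2, ‖u z‖ ≤ 11 / 10
  uv : ∀ z ∈ ball (0 : ℂ) 2, ‖u z - u 0‖ ≤ 20 / ‖l‖
  Pb : ∀ z ∈ ball (0 : ℂ) 2, ‖P z - s * l / 2‖ ≤ 3
  iv : ∀ z ∈ ball (0 : ℂ) 2, (P z - u z * z) ^ 2 = (1 - u z ^ 2) * (1 - z ^ 2) + l ^ 2 / 4

def Yf (u P : ℂ → ℂ) (z : ℂ) : ℂ := 2 * z * P z - u z
def Wf (u P : ℂ → ℂ) (z : ℂ) : ℂ := 2 * Yf u P z * z - P z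
def Gf (u P : ℂ → ℂ) (z : ℂ) : ℂ := 2 * Wf u P z * Yf u P z - z

def Yd (u P : ℂ → ℂ) (z : ℂ) : ℂ := 2 * P z + 2 * z * deriv P z - deriv u z
def Wd' (u P : ℂ → ℂ) (z : ℂ) : ℂ := 2 * Yd u P z * z + 2 * Yf u P z - deriv P z
def Gd (u P : ℂ → ℂ) (z : ℂ) : ℂ := 2 * Wd' u P z * Yf u P z + 2 * Wf u P z * Yd u P z - 1

variable {l : ℂ} {s : ℝ} {u P : ℂ → ℂ}

theorem Loc.s2 (h : Loc l s u P) : (s : ℂ) ^ 2 = 1 := by
  rcases h.ss with h | h <;> subst h <;> norm_num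

theorem Loc.sn (h : Loc l s u P) : ‖(s : ℂ)‖ = 1 := by
  rcases h.ss with h | h <;> subst h <;> norm_num

theorem Loc.pos (h : Loc l s u P) : 0 < ‖l‖ := by linarith [h.hN]

theorem Loc.l0 (h : Loc l s u P) : l ≠ 0 := norm_pos_iff.1 h.pos

theorem Loc.dPz (h : Loc l s u P) {z : ℂ} (hz : ‖z‖ ≤ 1) : ‖deriv P z‖ ≤ 6 := by
  have := cauchy_b (R := 1 / 2) (by norm_num) h.dP h.Pb (z := z) (by linarith)
  linarith

theorem Loc.duz (h : Loc l s u P) {z : ℂ} (hz : ‖z‖ ≤ 1) : ‖deriv u z‖ ≤ 1 / 100 := by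
  have h1 := cauchy_b (R := 1 / 2) (by norm_num) h.du h.uv (z := z) (by linarith)
  have h2 : 20 / ‖l‖ ≤ 1 / 200 := by
    rw [div_le_div_iff₀ h.pos (by norm_num)]; linarith [h.hN]
  linarith

theorem Loc.hu' (h : Loc l s u P) {z : ℂ} (hz : ‖z‖ < 2) : HasDerivAt u (deriv u z) z :=
  (h.du.differentiableAt (isOpen_ball.mem_nhds (by simpa using hz))).hasDerivAt

theorem Loc.hP' (h : Loc l s u P) {z : ℂ} (hz : ‖z‖ < 2) : HasDerivAt P (deriv P z) z :=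
  (h.dP.differentiableAt (isOpen_ball.mem_nhds (by simpa using hz))).hasDerivAt

theorem Loc.hY (h : Loc l s u P) {z : ℂ} (hz : ‖z‖ < 2) : HasDerivAt (Yf u P) (Yd u P z) z := by
  have h1 := (((hasDerivAt_id z).const_mul 2).mul (h.hP' hz)).sub (h.hu' hz)
  refine h1.congr_deriv ?_
  simp only [Yd, id]
  ring

theorem Loc.hW (h : Loc l s u P) {z : ℂ} (hz : ‖z‖ < 2) : HasDerivAt (Wf u P) (Wd' u P z) z := by
  have h1 := (((h.hY hz).const_mul 2).mul (hasDerivAt_id z)).sub (h.hP' hz)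
  refine h1.congr_deriv ?_
  simp only [Wd', id]
  ring

theorem Loc.hG (h : Loc l s u P) {z : ℂ} (hz : ‖z‖ < 2) : HasDerivAt (Gf u P) (Gd u P z) z := by
  have h1 := (((h.hW hz).const_mul 2).mul (h.hY hz)).sub (hasDerivAt_id z)
  refine h1.congr_deriv ?_
  simp only [Gd]

/-- sharp form of P -/
theorem Loc.Ps (h : Loc l s u P) {z : ℂ} (hz : ‖z‖ < 2) : ‖P z - u z * z - s * l / 2‖ ≤ 12 / ‖l‖ := by
  have hz' : z ∈ ball (0 : ℂ) 2 := by simpa using hz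
  have e1 : (P z - u z * z - s * l / 2) * (P z - u z * z + s * l / 2) =
      (1 - u z ^ 2) * (1 - z ^ 2) := by
    linear_combination h.iv z hz' - l ^ 2 / 4 * h.s2
  have hu := h.ub z hz'
  have huz : ‖u z * z‖ ≤ 11 / 10 * 2 := by
    rw [norm_mul]; exact mul_le_mul hu hz.le (norm_nonneg _) (by norm_num)
  have hsl : ‖(s : ℂ) * l‖ = ‖l‖ := by rw [norm_mul, h.sn, one_mul]
  have h2 : ‖l‖ - 6 ≤ ‖P z - u z * z + s * l / 2‖ := by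
    have : (s : ℂ) * l = (P z - u z * z + s * l / 2) - (P z - s * l / 2) + u z * z := by ring
    have h3 : ‖(s : ℂ) * l‖ ≤ ‖P z - u z * z + s * l / 2‖ + ‖P z - s * l / 2‖ + ‖u z * z‖ := by
      calc ‖(s : ℂ) * l‖ = ‖(P z - u z * z + s * l / 2) - (P z - s * l / 2) + u z * z‖ := by
            rw [← this]
        _ ≤ ‖(P z - u z * z + s * l / 2) - (P z - s * l / 2)‖ + ‖u z * z‖ := norm_add_le _ _
        _ ≤ _ := by linarith [norm_sub_le (P z - u z * z + s * l / 2) (P z - s * l / 2)]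
    rw [hsl] at h3
    linarith [h.Pb z hz']
  have h4 : ‖(1 - u z ^ 2) * (1 - z ^ 2)‖ ≤ (1 + (11 / 10) ^ 2) * (1 + 2 ^ 2) := by
    rw [norm_mul]
    refine mul_le_mul ?_ ?_ (norm_nonneg _) (by norm_num)
    · calc ‖1 - u z ^ 2‖ ≤ ‖(1 : ℂ)‖ + ‖u z ^ 2‖ := norm_sub_le _ _
        _ ≤ _ := by rw [norm_one, norm_pow]; gcongr
    · calc ‖1 - z ^ 2‖ ≤ ‖(1 : ℂ)‖ + ‖z ^ 2‖ := norm_sub_le _ _
        _ ≤ _ := by rw [norm_one, norm_pow]; gcongr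
  rw [← e1, norm_mul] at h4
  rw [le_div_iff₀ h.pos]
  have hN := h.hN
  have h5 : ‖P z - u z * z - s * l / 2‖ * (‖l‖ - 6) ≤ (1 + (11 / 10) ^ 2) * (1 + 2 ^ 2) :=
    (mul_le_mul_of_nonneg_left h2 (norm_nonneg _)).trans h4
  have h6 : ‖P z - u z * z - s * l / 2‖ * (‖l‖ * (99 / 100)) ≤ ‖P z - u z * z - s * l / 2‖ * (‖l‖ - 6) := by
    apply mul_le_mul_of_nonneg_left _ (norm_nonneg _)
    linarith
  nlinarith

/-- first order bounds on the small disc -/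
theorem Loc.bd (h : Loc l s u P) {z : ℂ} (hz : ‖z‖ ≤ 10 / ‖l‖) :
    ‖Yf u P z‖ ≤ 12 ∧ ‖Yd u P z - s * l‖ ≤ 7 ∧ ‖Wf u P z + s * l / 2‖ ≤ 4 ∧ ‖Wd' u P z‖ ≤ 60 := by
  have hN := h.hN
  have hp := h.pos
  have hs : 10 / ‖l‖ ≤ 1 / 1000 := by
    rw [div_le_div_iff₀ hp (by norm_num)]; linarith
  have hz1 : ‖z‖ ≤ 1 / 1000 := hz.trans hs
  have hz2 : z ∈ ball (0 : ℂ) 2 := by
    rw [mem_ball_zero_iff]; linarith
  have hlz : ‖l‖ * ‖z‖ ≤ 10 := by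
    rw [le_div_iff₀ hp] at hz; linarith
  have hsl : ‖(s : ℂ) * l‖ = ‖l‖ := by rw [norm_mul, h.sn, one_mul]
  have hP : ‖P z‖ ≤ ‖l‖ / 2 + 3 := by
    have : P z = (P z - s * l / 2) + s * l / 2 := by ring
    calc ‖P z‖ = ‖(P z - s * l / 2) + s * l / 2‖ := by rw [← this]
      _ ≤ ‖P z - s * l / 2‖ + ‖(s : ℂ) * l / 2‖ := norm_add_le _ _
      _ ≤ 3 + ‖l‖ / 2 := by
        rw [norm_div, hsl]; simp only [Complex.norm_ofNat]
        linarith [h.Pb z hz2]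
      _ = _ := by ring
  have hP' := h.dPz (z := z) (by linarith)
  have hu' := h.duz (z := z) (by linarith)
  have hu := h.ub z hz2
  have hY : ‖Yf u P z‖ ≤ 12 := by
    calc ‖Yf u P z‖ ≤ ‖2 * z * P z‖ + ‖u z‖ := norm_sub_le _ _
      _ = 2 * ‖z‖ * ‖P z‖ + ‖u z‖ := by rw [norm_mul, norm_mul]; simp
      _ ≤ 2 * ‖z‖ * (‖l‖ / 2 + 3) + 11 / 10 := by gcongr
      _ ≤ 12 := by nlinarith
  have hYd : ‖Yd u P z - s * l‖ ≤ 7 := by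
    have : Yd u P z - s * l = 2 * (P z - s * l / 2) + 2 * z * deriv P z - deriv u z := by
      rw [Yd]; ring
    rw [this]
    calc _ ≤ ‖2 * (P z - s * l / 2) + 2 * z * deriv P z‖ + ‖deriv u z‖ := norm_sub_le _ _
      _ ≤ ‖2 * (P z - s * l / 2)‖ + ‖2 * z * deriv P z‖ + ‖deriv u z‖ := by
        gcongr; exact norm_add_le _ _
      _ = 2 * ‖P z - s * l / 2‖ + 2 * ‖z‖ * ‖deriv P z‖ + ‖deriv u z‖ := by
        rw [norm_mul, norm_mul, norm_mul]; simp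
      _ ≤ 2 * 3 + 2 * (1 / 1000) * 6 + 1 / 100 := by
        gcongr; exact h.Pb z hz2
      _ ≤ 7 := by norm_num
  have hW : ‖Wf u P z + s * l / 2‖ ≤ 4 := by
    have : Wf u P z + s * l / 2 = 2 * Yf u P z * z - (P z - s * l / 2) := by
      rw [Wf]; ring
    rw [this]
    calc _ ≤ ‖2 * Yf u P z * z‖ + ‖P z - s * l / 2‖ := norm_sub_le _ _
      _ = 2 * ‖Yf u P z‖ * ‖z‖ + ‖P z - s * l / 2‖ := by rw [norm_mul, norm_mul]; simp
      _ ≤ 2 * 12 * (1 / 1000) + 3 := by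
        gcongr; exact h.Pb z hz2
      _ ≤ 4 := by norm_num
  refine ⟨hY, hYd, hW, ?_⟩
  have hYn : ‖Yd u P z‖ ≤ ‖l‖ + 7 := by
    have : Yd u P z = (Yd u P z - s * l) + s * l := by ring
    calc ‖Yd u P z‖ = ‖(Yd u P z - s * l) + s * l‖ := by rw [← this]
      _ ≤ ‖Yd u P z - s * l‖ + ‖(s : ℂ) * l‖ := norm_add_le _ _
      _ ≤ _ := by rw [hsl]; linarith
  calc ‖Wd' u P z‖ ≤ ‖2 * Yd u P z * z + 2 * Yf u P z‖ + ‖deriv P z‖ := norm_sub_le _ _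
    _ ≤ ‖2 * Yd u P z * z‖ + ‖2 * Yf u P z‖ + ‖deriv P z‖ := by
      gcongr; exact norm_add_le _ _
    _ = 2 * ‖Yd u P z‖ * ‖z‖ + 2 * ‖Yf u P z‖ + ‖deriv P z‖ := by
      rw [norm_mul, norm_mul, norm_mul]; simp
    _ ≤ 2 * (‖l‖ + 7) * ‖z‖ + 2 * 12 + 6 := by gcongr
    _ ≤ 60 := by nlinarith

theorem Loc.Gdb (h : Loc l s u P) {z : ℂ} (hz : ‖z‖ ≤ 10 / ‖l‖) :
    ‖Gd u P z + l ^ 2‖ ≤ 16 * ‖l‖ := by
  obtain ⟨hY, hYd, hW, hWd⟩ := h.bd hz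
  have hN := h.hN
  have e : Gd u P z + l ^ 2 = 2 * Wd' u P z * Yf u P z + 2 * (Wf u P z + s * l / 2) * (Yd u P z - s * l)
      + 2 * (Wf u P z + s * l / 2) * (s * l) - s * l * (Yd u P z - s * l) - 1 := by
    rw [Gd]; linear_combination (- l ^ 2) * h.s2
  have hsl : ‖(s : ℂ) * l‖ = ‖l‖ := by rw [norm_mul, h.sn, one_mul]
  rw [e]
  have t1 : ‖2 * Wd' u P z * Yf u P z‖ ≤ 2 * 60 * 12 := by
    rw [norm_mul, norm_mul]; simp only [Complex.norm_ofNat]; gcongr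
  have t2 : ‖2 * (Wf u P z + s * l / 2) * (Yd u P z - s * l)‖ ≤ 2 * 4 * 7 := by
    rw [norm_mul, norm_mul]; simp only [Complex.norm_ofNat]; gcongr
  have t3 : ‖2 * (Wf u P z + s * l / 2) * (s * l)‖ ≤ 2 * 4 * ‖l‖ := by
    rw [norm_mul, norm_mul, hsl]; simp only [Complex.norm_ofNat]; gcongr
  have t4 : ‖s * l * (Yd u P z - s * l)‖ ≤ ‖l‖ * 7 := by
    rw [norm_mul, hsl]; gcongr
  calc _ ≤ ‖2 * Wd' u P z * Yf u P z + 2 * (Wf u P z + s * l / 2) * (Yd u P z - s * l)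
      + 2 * (Wf u P z + s * l / 2) * (s * l) - s * l * (Yd u P z - s * l)‖ + ‖(1 : ℂ)‖ := norm_sub_le _ _
    _ ≤ ‖2 * Wd' u P z * Yf u P z + 2 * (Wf u P z + s * l / 2) * (Yd u P z - s * l)
      + 2 * (Wf u P z + s * l / 2) * (s * l)‖ + ‖s * l * (Yd u P z - s * l)‖ + ‖(1 : ℂ)‖ := by
        gcongr; exact norm_sub_le _ _
    _ ≤ ‖2 * Wd' u P z * Yf u P z + 2 * (Wf u P z + s * l / 2) * (Yd u P z - s * l)‖
      + ‖2 * (Wf u P z + s * l / 2) * (s * l)‖ + ‖s * l * (Yd u P z - s * l)‖ + ‖(1 : ℂ)‖ := by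
        gcongr; exact norm_add_le _ _
    _ ≤ ‖2 * Wd' u P z * Yf u P z‖ + ‖2 * (Wf u P z + s * l / 2) * (Yd u P z - s * l)‖
      + ‖2 * (Wf u P z + s * l / 2) * (s * l)‖ + ‖s * l * (Yd u P z - s * l)‖ + ‖(1 : ℂ)‖ := by
        gcongr; exact norm_add_le _ _
    _ ≤ 2 * 60 * 12 + 2 * 4 * 7 + 2 * 4 * ‖l‖ + ‖l‖ * 7 + 1 := by
        rw [norm_one]; gcongr
    _ ≤ 16 * ‖l‖ := by linarith

theorem Loc.small (h : Loc l s u P) {c : ℝ} (hc : c ≤ 10000) : c / ‖l‖ ≤ 1 := by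
  rw [div_le_one h.pos]; linarith [h.hN]

/-- linearisation -/
theorem Loc.lin (h : Loc l s u P) {a b : ℂ} (ha : ‖a‖ ≤ 10 / ‖l‖) (hb : ‖b‖ ≤ 10 / ‖l‖) :
    ‖Gf u P b - Gf u P a + l ^ 2 * (b - a)‖ ≤ 16 * ‖l‖ * ‖b - a‖ := by
  have hd : ∀ z ∈ closedBall (0 : ℂ) (10 / ‖l‖), HasDerivAt (fun z => Gf u P z + l ^ 2 * z)
      (Gd u P z + l ^ 2) z := by
    intro z hz
    rw [mem_closedBall_zero_iff] at hz
    have h1 := (h.hG (z := z) (by linarith [h.small (c := 10) (by norm_num)])).add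
      ((hasDerivAt_id z).const_mul (l ^ 2))
    exact h1.congr_deriv (by ring)
  have h2 := mvt_cb (c := 0) (r := 10 / ‖l‖) (C := 16 * ‖l‖) (fun z hz => (hd z hz).differentiableAt)
    (fun z hz => by
      rw [(hd z hz).deriv]
      exact h.Gdb (by simpa using hz)) (x := a) (y := b) (by simpa using ha) (by simpa using hb)
  have e : Gf u P b - Gf u P a + l ^ 2 * (b - a) =
    (Gf u P b + l ^ 2 * b) - (Gf u P a + l ^ 2 * a) := by ring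
  rw [e]; exact h2

theorem Loc.inj' (h : Loc l s u P) {a b : ℂ} (ha : ‖a‖ ≤ 10 / ‖l‖) (hb : ‖b‖ ≤ 10 / ‖l‖) :
    (‖l‖ ^ 2 - 16 * ‖l‖) * ‖b - a‖ ≤ ‖Gf u P b - Gf u P a‖ := by
  have h1 := h.lin ha hb
  have h2 : ‖l ^ 2 * (b - a)‖ ≤ ‖Gf u P b - Gf u P a + l ^ 2 * (b - a)‖ + ‖Gf u P b - Gf u P a‖ := by
    have : l ^ 2 * (b - a) = (Gf u P b - Gf u P a + l ^ 2 * (b - a)) - (Gf u P b - Gf u P a) := by ring
    calc ‖l ^ 2 * (b - a)‖ = ‖(Gf u P b - Gf u P a + l ^ 2 * (b - a)) - (Gf u P b - Gf u P a)‖ := by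
          rw [← this]
      _ ≤ _ := norm_sub_le _ _
  rw [norm_mul, norm_pow] at h2
  linarith

theorem Loc.big (h : Loc l s u P) : 9 / 10 * ‖l‖ ^ 2 ≤ ‖l‖ ^ 2 - 16 * ‖l‖ := by
  nlinarith [h.hN]

/-- existence, in a closed subset of the disc stable under the iteration -/
theorem Loc.exi (h : Loc l s u P) {z : ℂ} (hz : ‖z‖ < 2) {S : Set ℂ} (hS : IsClosed S) (h0 : (0 : ℂ) ∈ S)
    (hm : ∀ a ∈ S, ‖a‖ ≤ 3 / ‖l‖ → a + (Gf u P a - z) / l ^ 2 ∈ S) :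
    ∃ a ∈ S, ‖a‖ ≤ 2 / ‖l‖ ∧ Gf u P a = z := by
  have hN := h.hN
  have hp := h.pos
  have hl0 := h.l0
  set Φ : ℂ → ℂ := fun a => a + (Gf u P a - z) / l ^ 2 with hΦ
  have hr3 : 3 / ‖l‖ ≤ 10 / ‖l‖ := by gcongr; norm_num
  have h0' : ‖(0 : ℂ)‖ ≤ 10 / ‖l‖ := by rw [norm_zero]; positivity
  have hcon : ∀ a b : ℂ, ‖a‖ ≤ 10 / ‖l‖ → ‖b‖ ≤ 10 / ‖l‖ → ‖Φ b - Φ a‖ ≤ 16 / ‖l‖ * ‖b - a‖ := by
    intro a b ha hb
    have e : Φ b - Φ a = (Gf u P b - Gf u P a + l ^ 2 * (b - a)) / l ^ 2 := by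
      simp only [hΦ]; field_simp; ring
    rw [e, norm_div, norm_pow, div_le_iff₀ (by positivity)]
    refine (h.lin ha hb).trans (le_of_eq ?_)
    field_simp
  have hΦ0 : ‖Φ 0‖ ≤ (12 / 10) / ‖l‖ := by
    have e : Φ 0 = (2 * u 0 * P 0 - z) / l ^ 2 := by
      simp only [hΦ, Gf, Wf, Yf]; ring
    have h02 : (0 : ℂ) ∈ ball (0 : ℂ) 2 := by simp
    have hsl : ‖(s : ℂ) * l‖ = ‖l‖ := by rw [norm_mul, h.sn, one_mul]
    have hP : ‖P 0‖ ≤ ‖l‖ / 2 + 3 := by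
      have : P 0 = (P 0 - s * l / 2) + s * l / 2 := by ring
      calc ‖P 0‖ = ‖(P 0 - s * l / 2) + s * l / 2‖ := by rw [← this]
        _ ≤ ‖P 0 - s * l / 2‖ + ‖(s : ℂ) * l / 2‖ := norm_add_le _ _
        _ ≤ 3 + ‖l‖ / 2 := by
          rw [norm_div, hsl]; simp only [Complex.norm_ofNat]
          linarith [h.Pb 0 h02]
        _ = _ := by ring
    have hu := h.ub 0 h02
    rw [e, norm_div, norm_pow, div_le_div_iff₀ (by positivity) hp]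
    have h3 : ‖2 * u 0 * P 0 - z‖ ≤ 2 * (11 / 10) * (‖l‖ / 2 + 3) + 2 := by
      calc _ ≤ ‖2 * u 0 * P 0‖ + ‖z‖ := norm_sub_le _ _
        _ = 2 * ‖u 0‖ * ‖P 0‖ + ‖z‖ := by rw [norm_mul, norm_mul]; simp
        _ ≤ _ := by gcongr
    nlinarith
  have hΦ3 : ∀ a : ℂ, ‖a‖ ≤ 3 / ‖l‖ → ‖Φ a‖ ≤ 2 / ‖l‖ := by
    intro a ha
    have h1 := hcon 0 a h0' (ha.trans hr3)
    rw [sub_zero] at h1
    have h2 : ‖Φ a‖ ≤ ‖Φ a - Φ 0‖ + ‖Φ 0‖ := by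
      calc ‖Φ a‖ = ‖(Φ a - Φ 0) + Φ 0‖ := by rw [sub_add_cancel]
        _ ≤ _ := norm_add_le _ _
    have h4 : 16 / ‖l‖ * ‖a‖ ≤ 16 / ‖l‖ * (3 / ‖l‖) := by gcongr
    have h5 : 16 / ‖l‖ * (3 / ‖l‖) + (12 / 10) / ‖l‖ ≤ 2 / ‖l‖ := by
      rw [div_mul_div_comm, div_add_div _ _ (by positivity) (by positivity),
        div_le_div_iff₀ (by positivity) (by positivity)]
      nlinarith [mul_pos hp hp, mul_pos (mul_pos hp hp) hp]
    linarith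
  set K : Set ℂ := S ∩ closedBall 0 (3 / ‖l‖) with hK
  have hKc : IsComplete K := (hS.inter isClosed_closedBall).isComplete
  have hmaps : MapsTo Φ K K := by
    rintro a ⟨ha, hb⟩
    rw [mem_closedBall_zero_iff] at hb
    refine ⟨hm a ha hb, ?_⟩
    rw [mem_closedBall_zero_iff]
    refine (hΦ3 a hb).trans ?_
    gcongr; norm_num
  have hctr : ContractingWith (1 / 2) (hmaps.restrict Φ K K) := by
    refine ⟨by
      rw [← NNReal.coe_lt_coe]; norm_num, LipschitzWith.of_dist_le_mul ?_⟩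
    rintro ⟨a, ha⟩ ⟨b, hb⟩
    simp only [Subtype.dist_eq, MapsTo.val_restrict_apply]
    rw [dist_eq_norm, dist_eq_norm]
    have ha' : ‖a‖ ≤ 3 / ‖l‖ := by simpa using ha.2
    have hb' : ‖b‖ ≤ 3 / ‖l‖ := by simpa using hb.2
    refine (hcon b a (hb'.trans hr3) (ha'.trans hr3)).trans ?_
    have : 16 / ‖l‖ ≤ 1 / 2 := by
      rw [div_le_div_iff₀ hp (by norm_num)]; linarith
    have h7 : ((1 / 2 : NNReal) : ℝ) = 1 / 2 := by norm_num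
    rw [h7]
    gcongr
  have h0K : (0 : ℂ) ∈ K := ⟨h0, by simp; positivity⟩
  obtain ⟨a, haK, hfix, -⟩ := ContractingWith.exists_fixedPoint' hKc hmaps hctr h0K (edist_ne_top _ _)
  have ha3 : ‖a‖ ≤ 3 / ‖l‖ := by simpa using haK.2
  refine ⟨a, haK.1, ?_, ?_⟩
  · have := hΦ3 a ha3
    rwa [hfix] at this
  · have h8 : a + (Gf u P a - z) / l ^ 2 = a := hfix
    have h9 : (Gf u P a - z) / l ^ 2 = 0 := by linear_combination h8
    rw [div_eq_zero_iff] at h9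
    rcases h9 with h9 | h9
    · linear_combination h9
    · exact absurd h9 (pow_ne_zero 2 hl0)

end

end Pool.Agent.Helper38.CV
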