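import Pool.Agent.Helper36.CV.StmtsK
import Pool.Agent.Helper38.CV.K2a

set_option autoImplicit false

namespace Pool.Agent.Helper38.CV

open Metric Set Filter Topology Pool.Agent.Helper36.CV

noncomputable section

theorem XX_real (l x : ℝ) : ∀ n : ℕ, XX (l : ℂ) n (x : ℂ) = ((X l n x : ℝ) : ℂ)
  | 0 => by simp [XX, X]
  | 1 => by simp [XX, X]
  | 2 => by simp [XX, X]
  | (n + 3) => by
    rw [XX, X, XX_real l x (n + 2), XX_real l x (n + 1), XX_real l x n]
    push_cast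
    ring

theorem XX_im {l x : ℂ} (hl : l.im = 0) (hx : x.im = 0) (n : ℕ) : (XX l n x).im = 0 := by
  have h1 : ((l.re : ℝ) : ℂ) = l := Complex.ext (by simp) (by simp [hl])
  have h2 : ((x.re : ℝ) : ℂ) = x := Complex.ext (by simp) (by simp [hx])
  rw [← h1, ← h2, XX_real]
  exact Complex.ofReal_im _

theorem XX_inv (l x : ℂ) : ∀ k : ℕ, XX l k x ^ 2 + XX l (k + 1) x ^ 2 + XX l (k + 2) x ^ 2
    - 2 * XX l k x * XX l (k + 1) x * XX l (k + 2) x - 1 = l ^ 2 / 4
  | 0 => by simp only [XX]; ring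
  | (k + 1) => by
    have h := XX_inv l x k
    have e : XX l (k + 1 + 2) x = 2 * XX l (k + 2) x * XX l (k + 1) x - XX l k x := by
      show XX l (k + 3) x = _
      rw [XX]
    rw [e, show k + 1 + 1 = k + 2 from rfl]
    linear_combination h

theorem isOpen_Om2 (L0 : ℝ) : IsOpen (Om2 L0) := by
  apply IsOpen.inter
  · exact isOpen_lt continuous_const continuous_norm
  · exact isOpen_lt continuous_norm (continuous_const.mul Complex.continuous_re)

theorem isOpen_Dom (L0 : ℝ) : IsOpen (Dom L0) := by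
  apply IsOpen.inter
  · exact (isOpen_Om2 L0).preimage continuous_fst
  · exact isOpen_lt continuous_snd.norm continuous_const

theorem XX_diff {S : Set (ℂ × ℂ)} {f g : ℂ × ℂ → ℂ} (hf : DifferentiableOn ℂ f S)
    (hg : DifferentiableOn ℂ g S) : ∀ n : ℕ, DifferentiableOn ℂ (fun p => XX (f p) n (g p)) S
  | 0 => by simp only [XX]; exact differentiableOn_const _
  | 1 => by simp only [XX, div_eq_mul_inv]; exact hg.mul_const _
  | 2 => by simp only [XX, div_eq_mul_inv]; exact (hg.sub hf).mul_const _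
  | (n + 3) => by
    simp only [XX]
    exact ((((XX_diff hf hg (n + 2)).const_mul 2).mul (XX_diff hf hg (n + 1)))).sub (XX_diff hf hg n)

theorem sec_diff {L0 : ℝ} {F : ℂ → ℂ → ℂ} (hF : DifferentiableOn ℂ (fun p : ℂ × ℂ => F p.1 p.2) (Dom L0))
    {l : ℂ} (hl : l ∈ Om2 L0) : DifferentiableOn ℂ (F l) (ball 0 2) := by
  have h1 : DifferentiableOn ℂ (fun z : ℂ => ((l, z) : ℂ × ℂ)) (ball 0 2) :=
    (differentiableOn_const l).prodMk differentiableOn_id
  exact hF.comp h1 (fun z hz => ⟨hl, by simpa using hz⟩)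

variable {L0 : ℝ} {k : ℕ} {o s : ℝ} {u E : ℂ → ℂ → ℂ}

theorem nl (hL : 10000 ≤ L0) {l : ℂ} (hl : l ∈ Om2 L0) : 10000 ≤ ‖l‖ := hL.trans hl.1.le

theorem loc_of_pre (hL : 10000 ≤ L0) (h : Pre L0 k o s u E) {l : ℂ} (hl : l ∈ Om2 L0) :
    Loc l s (u l) (fun z => XX l (k + 1) (E l z)) := by
  have hd : ∀ z ∈ ball (0 : ℂ) 2, (l, z) ∈ Dom L0 := fun z hz => ⟨hl, by simpa using hz⟩
  refine ⟨h.ss, nl hL hl, sec_diff h.an_u hl, sec_diff (F := fun l z => XX l (k + 1) (E l z))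
    (XX_diff differentiableOn_fst h.an_E (k + 1)) hl, fun z hz => h.ub l z (hd z hz),
    fun z hz => h.du l z (hd z hz), fun z hz => h.t1 l z (hd z hz), fun z hz => ?_⟩
  have h1 := XX_inv l (E l z) k
  rw [h.t0 l z (hd z hz), h.t2 l z (hd z hz)] at h1
  linear_combination h1

theorem G_eq (h : Pre L0 k o s u E) {l z : ℂ} (hd : (l, z) ∈ Dom L0) :
    Yf (u l) (fun z => XX l (k + 1) (E l z)) z = XX l (k + 3) (E l z) ∧
    Wf (u l) (fun z => XX l (k + 1) (E l z)) z = XX l (k + 4) (E l z) ∧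
    Gf (u l) (fun z => XX l (k + 1) (E l z)) z = XX l (k + 5) (E l z) := by
  have h1 : Yf (u l) (fun z => XX l (k + 1) (E l z)) z = XX l (k + 3) (E l z) := by
    rw [Yf, XX, h.t0 l z hd, h.t2 l z hd]
  have h2 : Wf (u l) (fun z => XX l (k + 1) (E l z)) z = XX l (k + 4) (E l z) := by
    rw [Wf, h1, show XX l (k + 4) (E l z) = 2 * XX l (k + 3) (E l z) * XX l (k + 2) (E l z)
      - XX l (k + 1) (E l z) from by rw [show k + 4 = (k + 1) + 3 from rfl, XX], h.t2 l z hd]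
  refine ⟨h1, h2, ?_⟩
  rw [Gf, h1, h2, show XX l (k + 5) (E l z) = 2 * XX l (k + 4) (E l z) * XX l (k + 3) (E l z)
      - XX l (k + 2) (E l z) from by rw [show k + 5 = (k + 2) + 3 from rfl, XX], h.t2 l z hd]

end

end Pool.Agent.Helper38.CV
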