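import Pool.Agent.Helper38.CV.K2b

set_option autoImplicit false

namespace Pool.Agent.Helper38.CV

open Metric Set Filter Topology Pool.Agent.Helper36.CV

noncomputable section

/-- joint differentiability of an inverse branch -/
theorem branch_diff {H : ℂ × ℂ → ℂ} {ζ : ℂ × ℂ → ℂ} {p : ℂ × ℂ} {b : ℂ}
    (hH : DifferentiableAt ℂ H (p.1, ζ p)) (hb : HasDerivAt (fun w => H (p.1, w)) b (ζ p)) (hb0 : b ≠ 0)
    (hc : ContinuousAt ζ p) (he : ∀ᶠ q in 𝓝 p, H (q.1, ζ q) = q.2) : DifferentiableAt ℂ ζ p := by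
  set H' := fderiv ℂ H (p.1, ζ p) with hH'
  have h1 : HasFDerivAt H H' (p.1, ζ p) := hH.hasFDerivAt
  have h2 : H' (0, 1) = b := by
    have h3 : HasDerivAt (fun w : ℂ => ((p.1, w) : ℂ × ℂ)) ((0, 1) : ℂ × ℂ) (ζ p) :=
      (hasDerivAt_const _ _).prodMk (hasDerivAt_id _)
    exact (h1.comp_hasDerivAt (ζ p) h3).unique hb
  set a := H' (1, 0) with ha
  have h4 : ∀ v : ℂ × ℂ, H' v = a * v.1 + b * v.2 := by
    intro v
    have : v = v.1 • ((1, 0) : ℂ × ℂ) + v.2 • ((0, 1) : ℂ × ℂ) := by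
      ext <;> simp
    conv_lhs => rw [this]
    rw [map_add, map_smul, map_smul, h2, ← ha, smul_eq_mul, smul_eq_mul]
    ring
  let A : (ℂ × ℂ) →L[ℂ] (ℂ × ℂ) := (ContinuousLinearMap.fst ℂ ℂ ℂ).prod H'
  let B : (ℂ × ℂ) →L[ℂ] (ℂ × ℂ) := (ContinuousLinearMap.fst ℂ ℂ ℂ).prod
    (b⁻¹ • ContinuousLinearMap.snd ℂ ℂ ℂ - (b⁻¹ * a) • ContinuousLinearMap.fst ℂ ℂ ℂ)
  let e : (ℂ × ℂ) ≃L[ℂ] (ℂ × ℂ) := ContinuousLinearEquiv.equivOfInverse A B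
    (by
      intro v
      ext
      · simp [A, B]
      · simp only [A, B, ContinuousLinearMap.prod_apply, h4]
        simp
        field_simp
        ring)
    (by
      intro v
      ext
      · simp [A, B]
      · simp only [A, B, ContinuousLinearMap.prod_apply, h4]
        simp
        field_simp
        ring)
  have h5 : HasFDerivAt (fun q : ℂ × ℂ => ((q.1, H q) : ℂ × ℂ)) (e : (ℂ × ℂ) →L[ℂ] (ℂ × ℂ))
      ((p.1, ζ p) : ℂ × ℂ) := by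
    have : (e : (ℂ × ℂ) →L[ℂ] (ℂ × ℂ)) = A := by
      ext <;> rfl
    rw [this]
    exact hasFDerivAt_fst.prodMk h1
  have h6 : ContinuousAt (fun q : ℂ × ℂ => ((q.1, ζ q) : ℂ × ℂ)) p := continuousAt_fst.prodMk hc
  have h7 : HasFDerivAt (fun q : ℂ × ℂ => ((q.1, ζ q) : ℂ × ℂ)) (e.symm : (ℂ × ℂ) →L[ℂ] (ℂ × ℂ)) p := by
    refine HasFDerivAt.of_local_left_inverse (f := fun q : ℂ × ℂ => ((q.1, H q) : ℂ × ℂ)) h6 h5 ?_
    filter_upwards [he] with q hq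
    ext
    · rfl
    · exact hq
  exact h7.differentiableAt.snd

variable {L0 : ℝ} {k : ℕ} {o s : ℝ} {u E : ℂ → ℂ → ℂ}

theorem zeta_ex (hL : 10000 ≤ L0) (h : Pre L0 k o s u E) : ∃ ζ : ℂ → ℂ → ℂ,
    ∀ l z : ℂ, (l, z) ∈ Dom L0 → ‖ζ l z‖ ≤ 2 / ‖l‖ ∧ XX l (k + 5) (E l (ζ l z)) = z := by
  have : ∀ l z : ℂ, ∃ w : ℂ, (l, z) ∈ Dom L0 → ‖w‖ ≤ 2 / ‖l‖ ∧ XX l (k + 5) (E l w) = z := by
    intro l z
    by_cases hd : (l, z) ∈ Dom L0
    · have hloc := loc_of_pre hL h hd.1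
      obtain ⟨a, -, h1, h2⟩ := hloc.exi (z := z) hd.2 isClosed_univ (mem_univ _) (fun _ _ _ => mem_univ _)
      refine ⟨a, fun _ => ⟨h1, ?_⟩⟩
      have h3 : (l, a) ∈ Dom L0 := ⟨hd.1, by
        have := hloc.small (c := 2) (by norm_num)
        show ‖a‖ < 2
        linarith⟩
      rw [← (G_eq h h3).2.2]; exact h2
    · exact ⟨0, fun h => absurd h hd⟩
  choose ζ hζ using this
  exact ⟨ζ, hζ⟩

/-- the properties of the branch -/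
structure Br (L0 : ℝ) (k : ℕ) (o s : ℝ) (u E ζ : ℂ → ℂ → ℂ) : Prop where
  hL : 10000 ≤ L0
  pre : Pre L0 k o s u E
  z2 : ∀ l z : ℂ, (l, z) ∈ Dom L0 → ‖ζ l z‖ ≤ 2 / ‖l‖
  eq : ∀ l z : ℂ, (l, z) ∈ Dom L0 → XX l (k + 5) (E l (ζ l z)) = z

variable {ζ : ℂ → ℂ → ℂ}

theorem Br.loc (h : Br L0 k o s u E ζ) {l : ℂ} (hl : l ∈ Om2 L0) :
    Loc l s (u l) (fun z => XX l (k + 1) (E l z)) := loc_of_pre h.hL h.pre hl

theorem Br.dz (h : Br L0 k o s u E ζ) {l w : ℂ} (hl : l ∈ Om2 L0) (hw : ‖w‖ ≤ 10 / ‖l‖) :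
    (l, w) ∈ Dom L0 := ⟨hl, by
  have := (h.loc hl).small (c := 10) (by norm_num)
  show ‖w‖ < 2
  linarith⟩

theorem Br.w10 (h : Br L0 k o s u E ζ) {l z : ℂ} (hd : (l, z) ∈ Dom L0) : ‖ζ l z‖ ≤ 10 / ‖l‖ := by
  refine (h.z2 l z hd).trans ?_
  gcongr; norm_num

theorem Br.dd (h : Br L0 k o s u E ζ) {l z : ℂ} (hd : (l, z) ∈ Dom L0) : (l, ζ l z) ∈ Dom L0 :=
  h.dz hd.1 (h.w10 hd)

theorem Br.geq (h : Br L0 k o s u E ζ) {l z : ℂ} (hd : (l, z) ∈ Dom L0) :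
    Gf (u l) (fun z => XX l (k + 1) (E l z)) (ζ l z) = z := by
  rw [(G_eq h.pre (h.dd hd)).2.2]; exact h.eq l z hd

theorem Br.un (h : Br L0 k o s u E ζ) {l z z' : ℂ} (hd : (l, z) ∈ Dom L0) (hz' : ‖z'‖ ≤ 10 / ‖l‖)
    (he : XX l (k + 5) (E l z') = z) : z' = ζ l z := by
  have hloc := h.loc hd.1
  have h1 := hloc.inj' (h.w10 hd) hz'
  rw [h.geq hd, (G_eq h.pre (h.dz hd.1 hz')).2.2, he, sub_self, norm_zero] at h1
  have h2 := hloc.big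
  have h3 : 0 < 9 / 10 * ‖l‖ ^ 2 := by have := hloc.pos; positivity
  have h4 : ‖z' - ζ l z‖ ≤ 0 := by
    by_contra hcon
    push Not at hcon
    nlinarith
  exact sub_eq_zero.1 (norm_le_zero_iff.1 h4)

theorem Br.cont (h : Br L0 k o s u E ζ) {p : ℂ × ℂ} (hp : p ∈ Dom L0) :
    ContinuousAt (fun q : ℂ × ℂ => ζ q.1 q.2) p := by
  have hp0 : (p.1, p.2) ∈ Dom L0 := hp
  have hpos := (h.loc hp.1).pos
  have hw := h.z2 p.1 p.2 hp0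
  have hn : ∀ᶠ q in 𝓝 p, ‖q.1‖ < 5 * ‖p.1‖ := by
    have hc : ContinuousAt (fun q : ℂ × ℂ => ‖q.1‖) p := continuousAt_fst.norm
    exact hc.eventually (gt_mem_nhds (by linarith))
  have hD : ∀ᶠ q in 𝓝 p, q ∈ Dom L0 := (isOpen_Dom L0).mem_nhds hp
  have hdw : (p.1, ζ p.1 p.2) ∈ Dom L0 := h.dd hp0
  obtain ⟨Hf, hHf⟩ : ∃ Hf : ℂ × ℂ → ℂ, Hf = fun q : ℂ × ℂ => XX q.1 (k + 5) (E q.1 q.2) := ⟨_, rfl⟩
  have hHv : ∀ a b : ℂ, Hf (a, b) = XX a (k + 5) (E a b) := by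
    intro a b; rw [hHf]
  have hHc : ContinuousAt Hf (p.1, ζ p.1 p.2) := by
    rw [hHf]
    exact ((XX_diff differentiableOn_fst h.pre.an_E (k + 5)).differentiableAt
      ((isOpen_Dom L0).mem_nhds hdw)).continuousAt
  have hc2 : Tendsto (fun q : ℂ × ℂ => ((q.1, ζ p.1 p.2) : ℂ × ℂ)) (𝓝 p) (𝓝 (p.1, ζ p.1 p.2)) :=
    continuousAt_fst.prodMk continuousAt_const
  have hc3 : Tendsto (fun q : ℂ × ℂ => ‖q.2 - Hf (q.1, ζ p.1 p.2)‖) (𝓝 p) (𝓝 0) := by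
    have h1 : Tendsto (fun q : ℂ × ℂ => q.2 - Hf (q.1, ζ p.1 p.2)) (𝓝 p)
        (𝓝 (p.2 - Hf (p.1, ζ p.1 p.2))) :=
      (continuousAt_snd (p := p)).tendsto.sub (hHc.tendsto.comp hc2)
    rw [hHv, h.eq p.1 p.2 hp0, sub_self] at h1
    simpa using h1.norm
  rw [ContinuousAt, tendsto_iff_norm_sub_tendsto_zero]
  refine squeeze_zero' (Eventually.of_forall fun _ => norm_nonneg _) ?_ hc3
  filter_upwards [hn, hD] with q hq hqD
  have hqD' : (q.1, q.2) ∈ Dom L0 := hqD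
  have hloc := h.loc hqD.1
  have hw' : ‖ζ p.1 p.2‖ ≤ 10 / ‖q.1‖ := by
    refine hw.trans ?_
    rw [div_le_div_iff₀ hpos hloc.pos]
    linarith
  have h1 := hloc.inj' hw' (h.w10 hqD')
  rw [h.geq hqD', (G_eq h.pre (h.dz hqD.1 hw')).2.2, ← hHv] at h1
  have h2 := hloc.big
  have h3 : 1 ≤ ‖q.1‖ ^ 2 - 16 * ‖q.1‖ := by nlinarith [hloc.hN]
  calc ‖ζ q.1 q.2 - ζ p.1 p.2‖ = 1 * ‖ζ q.1 q.2 - ζ p.1 p.2‖ := by rw [one_mul]
    _ ≤ (‖q.1‖ ^ 2 - 16 * ‖q.1‖) * ‖ζ q.1 q.2 - ζ p.1 p.2‖ := by gcongr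
    _ ≤ _ := h1

theorem Br.Gd0 (h : Br L0 k o s u E ζ) {l w : ℂ} (hl : l ∈ Om2 L0) (hw : ‖w‖ ≤ 10 / ‖l‖) :
    9 / 10 * ‖l‖ ^ 2 ≤ ‖Gd (u l) (fun z => XX l (k + 1) (E l z)) w‖ := by
  have hloc := h.loc hl
  have h1 := hloc.Gdb hw
  have h2 := hloc.big
  set G := Gd (u l) (fun z => XX l (k + 1) (E l z)) w with hG
  have h3 : ‖l ^ 2‖ ≤ ‖G + l ^ 2‖ + ‖G‖ := by
    have : l ^ 2 = (G + l ^ 2) - G := by ring
    calc ‖l ^ 2‖ = ‖(G + l ^ 2) - G‖ := by rw [← this]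
      _ ≤ _ := norm_sub_le _ _
  rw [norm_pow] at h3
  linarith

theorem Br.Gdn (h : Br L0 k o s u E ζ) {l w : ℂ} (hl : l ∈ Om2 L0) (hw : ‖w‖ ≤ 10 / ‖l‖) :
    Gd (u l) (fun z => XX l (k + 1) (E l z)) w ≠ 0 := by
  have := h.Gd0 hl hw
  have hp := (h.loc hl).pos
  have h3 : 0 < 9 / 10 * ‖l‖ ^ 2 := by positivity
  exact norm_pos_iff.1 (by linarith)

theorem Br.hder (h : Br L0 k o s u E ζ) {l w : ℂ} (hl : l ∈ Om2 L0) (hw : ‖w‖ ≤ 10 / ‖l‖) :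
    HasDerivAt (fun z => XX l (k + 5) (E l z)) (Gd (u l) (fun z => XX l (k + 1) (E l z)) w) w := by
  have hw2 : ‖w‖ < 2 := (h.dz hl hw).2
  refine ((h.loc hl).hG hw2).congr_of_eventuallyEq ?_
  filter_upwards [isOpen_ball.mem_nhds (show w ∈ ball (0 : ℂ) 2 by simpa using hw2)] with z hz
  exact ((G_eq h.pre ⟨hl, by simpa using hz⟩).2.2).symm

theorem Br.diff (h : Br L0 k o s u E ζ) :
    DifferentiableOn ℂ (fun q : ℂ × ℂ => ζ q.1 q.2) (Dom L0) := by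
  intro p hp
  have hp0 : (p.1, p.2) ∈ Dom L0 := hp
  apply DifferentiableAt.differentiableWithinAt
  refine branch_diff (H := fun q : ℂ × ℂ => XX q.1 (k + 5) (E q.1 q.2)) ?_ (h.hder hp.1 (h.w10 hp0))
    (h.Gdn hp.1 (h.w10 hp0)) (h.cont hp) ?_
  · exact (XX_diff differentiableOn_fst h.pre.an_E (k + 5)).differentiableAt
      ((isOpen_Dom L0).mem_nhds (h.dd hp0))
  · filter_upwards [(isOpen_Dom L0).mem_nhds hp] with q hq
    exact h.eq q.1 q.2 hq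

theorem Br.hz (h : Br L0 k o s u E ζ) {l z : ℂ} (hd : (l, z) ∈ Dom L0) :
    HasDerivAt (ζ l) (Gd (u l) (fun z => XX l (k + 1) (E l z)) (ζ l z))⁻¹ z := by
  have hc : ContinuousAt (ζ l) z := by
    have h1 := (sec_diff h.diff hd.1).differentiableAt
      (isOpen_ball.mem_nhds (show z ∈ ball (0 : ℂ) 2 by simpa using hd.2))
    exact h1.continuousAt
  refine HasDerivAt.of_local_left_inverse (f := fun z => XX l (k + 5) (E l z)) hc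
    (h.hder hd.1 (h.w10 hd)) (h.Gdn hd.1 (h.w10 hd)) ?_
  filter_upwards [isOpen_ball.mem_nhds (show z ∈ ball (0 : ℂ) 2 by simpa using hd.2)] with w hw
  exact h.eq l w ⟨hd.1, by simpa using hw⟩

theorem Br.real (h : Br L0 k o s u E ζ) {l z : ℝ} (hd : ((l : ℂ), (z : ℂ)) ∈ Dom L0) :
    (ζ l z).im = 0 := by
  have hloc := h.loc hd.1
  have hS : IsClosed {w : ℂ | w.im = 0} := isClosed_eq Complex.continuous_im continuous_const
  obtain ⟨a, ha0, ha1, ha2⟩ := hloc.exi (z := (z : ℂ)) hd.2 hS (by simp) (by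
    intro a ha hb
    have hb' : ‖a‖ ≤ 10 / ‖(l : ℂ)‖ := hb.trans (by gcongr; norm_num)
    have hda := h.dz hd.1 hb'
    rw [(G_eq h.pre hda).2.2]
    have ha' : ((a.re : ℝ) : ℂ) = a := Complex.ext (by simp) (by simpa using ha.symm)
    have hE : (E l a).im = 0 := by
      have := h.pre.re_E l a.re (by rw [ha']; exact hda)
      rwa [ha'] at this
    have hX := XX_im (Complex.ofReal_im l) hE (k + 5)
    show (a + (XX l (k + 5) (E l a) - z) / (l : ℂ) ^ 2).im = 0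
    have e1 : ((XX (l : ℂ) (k + 5) (E l a)).re : ℂ) = XX (l : ℂ) (k + 5) (E l a) :=
      Complex.ext (by simp) (by simpa using hX.symm)
    rw [← e1, ← ha', ← Complex.ofReal_sub, ← Complex.ofReal_pow, ← Complex.ofReal_div,
      ← Complex.ofReal_add]
    exact Complex.ofReal_im _)
  have ha10 : ‖a‖ ≤ 10 / ‖(l : ℂ)‖ := ha1.trans (by gcongr; norm_num)
  have h3 := h.un hd ha10 (by rw [← (G_eq h.pre (h.dz hd.1 ha10)).2.2]; exact ha2)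
  rw [← h3]; exact ha0

end

end Pool.Agent.Helper38.CV
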