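import Pool.Agent.Helper38.CV.R17d

set_option autoImplicit false

namespace Pool.Agent.Helper38.CV.R17

open Pool.Agent.Helper36.CV
open MeasureTheory Set

theorem st_R17 (hP1 : ST_P1) (hP2 : ST_P2) (hR0 : ST_R0) (hR2 : ST_R2) (hR3 : ST_R3)
    (hR4 : ST_R4) (hR5 : ST_R5) (hR11 : ST_R11) (hR14 : ST_R14) (hR15 : ST_R15) (hR16 : ST_R16)
    (hN0 : ST_N0) : ST_R17 := by
  intro cK hcK
  obtain ⟨e0, he0, H0⟩ := hR0
  obtain ⟨e2, he2, H2⟩ := hR2 cK hcK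
  obtain ⟨e3, he3, H3⟩ := hR3 cK hcK
  obtain ⟨K4, e4, hK4, he4, H4⟩ := hR4
  obtain ⟨e5, he5, H5⟩ := hR5
  obtain ⟨e11, he11, H11⟩ := hR11 cK hcK
  obtain ⟨K14, e14, hK14, he14, H14⟩ := hR14 cK hcK
  obtain ⟨e15, he15, H15⟩ := hR15 cK hcK
  obtain ⟨e16, he16, H16⟩ := hR16 cK hcK
  have hc0 : 0 < (1 / (1000 * K4 * cK)) ^ 300 := by
    have h1 : 0 < K4 := by linarith
    have h2 : 0 < cK := by linarith
    positivity
  refine ⟨min (min (min e0 e2) (min e3 e4)) (min (min (min e5 e11) (min e14 e15))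
    (min e16 ((1 / (1000 * K4 * cK)) ^ 300))), by positivity, ?_⟩
  intro ε Hm Hp C cd hPar hεle x ρ D τ0 l r l0 r0 l1 r1 l2 r2 k0 s0 k1 s1 k2 s2 V0 VL VR P0 cc
    hCI G hG
  simp only [le_min_iff] at hεle
  obtain ⟨⟨⟨hl0, hl2⟩, hl3, hl4⟩, ⟨⟨hl5, hl11⟩, hl14, hl15⟩, hl16, hlc⟩ := hεle
  have hε : 0 < ε := hPar.1
  have S := r17_sm ε cK K4 hε hcK hK4 hlc
  clear hlc hc0 he0 he2 he3 he4 he5 he11 he14 he15 he16
  -- geometry
  obtain ⟨hc1, hx, hρ, hpair, hlaw⟩ := hCI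
  have hCI : CI cd ε cK x ρ D τ0 l r l0 r0 l1 r1 l2 r2 k0 s0 k1 s1 k2 s2 V0 VL VR P0 cc :=
    ⟨hc1, hx, hρ, hpair, hlaw⟩
  have hkids := hpair.kids
  have hρ0 : 0 < ρ := by rw [hρ]; linarith only [hkids.lt]
  have hP1' := hP1 Hm Hp C cd
  have hP2' := hP2 Hm Hp C cd hPar.2.1
  obtain ⟨hLR, hJ4, hp12, -, -, hJε⟩ := H2 ε Hm Hp C cd hPar hl2 _ _ _ _ _ _ _ _ _ _ _ hpair
  obtain ⟨-, hReg, hVLs, hVRs, hVLc, hVRc⟩ := H3 ε Hm Hp C cd hPar hl3 _ _ _ _ _ _ _ _ _ _ _ hpair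
  rw [← hx, ← hρ] at hJ4 hp12 hJε hReg
  rw [← hρ] at hVLs hVRs hVLc hVRc
  obtain ⟨hunit, -, -, -, -⟩ := H14 ε Hm Hp C cd hPar hl14 _ _ _ _ _ _ _ _ _ _ _ _ _ _ _ _ _ _ _ _ _ _ _ hCI
  obtain ⟨y, hy, H15y⟩ := H15 ε Hm Hp C cd hPar hl15 _ _ _ _ _ _ _ _ _ _ _ _ _ _ _ _ _ _ _ _ _ _ _ hCI
  have H16' := H16 ε Hm Hp C cd hPar hl16 _ _ _ _ _ _ _ _ _ _ _ _ _ _ _ _ _ _ _ _ _ _ _ hCI G hG
  obtain ⟨hD77, -⟩ := H11 ε Hm Hp C cd hPar hl11 _ _ _ _ _ _ _ _ _ _ _ _ _ _ _ _ hc1 x ρ D hx hρ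
    hlaw.dD
  obtain ⟨J, hJ⟩ : ∃ J : ℝ, J = Yf cd x ρ := ⟨_, rfl⟩
  have hJ0 : 0 < J := by rw [hJ]; exact (hP1'.2.2.1 x ρ ρ hρ0 le_rfl).1
  obtain ⟨p, hp⟩ : ∃ p : ℝ, p = VR.N - VL.N := ⟨_, rfl⟩
  have hJ4' := hJ4
  rw [← hJ, ← hp] at hJ4 hp12
  rw [← hJ] at hJε
  rw [← hp] at hJ4'
  have hp0 : 0 < p := by linarith only [hJ4, hJ0]
  obtain ⟨z, hz1, hu1, hβ1, hprod, hconj⟩ := r17_conj hN0 cd V0 VL VR G y hunit hy p hp hp0
  refine ⟨y, z, ?_⟩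
  intro u t α hu ht hα
  obtain ⟨w, hw⟩ : ∃ w : ℝ, w = ρ / (2 * ε * (x - V0.c)) := ⟨_, rfl⟩
  obtain ⟨hQ, ht207, hu52, hw87, hw115, hw1, hDu, huD, hmu⟩ := H15y u t w hu ht hw
  have hup : u * p = VL.N + VR.N - 2 * V0.N := by rw [hu]; exact hu1
  have hαp : α * p = G.N - V0.N := by rw [hα]; linarith only [hz1]
  obtain ⟨hmain, hGs1, hGs2, hGc, hGmu⟩ := H16' u t w p α hp hup ht hw hαp
  rw [← hp] at hmu
  clear H15y H16' H14 H15 H16 H11 H2 H3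
  have hGs0 : 0 < G.s := by
    have : G.s = G.b - G.a := rfl
    rw [this]; linarith only [G.lt]
  have hGa : G.a = G.c - G.s / 2 := by
    simp only [Gap.c, Gap.s]; ring
  have h59 : ε ^ (59 / 100 : ℝ) * ρ ≤ 1 / 10 ^ 9 * ρ := mul_le_mul_of_nonneg_right S.a59 hρ0.le
  have h50 : ε ^ (1 / 2 : ℝ) * ρ ≤ 1 / 10 ^ 9 * ρ := mul_le_mul_of_nonneg_right S.a50 hρ0.le
  have hGc' := abs_le.mp hGc
  have hGx : |G.c - x| ≤ 3 / 10 * ρ := by linarith only [hGc, h50, hρ0]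
  -- positivity of α
  have hαpos : 0 < α := by
    have h1 : V0.a < G.a := by
      have h2 : V0.b = x - D := by linarith only [hlaw.dD]
      have h3 := V0.lt
      rw [hGa]
      linarith only [hGc'.1, h2, h3, h59, h50, hGs2, hD77, hρ0]
    have h4 := (hP2'.2.2.2.2.1 V0 G h1).2
    have h5 : 0 < α * p := by rw [hαp]; linarith only [h4]
    by_contra hcon
    push Not at hcon
    have := mul_nonpos_of_nonpos_of_nonneg hcon hp0.le
    linarith only [this, h5]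
  refine ⟨hu52, hαpos, ht207, hQ, ?_⟩
  obtain ⟨B, hBdef⟩ : ∃ B : ℝ, B = |2 * zc z - (1 + 2 * zc y)| := ⟨_, rfl⟩
  obtain ⟨χ, hχdef⟩ : ∃ χ : ℝ, χ = G.s / (2 * ε * ρ) := ⟨_, rfl⟩
  obtain ⟨δ, hδdef⟩ : ∃ δ : ℝ, δ = |G.c - (k1 + s1) / 2| / (ε * ρ) := ⟨_, rfl⟩
  obtain ⟨ν, hνdef⟩ : ∃ ν : ℝ, ν = nn x ρ G / p := ⟨_, rfl⟩
  obtain ⟨R, hRdef⟩ : ∃ R : ℝ, R = (D + 3 / 5 * ρ) / (D - ρ) := ⟨_, rfl⟩
  rw [← hBdef] at hprod hconj
  have hν0 : 0 ≤ ν := by rw [hνdef]; exact div_nonneg (r17_nn0 cd x ρ G) hp0.le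
  have hδ0 : 0 ≤ δ := by rw [hδdef]; positivity
  have hχ0 : 0 < χ := by rw [hχdef]; positivity
  -- the middle child
  have hn1 := hkids.n1
  rw [← hρ] at hn1
  have hks : k1 < s1 := by
    have := (r17_mid ε cK ρ k1 s1 hε hρ0 S.ecK hn1).2.2
    linarith only [this]
  have H0G := (H0 ε G.a G.b k1 s1 hε hl0 G.lt hks).2 hG
  have hGsdef : G.b - G.a = G.s := rfl
  have hGcdef : (G.a + G.b) / 2 = G.c := rfl
  rw [hGsdef, hGcdef] at H0G
  have hpos := r17_pos ε cK ρ G.c G.s k1 s1 hε hρ0 S.ecK hn1 H0G.2.2.2.2.2 hGs0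
  rw [← hδdef, ← hχdef] at hpos
  have hδχ := r17_pos2 δ χ (1 / 10 ^ 5) hδ0 hχ0 (by norm_num) hpos
  have hχlow : 2 * ε * (1 - 1 / 10 ^ 5) ≤ χ := by
    rw [hχdef]
    exact r17_low ε cK ρ G.s k1 s1 hε S.e1 hρ0 S.ecK hn1 H0G.1
  have hεδ : ε * δ ≤ 1 / 10 ^ 4 := by
    have h1 : ε * χ ≤ 1 / 10 ^ 9 := by
      have : ε * χ = G.s / (2 * ρ) := by rw [hχdef]; field_simp
      rw [this, div_le_iff₀ (by positivity)]
      linarith only [hGs2, h59, hρ0]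
    have h2 : ε * δ ≤ ε * (2 * χ + 1) := mul_le_mul_of_nonneg_left hδχ hε.le
    linarith only [h1, h2, S.e1]
  have hεδρ : |G.c - (k1 + s1) / 2| / ρ = ε * δ := by
    rw [hδdef]; field_simp
  -- crude bound for ν
  have h3ε : 3 * ε ^ 2 * ρ ≤ G.s := by
    have : 0 < ε ^ 2 * ρ := by positivity
    linarith only [this, hGs1]
  have hν4 : ν ≤ 1 / 10 ^ 4 := by
    rw [hνdef]
    refine r17_crudenn ε K4 ρ G.s J p (nn x ρ G) hε hGs0 hJ0 hp0 hJ4 hGs1 S.aKp S.aK ?_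
    rw [hJ]
    exact H4 ε Hm Hp C cd hPar hl4 x ρ G hρ0 hReg (by linarith only [hGx, hρ0]) h3ε hGs2
  have hp4 : p ≤ 1 / 10 ^ 4 := by
    have := S.e3
    linarith only [hp12, hJε, this]
  have hpsq : p ^ 2 ≤ 1 / 100 := by nlinarith only [hp4, hp0]
  have hmu' : |VL.mu + VR.mu| * p ≤ 24 / 100 := hmu
  have key : 15 ≤ u → MS ε u t w (2 * α - u) B χ δ ν R (ε ^ (1 / 10 : ℝ)) (ε ^ (12 / 100 : ℝ))
      (1 / 10 ^ 5) := by
    intro hu15
    obtain ⟨hR0, hR1⟩ := r17_R ρ D u (ε ^ (1 / 10 : ℝ)) hρ0 hD77 S.a10 huD hu15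
    rw [← hRdef] at hR0 hR1
    have hmain' : |2 * u * (2 * α - u) + (2 * α - u) ^ 2 - 1 - t * (3 - w)| ≤
        ε ^ (12 / 100 : ℝ) * t + 401 / 100 * t * δ + 3 / 2 * R * u * ν := by
      have e1 : 2 * u * (2 * α - u) + (2 * α - u) ^ 2 - 1 - t * (3 - w) =
        4 * α ^ 2 - u ^ 2 - 1 - t * (3 - w) := by ring
      rw [e1]
      refine le_trans hmain (le_of_eq ?_)
      have e2 : 401 / 100 * u * |G.c - (k1 + s1) / 2| / ρ =
          401 / 100 * u * (|G.c - (k1 + s1) / 2| / ρ) := by ring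
      have e3 : 3 / 2 * ((D + 3 / 5 * ρ) / (D - ρ)) * u * nn x ρ G / p = 3 / 2 * R * u * ν := by
        rw [hRdef, hνdef]; ring
      rw [e2, e3, hεδρ, ht]
      ring
    have hβu : -u < 2 * α - u := by linarith only [hαpos]
    have hb25 : |2 * α - u| ≤ 1 / 25 :=
      r17_crude ε u t w (2 * α - u) δ ν R (ε ^ (12 / 100 : ℝ)) hε S.e1 hu15 ht ht207 hβu hmain' hw87
        hw115 hν0 hν4 hεδ hR1 (by linarith only [S.a12])
    -- the sharp bound for nn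
    have hNfL : Nf cd VL.c = VL.N := by
      have := VL.lt
      rw [VL.lab VL.c ⟨by simp only [Gap.c]; linarith only [this],
        by simp only [Gap.c]; linarith only [this]⟩]
      rfl
    have hNfR : Nf cd VR.c = VR.N := by
      have := VR.lt
      rw [VR.lab VR.c ⟨by simp only [Gap.c]; linarith only [this],
        by simp only [Gap.c]; linarith only [this]⟩]
      rfl
    have hn0 := hkids.n0
    have hn2 := hkids.n2
    rw [← hρ] at hn0 hn2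
    obtain ⟨hL1, hL2, hR1', hR2⟩ := r17_geo ε cK x ρ l2 r2 k0 s0 k2 s2 VL.c VR.c
      (ε ^ (1 / 3 : ℝ)) hε S.e1 hρ0 S.ecK hx hρ hkids.e0 hkids.e2 hn0 hn2 S.a33 hVLc hVRc
    have hp52 : p ≤ 12 * Yf cd G.c (52 / 100 * ρ) := by
      have h1 := hP1'.2.2.2.2.2 G.c (52 / 100 * ρ) VR.c VL.c (by positivity)
        (abs_le.mpr ⟨by linarith only [hGc'.2, h50, hρ0, hR2], by linarith only [hGc'.1, h50, hρ0, hR1']⟩)
        (abs_le.mpr ⟨by linarith only [hGc'.2, h50, hρ0, hL2], by linarith only [hGc'.1, h50, hρ0, hL1]⟩)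
      rw [hNfR, hNfL, ← hp] at h1
      exact le_trans (le_abs_self _) h1
    have hβG : 2 * (G.N - (VL.N + VR.N) / 2) / p = 2 * α - u := by
      rw [div_eq_iff hp0.ne']
      have h1 : (2 * α - u) * p = 2 * (α * p) - u * p := by ring
      rw [h1, hαp, hup]
      ring
    have hVLb : VL.b ≤ x - 48 / 100 * ρ := by
      have : VL.b = VL.c + VL.s / 2 := by simp only [Gap.c, Gap.s]; ring
      linarith only [this, hL1, hVLs, h59, hρ0]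
    have hVRa : x + 48 / 100 * ρ ≤ VR.a := by
      have : VR.a = VR.c - VR.s / 2 := by simp only [Gap.c, Gap.s]; ring
      linarith only [this, hR2, hVRs, h59, hρ0]
    have hg1 : G.c ≤ x + 1 / 10 * ρ := by linarith only [hGc'.2, h50, hρ0]
    have hg2 : x - 1 / 10 * ρ ≤ G.c := by linarith only [hGc'.1, h50, hρ0]
    have hnnG := H5 ε Hm Hp C cd hPar hl5 x ρ p ((VL.N + VR.N) / 2) G hρ0 hReg hp0 hp4 hJ4' hp52 hGx
      hGs1 hGs2 (by rw [hβG]; exact hb25)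
      (fun W hW => r17_between hN0 cd hP2'.2.2.2.2.1 hP2'.2.2.2.2.2.1 V0 VL VR W y hunit hy p hp hp0
        hpsq hmu' x ρ G.c hρ0 hg1 hg2 hVLb hVRa hW)
    rw [hβG, S.a11] at hnnG
    have hν1 : ν ≤ 60 * ε * (2 * α - u) ^ 2 + ε * ε ^ (1 / 10 : ℝ) := by
      rw [hνdef, div_le_iff₀ hp0]
      linarith only [hnnG]
    have hβz : 2 * α - u = 2 * zv z - (1 + 2 * zv y) := by rw [hα, hu]
    have hB1 : B ≤ (1 + 2 / u ^ 2 + ε ^ (1 / 10 : ℝ) + 4 * ν) / (2 * χ) + 1 / 4 := by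
      rw [← hβz] at hconj
      refine r17_B ε ρ u ν G.s χ p |G.mu| B (2 * α - u) |VL.mu + VR.mu| (ε ^ (1 / 10 : ℝ)) hGs0 hε hρ0
        hχdef hpsq (by linarith only [hb25]) hmu' hconj ?_
      have e2 : 4 * nn x ρ G / p = 4 * ν := by rw [hνdef]; ring
      rw [e2] at hGmu
      exact hGmu
    rw [← hβz] at hprod
    exact { ε0 := hε, ε1 := S.e1, u15 := hu15, ht := ht, t1 := ht207, βu := hβu,
            main := hmain', w1 := hw87, w2 := hw115, ν0 := hν0, ν1 := hν1, δ0 := hδ0, R0 := hR0,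
            R1 := hR1, e12p := S.a12p.le, e12s := by linarith only [S.a12],
            e10p := S.a10p.le, e10s := by linarith only [S.a10], b25 := hb25,
            prod := hprod, hB := hB1, χ0 := hχ0, pos := hpos,
            τp := by norm_num, τs := le_rfl }
  clear H0 H4 H5 hReg hJ4' hpos hconj hprod hmain
  constructor
  · intro hbig
    obtain ⟨h8000, hu6⟩ := S.big u hbig
    have hms := key (by linarith only [hu6])
    obtain ⟨hA, hB'⟩ := hms.large h8000 hu6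
    refine ⟨?_, hA, hB'⟩
    rw [← hBdef]
    have hu0 : 0 < u := by linarith only [hu6]
    have h2 : 2 / u ^ 2 ≤ 2 / 10 ^ 12 := by
      apply div_le_div_of_nonneg_left (by norm_num) (by norm_num)
      have := pow_le_pow_left₀ (by norm_num) hu6 2
      norm_num at this ⊢
      exact this
    have h2p : 0 ≤ 2 / u ^ 2 := by positivity
    have h10p := S.a10p
    have h3 := r17_εB ε χ B (1 + 2 / u ^ 2 + ε ^ (1 / 10 : ℝ) + 4 * ν) hε S.e1 hχlow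
      (by linarith only [h2p, h10p, hν0]) hms.hB
    have h4 := hms.ν2
    have h5 := S.a10
    have h6 : (1 + 2 / u ^ 2 + ε ^ (1 / 10 : ℝ) + 4 * ν) / 4 * (1 + 2 / 10 ^ 5) ≤
        (1 + 2 / 10 ^ 12 + 1 / 10 ^ 9 + 4 * (1 / 10 ^ 9)) / 4 * (1 + 2 / 10 ^ 5) :=
      mul_le_mul_of_nonneg_right (by linarith only [h2, h4, h5]) (by norm_num)
    norm_num at h6 h3 ⊢
    linarith only [h6, h3]
  · intro hu15 husmall
    have hms := key hu15
    have hu0 : 0 < u := by linarith only [hu15]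
    obtain ⟨ht5, ht05⟩ := S.sml u hu0 husmall
    rw [← ht] at ht5 ht05
    have hfinal := hms.small ht5 (ε ^ (1 / 20 : ℝ)) (ε ^ (65 / 100 : ℝ)) S.a12s S.a10s
      S.a65s ht05 hw1
    constructor
    · have h3 := r17_conju hN0 y u t hu hu15 hQ ht5
      have h2p : 0 ≤ 2 / u ^ 2 := by positivity
      have h10p := S.a10p
      have h5 := r17_εB ε χ B (1 + 2 / u ^ 2 + ε ^ (1 / 10 : ℝ) + 4 * ν) hε S.e1 hχlow
        (by linarith only [h2p, h10p, hν0]) hms.hB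
      exact r17_last ε (zc z) (1 + 2 * zc y) _ B _ hε S.e1 rfl h3 hBdef
        (by have h6 := hms.ν2; have h7 := S.a10; have h8 := hms.u2; linarith only [h6, h7, h8]) h5
    · have e1 : 4 * α ^ 2 - u ^ 2 - 1 - 2 * t = 2 * u * (2 * α - u) + (2 * α - u) ^ 2 - 1 - 2 * t := by
        ring
      rw [e1]
      exact hfinal

end Pool.Agent.Helper38.CV.R17
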