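import Pool.Agent.Helper36.CV.StmtsR

set_option autoImplicit false

namespace Pool.Agent.Helper38.CV.R17

open Pool.Agent.Helper36.CV

/-- algebraic part: the conjugate of `β` -/
theorem r17_conj (hN0 : ST_N0) {Hm Hp : ℝ} {C : Set ℝ} (cd : CD Hm Hp C) (V0 VL VR W : Gap cd)
    (y : ℤ × ℤ) (hP : |zn (VR.n - VL.n, VR.m - VL.m)| = 1)
    (hy : zm (VR.n - VL.n, VR.m - VL.m) y = (VL.n - V0.n, VL.m - V0.m))
    (p : ℝ) (hp : p = VR.N - VL.N) (hp0 : 0 < p) :
    ∃ z : ℤ × ℤ, p * zv z = W.N - V0.N ∧ (1 + 2 * zv y) * p = VL.N + VR.N - 2 * V0.N ∧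
      p * (2 * zv z - (1 + 2 * zv y)) = 2 * W.N - VL.N - VR.N ∧
      1 ≤ |2 * zv z - (1 + 2 * zv y)| * |2 * zc z - (1 + 2 * zc y)| ∧
      |2 * zc z - (1 + 2 * zc y)| ≤
        p ^ 2 * |2 * zv z - (1 + 2 * zv y)| + 2 * p * |W.mu| + p * |VL.mu + VR.mu| := by
  obtain ⟨hmul, hzz, hn0, -, hsurj, hV, -⟩ := hN0
  obtain ⟨z, hz⟩ := hsurj _ hP (W.n - V0.n, W.m - V0.m)
  have hsub : ∀ a b : Gap cd, zv (a.n - b.n, a.m - b.m) = a.N - b.N := by
    intro a b
    rw [(hV cd a).1, (hV cd b).1]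
    simp only [zv]
    push_cast
    ring
  have hsubc : ∀ a b : Gap cd, zc (a.n - b.n, a.m - b.m) = (a.N - a.mu) - (b.N - b.mu) := by
    intro a b
    rw [(hV cd a).2, (hV cd b).2]
    simp only [zc]
    push_cast
    ring
  set P : ℤ × ℤ := (VR.n - VL.n, VR.m - VL.m) with hPdef
  have hPv : zv P = p := by rw [hPdef, hsub, hp]
  have hPc : zc P = (VR.N - VR.mu) - (VL.N - VL.mu) := by rw [hPdef, hsubc]
  have h1 : p * zv z = W.N - V0.N := by
    rw [← hPv, ← (hmul P z).1, hz, hsub]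
  have h2 : p * zv y = VL.N - V0.N := by
    rw [← hPv, ← (hmul P y).1, hy, hsub]
  have h1c : zc P * zc z = (W.N - W.mu) - (V0.N - V0.mu) := by
    rw [← (hmul P z).2.1, hz, hsubc]
  have h2c : zc P * zc y = (VL.N - VL.mu) - (V0.N - V0.mu) := by
    rw [← (hmul P y).2.1, hy, hsubc]
  have h3 : p * (2 * zv z - (1 + 2 * zv y)) = 2 * W.N - VL.N - VR.N := by
    linear_combination 2 * h1 - 2 * h2 - hp
  refine ⟨z, h1, ?_, h3, ?_, ?_⟩
  · linear_combination 2 * h2 + hp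
  · set B : ℤ × ℤ := (2 * z.1 - 1 - 2 * y.1, 2 * z.2 - 2 * y.2) with hB
    have hBv : 2 * zv z - (1 + 2 * zv y) = zv B := by
      rw [hB]; simp only [zv]; push_cast; ring
    have hBc : 2 * zc z - (1 + 2 * zc y) = zc B := by
      rw [hB]; simp only [zc]; push_cast; ring
    rw [hBv, hBc, ← abs_mul, hzz]
    have hB0 : zn B ≠ 0 := by
      intro h
      have h4 := hn0 B h
      rw [hB] at h4
      have h5 : 2 * z.1 - 1 - 2 * y.1 = 0 := congrArg Prod.fst h4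
      omega
    have h6 : (1 : ℤ) ≤ |zn B| := Int.one_le_abs hB0
    rw [← Int.cast_abs]
    exact_mod_cast h6
  · have hpp : |p * zc P| = 1 := by
      rw [← hPv, hzz, ← Int.cast_abs, hP]
      norm_num
    have h7 : zc P * (2 * zc z - (1 + 2 * zc y)) =
        p * (2 * zv z - (1 + 2 * zv y)) - 2 * W.mu + (VL.mu + VR.mu) := by
      rw [h3]
      linear_combination 2 * h1c - 2 * h2c - hPc
    have h8 : |2 * zc z - (1 + 2 * zc y)| = p * |zc P * (2 * zc z - (1 + 2 * zc y))| := by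
      rw [abs_mul (zc P), ← mul_assoc]
      rw [abs_mul, abs_of_pos hp0] at hpp
      rw [hpp, one_mul]
    rw [h8, h7]
    have h9 : |p * (2 * zv z - (1 + 2 * zv y)) - 2 * W.mu + (VL.mu + VR.mu)| ≤
        p * |2 * zv z - (1 + 2 * zv y)| + 2 * |W.mu| + |VL.mu + VR.mu| := by
      refine le_trans (abs_add_le _ _) ?_
      refine add_le_add ?_ le_rfl
      refine le_trans (abs_sub _ _) ?_
      rw [abs_mul, abs_mul, abs_of_pos hp0, abs_of_pos (by norm_num : (0 : ℝ) < 2)]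
    calc p * |p * (2 * zv z - (1 + 2 * zv y)) - 2 * W.mu + (VL.mu + VR.mu)| ≤
        p * (p * |2 * zv z - (1 + 2 * zv y)| + 2 * |W.mu| + |VL.mu + VR.mu|) :=
          mul_le_mul_of_nonneg_left h9 hp0.le
      _ = _ := by ring

end Pool.Agent.Helper38.CV.R17
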