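import Mathlib

set_option autoImplicit false

namespace Pool.Agent.Helper38.CV.R17

theorem r17_abs (u t w β E : ℝ) (hu : 0 < u) (hβ : -u < β) (ht0 : 0 ≤ t)
    (hmain : |2 * u * β + β ^ 2 - 1 - t * (3 - w)| ≤ E)
    (hw1 : 87 / 100 ≤ w) (hw2 : w ≤ 115 / 100) :
    |β| * (2 * u + β) ≤ 1 + 213 / 100 * t + E := by
  have h1 : |β| * (2 * u + β) = |2 * u * β + β ^ 2| := by
    have h2 : 0 < 2 * u + β := by linarith
    rw [show 2 * u * β + β ^ 2 = β * (2 * u + β) by ring, abs_mul, abs_of_pos h2]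
  rw [h1]
  have h3 : |2 * u * β + β ^ 2| ≤ |2 * u * β + β ^ 2 - 1 - t * (3 - w)| + |1 + t * (3 - w)| := by
    have := abs_add_le (2 * u * β + β ^ 2 - 1 - t * (3 - w)) (1 + t * (3 - w))
    have e : 2 * u * β + β ^ 2 - 1 - t * (3 - w) + (1 + t * (3 - w)) = 2 * u * β + β ^ 2 := by ring
    rwa [e] at this
  have h4 : |1 + t * (3 - w)| ≤ 1 + 213 / 100 * t := by
    have h6 : 0 ≤ t * (3 - w) := mul_nonneg ht0 (by linarith)
    rw [abs_of_nonneg (by linarith)]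
    nlinarith
  linarith

/-- crude bound for `β` -/
theorem r17_crude (ε u t w β δ ν R e12 : ℝ) (hε : 0 < ε) (hε1 : ε ≤ 1 / 10 ^ 9) (hu : 15 ≤ u)
    (ht : t = ε * u) (ht1 : t ≤ 207 / 1000) (hβ : -u < β)
    (hmain : |2 * u * β + β ^ 2 - 1 - t * (3 - w)| ≤
      e12 * t + 401 / 100 * t * δ + 3 / 2 * R * u * ν)
    (hw1 : 87 / 100 ≤ w) (hw2 : w ≤ 115 / 100) (hν0 : 0 ≤ ν) (hν : ν ≤ 1 / 10 ^ 4)
    (hεδ : ε * δ ≤ 1 / 10 ^ 4) (hR : R ≤ 176 / 100)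
    (he12 : e12 ≤ 1 / 1000) : |β| ≤ 1 / 25 := by
  have hu0 : 0 < u := by linarith
  have ht0 : 0 < t := by rw [ht]; positivity
  have hE : e12 * t + 401 / 100 * t * δ + 3 / 2 * R * u * ν ≤ u * (7 / 10 ^ 4) := by
    have h1 : e12 * t ≤ 1 / 10 ^ 12 * u := by
      have h2 : e12 * t ≤ 1 / 1000 * t := mul_le_mul_of_nonneg_right he12 ht0.le
      have h3 : t ≤ 1 / 10 ^ 9 * u := by
        rw [ht]; exact mul_le_mul_of_nonneg_right hε1 hu0.le
      linarith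
    have h2 : t * δ ≤ 1 / 10 ^ 4 * u := by
      have : t * δ = (ε * δ) * u := by rw [ht]; ring
      rw [this]
      exact mul_le_mul_of_nonneg_right hεδ hu0.le
    have h3 : R * ν ≤ 176 / 100 * (1 / 10 ^ 4) := mul_le_mul hR hν hν0 (by norm_num)
    have h4 : R * u * ν ≤ 176 / 10 ^ 6 * u := by
      have : R * u * ν = (R * ν) * u := by ring
      rw [this]
      have := mul_le_mul_of_nonneg_right h3 hu0.le
      linarith
    linarith
  have hB := r17_abs u t w β _ hu0 hβ ht0.le hmain hw1 hw2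
  have hb0 : 0 ≤ |β| := abs_nonneg β
  have hb1 : |β| ≤ 1 / 10 := by
    by_contra hcon
    push Not at hcon
    have h1 : 1 / 10 * u < |β| * (2 * u + β) := by
      have h2 : 1 / 10 * u < |β| * u := mul_lt_mul_of_pos_right hcon hu0
      have h3 : |β| * u ≤ |β| * (2 * u + β) := mul_le_mul_of_nonneg_left (by linarith) hb0
      linarith
    linarith
  by_contra hcon
  push Not at hcon
  have hβ1 := (abs_le.mp hb1).1
  have h1 : 1 / 25 * (2 * u - 1 / 10) < |β| * (2 * u + β) := by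
    have h2 : 1 / 25 * (2 * u - 1 / 10) < |β| * (2 * u - 1 / 10) :=
      mul_lt_mul_of_pos_right hcon (by linarith)
    have h3 : |β| * (2 * u - 1 / 10) ≤ |β| * (2 * u + β) :=
      mul_le_mul_of_nonneg_left (by linarith) hb0
    linarith
  rcases le_or_gt t (1 / 1000) with h2 | h2
  · linarith
  · have h3 : 1 / 1000 < 1 / 10 ^ 9 * u := by
      calc 1 / 1000 < t := h2
        _ = ε * u := ht
        _ ≤ _ := mul_le_mul_of_nonneg_right hε1 hu0.le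
    linarith

/-- data of the main step -/
structure MS (ε u t w β B χ δ ν R e10 e12 τ1 : ℝ) : Prop where
  ε0 : 0 < ε
  ε1 : ε ≤ 1 / 10 ^ 9
  u15 : 15 ≤ u
  ht : t = ε * u
  t1 : t ≤ 207 / 1000
  βu : -u < β
  main : |2 * u * β + β ^ 2 - 1 - t * (3 - w)| ≤ e12 * t + 401 / 100 * t * δ + 3 / 2 * R * u * ν
  w1 : 87 / 100 ≤ w
  w2 : w ≤ 115 / 100
  ν0 : 0 ≤ ν
  ν1 : ν ≤ 60 * ε * β ^ 2 + ε * e10
  δ0 : 0 ≤ δ
  R0 : 0 ≤ R
  R1 : R ≤ 176 / 100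
  e12p : 0 ≤ e12
  e12s : e12 ≤ 1 / 10 ^ 5
  e10p : 0 ≤ e10
  e10s : e10 ≤ 1 / 10 ^ 5
  b25 : |β| ≤ 1 / 25
  prod : 1 ≤ |β| * B
  hB : B ≤ (1 + 2 / u ^ 2 + e10 + 4 * ν) / (2 * χ) + 1 / 4
  χ0 : 0 < χ
  pos : δ ≤ 196 / 100 * χ ∨ δ * (δ ^ 2 - χ ^ 2) ≤ χ ^ 2 / 2 * (1 + τ1)
  τp : 0 ≤ τ1
  τs : τ1 ≤ 1 / 10 ^ 5

section
variable {ε u t w β B χ δ ν R e10 e12 τ1 : ℝ}

theorem MS.tpos (h : MS ε u t w β B χ δ ν R e10 e12 τ1) : 0 < t := by
  rw [h.ht]; exact mul_pos h.ε0 (by linarith [h.u15])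

theorem MS.ν2 (h : MS ε u t w β B χ δ ν R e10 e12 τ1) : ν ≤ 1 / 10 ^ 9 := by
  have h1 := h.ν1
  have h2 : β ^ 2 ≤ 1 / 625 := by
    have := h.b25
    rw [← sq_abs]
    have h3 := abs_nonneg β
    nlinarith
  have h4 := h.ε0
  have h5 := h.ε1
  have h6 : ε * β ^ 2 ≤ 1 / 10 ^ 9 * (1 / 625) := mul_le_mul h5 h2 (sq_nonneg _) (by norm_num)
  have h7 : ε * e10 ≤ 1 / 10 ^ 9 * (1 / 10 ^ 5) := mul_le_mul h5 h.e10s h.e10p (by norm_num)
  nlinarith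

/-- `2 χ (1 - b/4) ≤ b m` -/
theorem MS.χ1 (h : MS ε u t w β B χ δ ν R e10 e12 τ1) :
    2 * χ * (1 - |β| / 4) ≤ |β| * (1 + 2 / u ^ 2 + 2 / 10 ^ 5) := by
  have h1 := h.prod
  have h2 := h.hB
  have hb0 := abs_nonneg β
  have hχ := h.χ0
  have hν := h.ν2
  have he := h.e10s
  have h3 : |β| * B ≤ |β| * ((1 + 2 / u ^ 2 + e10 + 4 * ν) / (2 * χ) + 1 / 4) :=
    mul_le_mul_of_nonneg_left h2 hb0
  have h4 : 1 ≤ |β| * ((1 + 2 / u ^ 2 + e10 + 4 * ν) / (2 * χ) + 1 / 4) := le_trans h1 h3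
  have h5 : 2 * χ * 1 ≤ 2 * χ * (|β| * ((1 + 2 / u ^ 2 + e10 + 4 * ν) / (2 * χ) + 1 / 4)) :=
    mul_le_mul_of_nonneg_left h4 (by linarith)
  have h6 : 2 * χ * (|β| * ((1 + 2 / u ^ 2 + e10 + 4 * ν) / (2 * χ) + 1 / 4)) =
      |β| * (1 + 2 / u ^ 2 + e10 + 4 * ν) + χ * |β| / 2 := by
    field_simp
    ring
  rw [h6] at h5
  have h7 : |β| * (1 + 2 / u ^ 2 + e10 + 4 * ν) ≤ |β| * (1 + 2 / u ^ 2 + 2 / 10 ^ 5) :=
    mul_le_mul_of_nonneg_left (by linarith) hb0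
  linarith

theorem MS.u2 (h : MS ε u t w β B χ δ ν R e10 e12 τ1) : 2 / u ^ 2 ≤ 2 / 225 := by
  have h1 := h.u15
  have h2 : (225 : ℝ) ≤ u ^ 2 := by nlinarith
  exact div_le_div_of_nonneg_left (by norm_num) (by norm_num) h2

theorem MS.χ2 (h : MS ε u t w β B χ δ ν R e10 e12 τ1) : χ ≤ 51 / 100 * |β| := by
  have h1 := h.χ1
  have h2 := h.u2
  have hb := h.b25
  have hb0 := abs_nonneg β
  have hχ := h.χ0
  have h3 : |β| * (1 + 2 / u ^ 2 + 2 / 10 ^ 5) ≤ |β| * (1009 / 1000) :=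
    mul_le_mul_of_nonneg_left (by linarith) hb0
  have h4 : 2 * χ * (99 / 100) ≤ 2 * χ * (1 - |β| / 4) :=
    mul_le_mul_of_nonneg_left (by linarith) (by linarith)
  linarith

theorem MS.δ1 (h : MS ε u t w β B χ δ ν R e10 e12 τ1) : δ ≤ 7 / 100 := by
  have h1 := h.χ2
  have hb := h.b25
  have hχ := h.χ0
  have hχ2 : χ ≤ 204 / 10000 := by linarith
  rcases h.pos with h2 | h2
  · linarith
  · by_contra hcon
    push Not at hcon
    have h3 : χ ^ 2 ≤ (204 / 10000) ^ 2 := by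
      exact pow_le_pow_left₀ hχ.le hχ2 2
    have h4 : (7 / 100) ^ 2 < δ ^ 2 := pow_lt_pow_left₀ hcon (by norm_num) (by norm_num)
    have h5 : 7 / 100 * ((7 / 100) ^ 2 - (204 / 10000) ^ 2) ≤ δ * (δ ^ 2 - χ ^ 2) :=
      mul_le_mul hcon.le (by linarith) (by norm_num) h.δ0
    have h6 : χ ^ 2 / 2 * (1 + τ1) ≤ (204 / 10000) ^ 2 / 2 * (1 + 1 / 10 ^ 5) :=
      mul_le_mul (by linarith) (by linarith [h.τs]) (by linarith [h.τp]) (by positivity)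
    norm_num at h5 h6
    linarith

/-- the error term -/
theorem MS.E1 (h : MS ε u t w β B χ δ ν R e10 e12 τ1) :
    e12 * t + 401 / 100 * t * δ + 3 / 2 * R * u * ν ≤
      t * (e12 + 401 / 100 * δ + 264 / 100 * (60 * β ^ 2 + e10)) := by
  have ht := h.ht
  have h0 := h.tpos
  have hu := h.u15
  have h1 : u * ν ≤ t * (60 * β ^ 2 + e10) := by
    have := mul_le_mul_of_nonneg_left h.ν1 (by linarith : (0 : ℝ) ≤ u)
    have e : u * (60 * ε * β ^ 2 + ε * e10) = t * (60 * β ^ 2 + e10) := by rw [ht]; ring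
    linarith
  have h2 : 0 ≤ u * ν := mul_nonneg (by linarith) h.ν0
  have h3 : R * (u * ν) ≤ 176 / 100 * (t * (60 * β ^ 2 + e10)) :=
    mul_le_mul h.R1 h1 h2 (by norm_num)
  have e1 : 3 / 2 * R * u * ν = 3 / 2 * (R * (u * ν)) := by ring
  rw [e1]
  nlinarith

theorem MS.E2 (h : MS ε u t w β B χ δ ν R e10 e12 τ1) :
    e12 * t + 401 / 100 * t * δ + 3 / 2 * R * u * ν ≤ 55 / 100 * t := by
  have h1 := h.E1
  have h2 : β ^ 2 ≤ 1 / 625 := by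
    have := h.b25
    rw [← sq_abs]
    have h3 := abs_nonneg β
    nlinarith
  have h3 := h.δ1
  have h4 : e12 + 401 / 100 * δ + 264 / 100 * (60 * β ^ 2 + e10) ≤ 55 / 100 := by
    have := h.e12s
    have := h.e10s
    linarith
  have h5 := mul_le_mul_of_nonneg_left h4 h.tpos.le
  linarith

theorem MS.βpos (h : MS ε u t w β B χ δ ν R e10 e12 τ1) : 0 < β := by
  have h1 := abs_le.mp h.main
  have h2 := h.E2
  have h3 := h.tpos
  have h4 : t * (185 / 100) ≤ t * (3 - w) := mul_le_mul_of_nonneg_left (by linarith [h.w2]) h3.le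
  have h5 : 0 < β * (2 * u + β) := by nlinarith [h1.1]
  have h6 : 0 < 2 * u + β := by linarith [h.βu, h.u15]
  by_contra hcon
  push Not at hcon
  have := mul_nonpos_of_nonpos_of_nonneg hcon h6.le
  linarith

theorem MS.up (h : MS ε u t w β B χ δ ν R e10 e12 τ1) : 2 * u * β ≤ 1 + 268 / 100 * t := by
  have h1 := abs_le.mp h.main
  have h2 := h.E2
  have h3 := h.tpos
  have h4 : t * (3 - w) ≤ t * (213 / 100) := mul_le_mul_of_nonneg_left (by linarith [h.w1]) h3.le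
  have h5 := sq_nonneg β
  linarith [h1.2]

/-- large `u` -/
theorem MS.large (h : MS ε u t w β B χ δ ν R e10 e12 τ1) (hu : 8000 ≤ ε * u ^ 3)
    (hu2 : 10 ^ 6 ≤ u) :
    183 / 100 * t ≤ 2 * u * β - 1 ∧ 2 * u * β - 1 ≤ 216 / 100 * t := by
  have hup := h.up
  have h15 := h.u15
  have ht := h.tpos
  have hβ := h.βpos
  have hb : |β| = β := abs_of_pos hβ
  have h1 : u * β ≤ 78 / 100 := by linarith [h.t1]
  have hβ1 : β ≤ 78 / 10 ^ 8 := by
    have : 10 ^ 6 * β ≤ u * β := mul_le_mul_of_nonneg_right hu2 hβ.le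
    linarith
  have hχ := h.χ2
  rw [hb] at hχ
  have hχ0 := h.χ0
  have hχ1 : χ ≤ 1 / 10 ^ 6 := by linarith
  have hδ : δ ≤ 1 / 1000 := by
    rcases h.pos with h2 | h2
    · linarith
    · by_contra hcon
      push Not at hcon
      have h3 : χ ^ 2 ≤ (1 / 10 ^ 6) ^ 2 := pow_le_pow_left₀ hχ0.le hχ1 2
      have h4 : (1 / 1000) ^ 2 < δ ^ 2 := pow_lt_pow_left₀ hcon (by norm_num) (by norm_num)
      have h5 : 1 / 1000 * ((1 / 1000) ^ 2 - (1 / 10 ^ 6) ^ 2) ≤ δ * (δ ^ 2 - χ ^ 2) :=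
        mul_le_mul hcon.le (by linarith) (by norm_num) h.δ0
      have h6 : χ ^ 2 / 2 * (1 + τ1) ≤ (1 / 10 ^ 6) ^ 2 / 2 * (1 + 1 / 10 ^ 5) :=
        mul_le_mul (by linarith) (by linarith [h.τs]) (by linarith [h.τp]) (by positivity)
      norm_num at h5 h6
      linarith
  have hsq : β ^ 2 ≤ 1 / 1000 * t := by
    have h2 : (u * β) ^ 2 ≤ (78 / 100) ^ 2 :=
      pow_le_pow_left₀ (by positivity) h1 2
    have h3 : β ^ 2 * u ^ 2 ≤ 61 / 100 := by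
      have : (u * β) ^ 2 = β ^ 2 * u ^ 2 := by ring
      rw [this] at h2
      norm_num at h2
      linarith
    have h4 : 8000 ≤ t * u ^ 2 := by
      have : t * u ^ 2 = ε * u ^ 3 := by rw [h.ht]; ring
      rw [this]; exact hu
    by_contra hcon
    push Not at hcon
    have h5 : 1 / 1000 * t * u ^ 2 < β ^ 2 * u ^ 2 := mul_lt_mul_of_pos_right hcon (by positivity)
    linarith
  have hE : e12 * t + 401 / 100 * t * δ + 3 / 2 * R * u * ν ≤ 5 / 1000 * t := by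
    have h2 := h.E1
    have h3 : β ^ 2 ≤ 1 / 10 ^ 6 := by
      have : β ^ 2 ≤ (78 / 10 ^ 8) ^ 2 := pow_le_pow_left₀ hβ.le hβ1 2
      norm_num at this ⊢
      linarith
    have h4 : e12 + 401 / 100 * δ + 264 / 100 * (60 * β ^ 2 + e10) ≤ 5 / 1000 := by
      have := h.e12s
      have := h.e10s
      linarith
    have h5 := mul_le_mul_of_nonneg_left h4 ht.le
    linarith
  have h1 := abs_le.mp h.main
  have h6 : t * (185 / 100) ≤ t * (3 - w) := mul_le_mul_of_nonneg_left (by linarith [h.w2]) ht.le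
  have h7 : t * (3 - w) ≤ t * (213 / 100) := mul_le_mul_of_nonneg_left (by linarith [h.w1]) ht.le
  have h8 := sq_nonneg β
  constructor
  · linarith [h1.1]
  · linarith [h1.2]

/-- small `u` -/
theorem MS.small (h : MS ε u t w β B χ δ ν R e10 e12 τ1) (ht5 : t ≤ 1 / 10 ^ 5)
    (e05 e65 : ℝ) (he1 : e12 ≤ e05 / 1000) (he2 : e10 ≤ e05 / 1000) (he3 : e65 ≤ e05 / 1000)
    (he4 : t ≤ e05 / 1000) (hw : |w - 1| ≤ e65 + 5 * t) :
    |2 * u * β + β ^ 2 - 1 - 2 * t| ≤ (14 / 10 * u ^ (-(2 / 3) : ℝ) + 100 / u ^ 2 + e05) * t := by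
  have hup := h.up
  have h15 := h.u15
  have ht := h.tpos
  have hβ := h.βpos
  have hb : |β| = β := abs_of_pos hβ
  have hu0 : 0 < u := by linarith
  have h1 : 2 * u * β ≤ 1 + 3 / 10 ^ 5 := by linarith
  have hβ1 : β ≤ 33335 / 10 ^ 6 := by
    have : 15 * β ≤ u * β := mul_le_mul_of_nonneg_right h15 hβ.le
    linarith
  have hχ := h.χ1
  rw [hb] at hχ
  have hχ0 := h.χ0
  have hu2 := h.u2
  have hχu : χ * u ≤ 2545 / 10000 := by
    have h2 : 2 * χ * (99166 / 10 ^ 5) ≤ 2 * χ * (1 - β / 4) :=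
      mul_le_mul_of_nonneg_left (by linarith) (by linarith)
    have h3 : β * (1 + 2 / u ^ 2 + 2 / 10 ^ 5) ≤ β * (10090 / 10 ^ 4) :=
      mul_le_mul_of_nonneg_left (by linarith) hβ.le
    have h4 : 2 * χ * (99166 / 10 ^ 5) ≤ β * (10090 / 10 ^ 4) := by linarith
    have h5 := mul_le_mul_of_nonneg_right h4 hu0.le
    nlinarith
  have hχs : χ ≤ 17 / 1000 := by
    have : χ * 15 ≤ χ * u := mul_le_mul_of_nonneg_left h15 hχ0.le
    linarith
  have hχ2 : χ ^ 2 * u ^ 2 ≤ 648 / 10 ^ 4 := by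
    have h2 : (χ * u) ^ 2 ≤ (2545 / 10000) ^ 2 := pow_le_pow_left₀ (by positivity) hχu 2
    have h3 : (χ * u) ^ 2 = χ ^ 2 * u ^ 2 := by ring
    rw [h3] at h2
    norm_num at h2 ⊢
    linarith
  have hδ0 := h.δ0
  have hδ1 := h.δ1
  have hδ3 : δ ^ 3 * u ^ 2 ≤ 4 / 100 := by
    rcases h.pos with h2 | h2
    · have h3 : δ ^ 3 ≤ (196 / 100 * χ) ^ 3 := pow_le_pow_left₀ hδ0 h2 3
      have h4 : (196 / 100 * χ) ^ 3 * u ^ 2 = (196 / 100) ^ 3 * χ * (χ ^ 2 * u ^ 2) := by ring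
      have h5 : χ * (χ ^ 2 * u ^ 2) ≤ 17 / 1000 * (648 / 10 ^ 4) :=
        mul_le_mul hχs hχ2 (by positivity) (by norm_num)
      have h6 : δ ^ 3 * u ^ 2 ≤ (196 / 100 * χ) ^ 3 * u ^ 2 :=
        mul_le_mul_of_nonneg_right h3 (by positivity)
      norm_num at h4 h5 h6 ⊢
      linarith
    · have h3 : δ ^ 3 ≤ χ ^ 2 * (δ + (1 + τ1) / 2) := by
        have : δ ^ 3 = δ * (δ ^ 2 - χ ^ 2) + δ * χ ^ 2 := by ring
        rw [this]
        have e : χ ^ 2 * (δ + (1 + τ1) / 2) = χ ^ 2 / 2 * (1 + τ1) + δ * χ ^ 2 := by ring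
        rw [e]
        linarith
      have h4 : χ ^ 2 * (δ + (1 + τ1) / 2) ≤ χ ^ 2 * (58 / 100) :=
        mul_le_mul_of_nonneg_left (by linarith [h.τs]) (sq_nonneg _)
      have h5 : δ ^ 3 * u ^ 2 ≤ χ ^ 2 * (58 / 100) * u ^ 2 :=
        mul_le_mul_of_nonneg_right (le_trans h3 h4) (by positivity)
      have h6 : χ ^ 2 * (58 / 100) * u ^ 2 = 58 / 100 * (χ ^ 2 * u ^ 2) := by ring
      linarith
  have hδu : 401 / 100 * δ ≤ 14 / 10 * u ^ (-(2 / 3) : ℝ) := by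
    have hr0 : 0 < u ^ (-(2 / 3) : ℝ) := Real.rpow_pos_of_pos hu0 _
    by_contra hcon
    push Not at hcon
    have h2 : (14 / 10 * u ^ (-(2 / 3) : ℝ)) ^ 3 < (401 / 100 * δ) ^ 3 :=
      pow_lt_pow_left₀ hcon (by positivity) (by norm_num)
    have h3 : (u ^ (-(2 / 3) : ℝ)) ^ 3 * u ^ 2 = 1 := by
      rw [← Real.rpow_natCast, ← Real.rpow_mul hu0.le, ← Real.rpow_natCast u 2,
        ← Real.rpow_add hu0]
      norm_num
    have h4 : (14 / 10 * u ^ (-(2 / 3) : ℝ)) ^ 3 * u ^ 2 < (401 / 100 * δ) ^ 3 * u ^ 2 :=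
      mul_lt_mul_of_pos_right h2 (by positivity)
    have h5 : (14 / 10 * u ^ (-(2 / 3) : ℝ)) ^ 3 * u ^ 2 =
        (14 / 10) ^ 3 * ((u ^ (-(2 / 3) : ℝ)) ^ 3 * u ^ 2) := by ring
    have h6 : (401 / 100 * δ) ^ 3 * u ^ 2 = (401 / 100) ^ 3 * (δ ^ 3 * u ^ 2) := by ring
    rw [h5, h3, h6] at h4
    norm_num at h4
    linarith
  have hβu : 60 * β ^ 2 ≤ 1501 / 100 / u ^ 2 := by
    rw [le_div_iff₀ (by positivity)]
    have h2 : (2 * u * β) ^ 2 ≤ (1 + 3 / 10 ^ 5) ^ 2 := pow_le_pow_left₀ (by positivity) h1 2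
    have h3 : 60 * β ^ 2 * u ^ 2 = 15 * (2 * u * β) ^ 2 := by ring
    rw [h3]
    norm_num at h2 ⊢
    linarith
  have hE := h.E1
  have h1' := h.main
  have hu2p : 0 < 1 / u ^ 2 := by positivity
  have e100 : 100 / u ^ 2 = 100 * (1 / u ^ 2) := by ring
  have e15 : 1501 / 100 / u ^ 2 = 1501 / 100 * (1 / u ^ 2) := by ring
  rw [e15] at hβu
  rw [e100]
  have hwt : |t * (3 - w) - 2 * t| ≤ t * (e65 + 5 * t) := by
    have : t * (3 - w) - 2 * t = -(t * (w - 1)) := by ring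
    rw [this, abs_neg, abs_mul, abs_of_pos ht]
    exact mul_le_mul_of_nonneg_left hw ht.le
  have htri : |2 * u * β + β ^ 2 - 1 - 2 * t| ≤
      |2 * u * β + β ^ 2 - 1 - t * (3 - w)| + |t * (3 - w) - 2 * t| := by
    have := abs_add_le (2 * u * β + β ^ 2 - 1 - t * (3 - w)) (t * (3 - w) - 2 * t)
    have e : 2 * u * β + β ^ 2 - 1 - t * (3 - w) + (t * (3 - w) - 2 * t) =
      2 * u * β + β ^ 2 - 1 - 2 * t := by ring
    rwa [e] at this
  have hfin : e12 + 401 / 100 * δ + 264 / 100 * (60 * β ^ 2 + e10) + (e65 + 5 * t) ≤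
      14 / 10 * u ^ (-(2 / 3) : ℝ) + 100 * (1 / u ^ 2) + e05 := by
    have : 0 ≤ e05 := by linarith
    linarith
  have := mul_le_mul_of_nonneg_left hfin ht.le
  linarith

end

end Pool.Agent.Helper38.CV.R17
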