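import Pool.Agent.Helper36.CV.StmtsR

set_option autoImplicit false

namespace Pool.Agent.Helper38.CV.R17

open Pool.Agent.Helper36.CV

/-- powers of `ε` as natural powers of `κ = ε^(1/300)` -/
theorem r17_pw (ε κ : ℝ) (hε : 0 < ε) (hκ : κ = ε ^ (1 / 300 : ℝ)) (r : ℝ) (k : ℕ)
    (h : r = k / 300) : ε ^ r = κ ^ k := by
  rw [hκ, ← Real.rpow_natCast, ← Real.rpow_mul hε.le, h]
  congr 1
  ring

/-- small powers -/
theorem r17_small (κ : ℝ) (h0 : 0 < κ) (h1 : κ ≤ 1 / 1000) (j k : ℕ) (hjk : j < k) :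
    κ ^ k ≤ κ ^ j / 1000 := by
  obtain ⟨m, rfl⟩ : ∃ m, k = j + 1 + m := ⟨k - j - 1, by omega⟩
  rw [pow_add, pow_add, pow_one]
  have h2 : κ ^ m ≤ 1 := pow_le_one₀ h0.le (by linarith)
  have h3 : 0 < κ ^ j := pow_pos h0 j
  have h4 : κ ^ j * κ * κ ^ m ≤ κ ^ j * κ * 1 := mul_le_mul_of_nonneg_left h2 (by positivity)
  have h5 : κ ^ j * κ ≤ κ ^ j * (1 / 1000) := mul_le_mul_of_nonneg_left h1 h3.le
  linarith

/-- all facts on the small parameter -/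
structure Sm (ε cK K4 : ℝ) : Prop where
  pos : 0 < ε
  e1 : ε ≤ 1 / 10 ^ 9
  ecK : cK * ε ≤ 1 / 10 ^ 6
  e3 : ε ^ 3 ≤ 1 / 10 ^ 9
  a12 : ε ^ (12 / 100 : ℝ) ≤ 1 / 10 ^ 9
  a12p : 0 < ε ^ (12 / 100 : ℝ)
  a12s : ε ^ (12 / 100 : ℝ) ≤ ε ^ (1 / 20 : ℝ) / 1000
  a10 : ε ^ (1 / 10 : ℝ) ≤ 1 / 10 ^ 9
  a10p : 0 < ε ^ (1 / 10 : ℝ)
  a10s : ε ^ (1 / 10 : ℝ) ≤ ε ^ (1 / 20 : ℝ) / 1000
  a65s : ε ^ (65 / 100 : ℝ) ≤ ε ^ (1 / 20 : ℝ) / 1000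
  a59 : ε ^ (59 / 100 : ℝ) ≤ 1 / 10 ^ 9
  a50 : ε ^ (1 / 2 : ℝ) ≤ 1 / 10 ^ 9
  a33 : ε ^ (1 / 3 : ℝ) ≤ 1 / 10 ^ 9
  a11 : ε ^ (11 / 10 : ℝ) = ε * ε ^ (1 / 10 : ℝ)
  aK : K4 * ε ^ (6 / 5 : ℝ) * (1 + 1 / (39 / 10 * ε)) ≤ 1 / 10 ^ 9
  aKp : 0 < K4 * ε ^ (6 / 5 : ℝ)
  big : ∀ u : ℝ, 20 * ε ^ (-(1 / 3) : ℝ) ≤ u → 8000 ≤ ε * u ^ 3 ∧ 10 ^ 6 ≤ u
  sml : ∀ u : ℝ, 0 < u → u < 20 * ε ^ (-(1 / 3) : ℝ) → ε * u ≤ 1 / 10 ^ 5 ∧
    ε * u ≤ ε ^ (1 / 20 : ℝ) / 1000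

theorem r17_sm (ε cK K4 : ℝ) (hε : 0 < ε) (hcK : 1 ≤ cK) (hK4 : 1 ≤ K4)
    (hlc : ε ≤ (1 / (1000 * K4 * cK)) ^ 300) : Sm ε cK K4 := by
  have hK0 : 0 < K4 := by linarith
  have hcK0 : 0 < cK := by linarith
  obtain ⟨κ, hκ⟩ : ∃ κ : ℝ, κ = ε ^ (1 / 300 : ℝ) := ⟨_, rfl⟩
  have hκ0 : 0 < κ := by rw [hκ]; exact Real.rpow_pos_of_pos hε _
  have hκ300 : κ ^ 300 = ε := by
    rw [hκ, ← Real.rpow_natCast, ← Real.rpow_mul hε.le]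
    norm_num
  have hκc : κ ≤ 1 / (1000 * K4 * cK) := by
    have h1 : κ ^ 300 ≤ (1 / (1000 * K4 * cK)) ^ 300 := by rw [hκ300]; exact hlc
    exact le_of_pow_le_pow_left₀ (by norm_num) (by positivity) h1
  have hκmul : κ * (1000 * K4 * cK) ≤ 1 := by
    have := mul_le_mul_of_nonneg_right hκc (by positivity : (0 : ℝ) ≤ 1000 * K4 * cK)
    rwa [one_div, inv_mul_cancel₀ (by positivity)] at this
  have hκ1 : κ ≤ 1 / 1000 := by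
    have h1 : (1 : ℝ) ≤ K4 * cK := one_le_mul_of_one_le_of_one_le hK4 hcK
    have h2 : κ * 1000 ≤ κ * (1000 * K4 * cK) :=
      mul_le_mul_of_nonneg_left (by linarith) hκ0.le
    linarith
  have hκK : κ * K4 ≤ 1 / 1000 := by
    have h1 : K4 * 1 ≤ K4 * cK := mul_le_mul_of_nonneg_left hcK hK0.le
    have h2 : κ * (1000 * K4) ≤ κ * (1000 * K4 * cK) :=
      mul_le_mul_of_nonneg_left (by linarith) hκ0.le
    linarith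
  have hκcK : κ * cK ≤ 1 / 1000 := by
    have h1 : 1 * cK ≤ K4 * cK := mul_le_mul_of_nonneg_right hK4 hcK0.le
    have h2 : κ * (1000 * cK) ≤ κ * (1000 * K4 * cK) :=
      mul_le_mul_of_nonneg_left (by linarith) hκ0.le
    linarith
  have hsm := r17_small κ hκ0 hκ1
  have hpw := r17_pw ε κ hε hκ
  have p12 : ε ^ (12 / 100 : ℝ) = κ ^ 36 := hpw _ _ (by norm_num)
  have p10 : ε ^ (1 / 10 : ℝ) = κ ^ 30 := hpw _ _ (by norm_num)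
  have p05 : ε ^ (1 / 20 : ℝ) = κ ^ 15 := hpw _ _ (by norm_num)
  have p65 : ε ^ (65 / 100 : ℝ) = κ ^ 195 := hpw _ _ (by norm_num)
  have p59 : ε ^ (59 / 100 : ℝ) = κ ^ 177 := hpw _ _ (by norm_num)
  have p50 : ε ^ (1 / 2 : ℝ) = κ ^ 150 := hpw _ _ (by norm_num)
  have p13 : ε ^ (1 / 3 : ℝ) = κ ^ 100 := hpw _ _ (by norm_num)
  have p11 : ε ^ (11 / 10 : ℝ) = κ ^ 330 := hpw _ _ (by norm_num)
  have p65' : ε ^ (6 / 5 : ℝ) = κ ^ 360 := hpw _ _ (by norm_num)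
  have pm13 : ε ^ (-(1 / 3) : ℝ) = (κ ^ 100)⁻¹ := by
    rw [Real.rpow_neg hε.le, p13]
  clear hpw hκ hlc
  have hκ3 : κ ^ 3 ≤ 1 / 10 ^ 9 := by
    have := pow_le_pow_left₀ hκ0.le hκ1 3
    norm_num at this ⊢
    linarith
  have hκp : ∀ j : ℕ, 0 < κ ^ j := fun j => pow_pos hκ0 j
  have hκs3 : ∀ j : ℕ, 3 ≤ j → κ ^ j ≤ 1 / 10 ^ 9 := by
    intro j hj
    exact le_trans (pow_le_pow_of_le_one hκ0.le (by linarith) hj) hκ3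
  have hε1 : ε ≤ 1 / 10 ^ 9 := by rw [← hκ300]; exact hκs3 300 (by norm_num)
  refine ⟨hε, hε1, ?_, ?_, ?_, ?_, ?_, ?_, ?_, ?_, ?_, ?_, ?_, ?_, ?_, ?_, ?_, ?_, ?_⟩
  · have e1 : cK * ε = (κ * cK) * κ ^ 299 := by rw [← hκ300]; ring
    rw [e1]
    have := mul_le_mul hκcK (hκs3 299 (by norm_num)) (hκp 299).le (by norm_num)
    norm_num at this ⊢
    linarith
  · have : ε ^ 3 = κ ^ 900 := by rw [← hκ300, ← pow_mul]
    rw [this]; exact hκs3 900 (by norm_num)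
  · rw [p12]; exact hκs3 _ (by norm_num)
  · rw [p12]; exact hκp _
  · rw [p12, p05]; exact hsm _ _ (by norm_num)
  · rw [p10]; exact hκs3 _ (by norm_num)
  · rw [p10]; exact hκp _
  · rw [p10, p05]; exact hsm _ _ (by norm_num)
  · rw [p65, p05]; exact hsm _ _ (by norm_num)
  · rw [p59]; exact hκs3 _ (by norm_num)
  · rw [p50]; exact hκs3 _ (by norm_num)
  · rw [p13]; exact hκs3 _ (by norm_num)
  · rw [p11, p10, ← hκ300, ← pow_add]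
  · rw [p65']
    have e1 : κ ^ 360 = κ ^ 60 * ε := by rw [← hκ300, ← pow_add]
    have h4 : K4 * κ ^ 360 * (1 + 1 / (39 / 10 * ε)) = (κ * K4) * (κ ^ 59 * (ε + 10 / 39)) := by
      rw [e1, pow_succ κ 59]
      field_simp
    rw [h4]
    have h5 : (κ * K4) * (κ ^ 59 * (ε + 10 / 39)) ≤ 1 / 1000 * (1 / 10 ^ 9 * 1) := by
      apply mul_le_mul hκK _ (by positivity) (by norm_num)
      exact mul_le_mul (hκs3 59 (by norm_num)) (by linarith) (by positivity) (by norm_num)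
    refine le_trans h5 (by norm_num)
  · rw [p65']
    exact mul_pos hK0 (hκp _)
  · intro u hu
    rw [pm13] at hu
    have hκ100 := hκp 100
    have hbig2 : 20 ≤ u * κ ^ 100 := by
      have := mul_le_mul_of_nonneg_right hu hκ100.le
      rwa [mul_assoc, inv_mul_cancel₀ hκ100.ne', mul_one] at this
    have hu0 : 0 < u := lt_of_lt_of_le (by positivity) hu
    constructor
    · have h1 : ε * u ^ 3 = (u * κ ^ 100) ^ 3 := by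
        rw [mul_pow, ← pow_mul, ← hκ300]; ring
      rw [h1]
      have := pow_le_pow_left₀ (by norm_num) hbig2 3
      norm_num at this
      exact this
    · have h1 : u * κ ^ 100 ≤ u * (1 / 10 ^ 9) :=
        mul_le_mul_of_nonneg_left (hκs3 100 (by norm_num)) hu0.le
      norm_num at h1 ⊢
      linarith
  · intro u hu0 hu
    rw [pm13] at hu
    have hκ100 := hκp 100
    have hus2 : u * κ ^ 100 < 20 := by
      have := mul_lt_mul_of_pos_right hu hκ100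
      rwa [mul_assoc, inv_mul_cancel₀ hκ100.ne', mul_one] at this
    have ht200 : ε * u ≤ 20 * κ ^ 200 := by
      have h1 : ε * u = (u * κ ^ 100) * κ ^ 200 := by
        rw [mul_assoc, ← pow_add, hκ300]; ring
      rw [h1]
      exact mul_le_mul_of_nonneg_right hus2.le (hκp 200).le
    have h200 : κ ^ 200 ≤ κ ^ 16 / 1000 := hsm 16 200 (by norm_num)
    have h16 : κ ^ 16 ≤ κ ^ 15 / 1000 := hsm 15 16 (by norm_num)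
    have h15 := hκs3 15 (by norm_num)
    have h15p := hκp 15
    rw [p05]
    constructor
    · linarith only [ht200, h200, h16, h15, h15p]
    · linarith only [ht200, h200, h16, h15, h15p]

/-- positions of the outer children -/
theorem r17_geo (ε cK x ρ l2 r2 k0 s0 k2 s2 cL cR a3 : ℝ) (hε : 0 < ε) (hε1 : ε ≤ 1 / 10 ^ 9)
    (hρ0 : 0 < ρ) (hcKε : cK * ε ≤ 1 / 10 ^ 6)
    (hx : x = (l2 + r2) / 2) (hρ : ρ = r2 - l2) (hk0 : k0 = l2) (hs2 : s2 = r2)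
    (hn0 : |(s0 - k0) - ε * (1 + 2 * ε * 1) * ρ| ≤ cK * ε ^ 3 * ρ)
    (hn2 : |(s2 - k2) - ε * (1 - 2 * ε * 1) * ρ| ≤ cK * ε ^ 3 * ρ)
    (ha3 : a3 ≤ 1 / 10 ^ 9)
    (hL : |cL - (k0 + s0) / 2| ≤ a3 * ρ) (hR : |cR - (k2 + s2) / 2| ≤ a3 * ρ) :
    cL ≤ x - 49 / 100 * ρ ∧ x - 51 / 100 * ρ ≤ cL ∧ cR ≤ x + 51 / 100 * ρ ∧
      x + 49 / 100 * ρ ≤ cR := by
  have hn0' := abs_le.mp hn0
  have hn2' := abs_le.mp hn2
  have hL' := abs_le.mp hL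
  have hR' := abs_le.mp hR
  have ha3ρ : a3 * ρ ≤ 1 / 10 ^ 9 * ρ := mul_le_mul_of_nonneg_right ha3 hρ0.le
  have hcK3 : cK * ε ^ 3 * ρ ≤ 1 / 10 ^ 6 * ρ := by
    have : cK * ε ^ 3 * ρ = (cK * ε) * (ε ^ 2 * ρ) := by ring
    rw [this]
    have h1 : ε ^ 2 * ρ ≤ 1 * ρ := mul_le_mul_of_nonneg_right (by nlinarith only [hε, hε1]) hρ0.le
    have h2 := mul_le_mul hcKε h1 (by positivity) (by norm_num)
    linarith only [h2]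
  have hεs : ε * (1 + 2 * ε * 1) * ρ ≤ 1 / 10 ^ 6 * ρ :=
    mul_le_mul_of_nonneg_right (by nlinarith only [hε, hε1]) hρ0.le
  have hεs' : ε * (1 - 2 * ε * 1) * ρ ≤ 1 / 10 ^ 6 * ρ :=
    mul_le_mul_of_nonneg_right (by nlinarith only [hε, hε1]) hρ0.le
  have hεs0 : 0 ≤ ε * (1 + 2 * ε * 1) * ρ := by positivity
  have hεs0' : 0 ≤ ε * (1 - 2 * ε * 1) * ρ := by
    apply mul_nonneg _ hρ0.le
    apply mul_nonneg hε.le
    linarith only [hε1]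
  subst hk0 hs2
  refine ⟨?_, ?_, ?_, ?_⟩
  · linarith only [hL'.2, hn0'.2, hx, hρ, ha3ρ, hcK3, hεs, hρ0]
  · linarith only [hL'.1, hn0'.1, hx, hρ, ha3ρ, hcK3, hεs0, hρ0]
  · linarith only [hR'.2, hn2'.1, hx, hρ, ha3ρ, hcK3, hεs0', hρ0]
  · linarith only [hR'.1, hn2'.2, hx, hρ, ha3ρ, hcK3, hεs', hρ0]

/-- length of the middle child -/
theorem r17_mid (ε cK ρ k1 s1 : ℝ) (hε : 0 < ε) (hρ0 : 0 < ρ) (hcKε : cK * ε ≤ 1 / 10 ^ 6)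
    (hlen : |(s1 - k1) - 4 * ε ^ 2 * ρ| ≤ cK * ε ^ 3 * ρ) :
    4 * ε ^ 2 * ρ * (1 - 1 / 10 ^ 6) ≤ s1 - k1 ∧ s1 - k1 ≤ 4 * ε ^ 2 * ρ * (1 + 1 / 10 ^ 6) ∧
      0 < s1 - k1 := by
  have hlen1 := abs_le.mp hlen
  have hsmall : cK * ε ^ 3 * ρ ≤ 1 / 10 ^ 6 * (ε ^ 2 * ρ) := by
    have : cK * ε ^ 3 * ρ = (cK * ε) * (ε ^ 2 * ρ) := by ring
    rw [this]
    exact mul_le_mul_of_nonneg_right hcKε (by positivity)
  have h0 : 0 < ε ^ 2 * ρ := by positivity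
  refine ⟨?_, ?_, ?_⟩
  · linarith only [hlen1.1, hsmall, h0]
  · linarith only [hlen1.2, hsmall, h0]
  · linarith only [hlen1.1, hsmall, h0]

/-- position of a witness of the middle child, in the units `ε ρ` -/
theorem r17_pos (ε cK ρ gc s k1 s1 : ℝ) (hε : 0 < ε) (hρ : 0 < ρ)
    (hcK : cK * ε ≤ 1 / 10 ^ 6)
    (hlen : |(s1 - k1) - 4 * ε ^ 2 * ρ| ≤ cK * ε ^ 3 * ρ)
    (h : |gc - (k1 + s1) / 2| ≤ s / 2 - 2 / 5 * (s1 - k1) ∨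
      (21 / 20 * (s1 - k1) ≤ s ∧ |gc - (k1 + s1) / 2| ≤ s / 2 + (s1 - k1) / 2) ∨
      (21 / 20 * (s1 - k1) ≤ s ∧ s / 2 < |(k1 + s1) / 2 - gc| ∧
        8 * ε * |(k1 + s1) / 2 - gc| * (((k1 + s1) / 2 - gc) ^ 2 - (s / 2) ^ 2) ≤
          (s1 - k1) * (s / 2) ^ 2)) (hs : 0 < s) :
    (|gc - (k1 + s1) / 2| / (ε * ρ) ≤ 196 / 100 * (s / (2 * ε * ρ)) ∨
      (|gc - (k1 + s1) / 2| / (ε * ρ)) * ((|gc - (k1 + s1) / 2| / (ε * ρ)) ^ 2 -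
        (s / (2 * ε * ρ)) ^ 2) ≤ (s / (2 * ε * ρ)) ^ 2 / 2 * (1 + 1 / 10 ^ 5)) := by
  obtain ⟨-, ha1, ha0⟩ := r17_mid ε cK ρ k1 s1 hε hρ hcK hlen
  have hερ : 0 < ε * ρ := mul_pos hε hρ
  set e := |gc - (k1 + s1) / 2| with he
  have hs2 : s / (2 * ε * ρ) = (s / 2) / (ε * ρ) := by
    field_simp
  rw [hs2]
  rcases h with h | h | h
  · left
    rw [← mul_div_assoc]
    apply div_le_div_of_nonneg_right _ hερ.le
    linarith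
  · left
    rw [← mul_div_assoc]
    apply div_le_div_of_nonneg_right _ hερ.le
    linarith [h.1, h.2]
  · right
    obtain ⟨-, -, h3⟩ := h
    have he2 : |(k1 + s1) / 2 - gc| = e := by rw [he, abs_sub_comm]
    have he3 : ((k1 + s1) / 2 - gc) ^ 2 = e ^ 2 := by
      rw [← he2, sq_abs]
    rw [he2, he3] at h3
    have h4 : (s1 - k1) * (s / 2) ^ 2 ≤ 4 * ε ^ 2 * ρ * (1 + 1 / 10 ^ 6) * (s / 2) ^ 2 :=
      mul_le_mul_of_nonneg_right ha1 (sq_nonneg _)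
    have h5 : 8 * ε * e * (e ^ 2 - (s / 2) ^ 2) ≤
        4 * ε ^ 2 * ρ * (1 + 1 / 10 ^ 6) * (s / 2) ^ 2 := le_trans h3 h4
    have h6 : e * (e ^ 2 - (s / 2) ^ 2) ≤ ε * ρ * ((s / 2) ^ 2 / 2 * (1 + 1 / 10 ^ 5)) := by
      have h7 : 8 * ε * (e * (e ^ 2 - (s / 2) ^ 2)) ≤
          8 * ε * (ε * ρ * ((s / 2) ^ 2 / 2 * (1 + 1 / 10 ^ 6))) := by
        calc 8 * ε * (e * (e ^ 2 - (s / 2) ^ 2)) = 8 * ε * e * (e ^ 2 - (s / 2) ^ 2) := by ring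
          _ ≤ _ := h5
          _ = _ := by ring
      have h8 := le_of_mul_le_mul_left h7 (by positivity)
      have h9 : 0 ≤ ε * ρ * (s / 2) ^ 2 := by positivity
      have e1 : ε * ρ * ((s / 2) ^ 2 / 2 * (1 + 1 / 10 ^ 6)) =
        ε * ρ * (s / 2) ^ 2 * (1 / 2 * (1 + 1 / 10 ^ 6)) := by ring
      have e2 : ε * ρ * ((s / 2) ^ 2 / 2 * (1 + 1 / 10 ^ 5)) =
        ε * ρ * (s / 2) ^ 2 * (1 / 2 * (1 + 1 / 10 ^ 5)) := by ring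
      rw [e1] at h8
      rw [e2]
      refine le_trans h8 (mul_le_mul_of_nonneg_left (by norm_num) h9)
    have e3 : e / (ε * ρ) * ((e / (ε * ρ)) ^ 2 - (s / 2 / (ε * ρ)) ^ 2) =
        (e * (e ^ 2 - (s / 2) ^ 2)) / (ε * ρ) ^ 3 := by
      field_simp
    have e4 : (s / 2 / (ε * ρ)) ^ 2 / 2 * (1 + 1 / 10 ^ 5) =
        (ε * ρ * ((s / 2) ^ 2 / 2 * (1 + 1 / 10 ^ 5))) / (ε * ρ) ^ 3 := by
      field_simp
    rw [e3, e4]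
    exact div_le_div_of_nonneg_right h6 (by positivity)

theorem r17_pos2 (δ χ τ1 : ℝ) (hδ : 0 ≤ δ) (hχ : 0 < χ) (hτ : τ1 ≤ 1)
    (h : δ ≤ 196 / 100 * χ ∨ δ * (δ ^ 2 - χ ^ 2) ≤ χ ^ 2 / 2 * (1 + τ1)) : δ ≤ 2 * χ + 1 := by
  rcases h with h | h
  · linarith
  · by_contra hcon
    push Not at hcon
    have h1 : 1 < δ - χ := by linarith
    have h2 : 2 * χ < δ + χ := by linarith
    have h3 : 2 * χ < δ ^ 2 - χ ^ 2 := by nlinarith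
    have h4 : χ * (2 * χ) < δ * (δ ^ 2 - χ ^ 2) :=
      mul_lt_mul'' (by linarith) h3 hχ.le (by linarith)
    have h5 : χ ^ 2 / 2 * (1 + τ1) ≤ χ ^ 2 / 2 * 2 :=
      mul_le_mul_of_nonneg_left (by linarith) (by positivity)
    nlinarith

/-- lower bound for the size of a witness of the middle child -/
theorem r17_low (ε cK ρ s k1 s1 : ℝ) (hε : 0 < ε) (hε1 : ε ≤ 1 / 10 ^ 9) (hρ : 0 < ρ)
    (hcK : cK * ε ≤ 1 / 10 ^ 6) (hlen : |(s1 - k1) - 4 * ε ^ 2 * ρ| ≤ cK * ε ^ 3 * ρ)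
    (h : (1 - 26 / 10 * ε) * (s1 - k1) ≤ s) :
    2 * ε * (1 - 1 / 10 ^ 5) ≤ s / (2 * ε * ρ) := by
  obtain ⟨h4, -, ha0⟩ := r17_mid ε cK ρ k1 s1 hε hρ hcK hlen
  have h5 : (1 - 1 / 10 ^ 6) * (4 * ε ^ 2 * ρ * (1 - 1 / 10 ^ 6)) ≤
      (1 - 26 / 10 * ε) * (s1 - k1) := by
    apply mul_le_mul (by linarith only [hε1]) h4 _ (by linarith only [hε1])
    have : 0 ≤ 4 * ε ^ 2 * ρ := by positivity
    exact mul_nonneg this (by norm_num)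
  have h6 : 4 * ε ^ 2 * ρ * (1 - 1 / 10 ^ 5) ≤ s := by
    have h2 : 0 < ε ^ 2 * ρ := by positivity
    have e1 : (1 - 1 / 10 ^ 6) * (4 * ε ^ 2 * ρ * (1 - 1 / 10 ^ 6)) =
      ε ^ 2 * ρ * (4 * (1 - 1 / 10 ^ 6) ^ 2) := by ring
    have e2 : 4 * ε ^ 2 * ρ * (1 - 1 / 10 ^ 5) = ε ^ 2 * ρ * (4 * (1 - 1 / 10 ^ 5)) := by ring
    rw [e1] at h5
    rw [e2]
    have e3 : ε ^ 2 * ρ * (4 * (1 - 1 / 10 ^ 5)) ≤ ε ^ 2 * ρ * (4 * (1 - 1 / 10 ^ 6) ^ 2) :=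
      mul_le_mul_of_nonneg_left (by norm_num) h2.le
    linarith only [h5, e3, h]
  rw [le_div_iff₀ (by positivity)]
  linarith only [h6]

/-- upper bound for `ε B` -/
theorem r17_εB (ε χ B m : ℝ) (hε : 0 < ε) (hε1 : ε ≤ 1 / 10 ^ 9)
    (hχ : 2 * ε * (1 - 1 / 10 ^ 5) ≤ χ) (hm : 0 ≤ m) (hBm : B ≤ m / (2 * χ) + 1 / 4) :
    ε * B ≤ m / 4 * (1 + 2 / 10 ^ 5) + 1 / 10 ^ 9 := by
  have h1 : m / (2 * χ) ≤ m / (4 * ε * (1 - 1 / 10 ^ 5)) := by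
    apply div_le_div_of_nonneg_left hm
    · apply mul_pos (by positivity); norm_num
    · linarith
  have h2 : ε * (m / (4 * ε * (1 - 1 / 10 ^ 5))) = m / 4 * (1 / (1 - 1 / 10 ^ 5)) := by
    field_simp
  have h3 : ε * B ≤ ε * (m / (4 * ε * (1 - 1 / 10 ^ 5)) + 1 / 4) :=
    mul_le_mul_of_nonneg_left (by linarith) hε.le
  have h4 : m / 4 * (1 / (1 - 1 / 10 ^ 5)) ≤ m / 4 * (1 + 2 / 10 ^ 5) :=
    mul_le_mul_of_nonneg_left (by norm_num) (by linarith)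
  linarith

end Pool.Agent.Helper38.CV.R17
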