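import Pool.Agent.Helper38.CV.R17a
import Pool.Agent.Helper38.CV.R17b
import Pool.Agent.Helper38.CV.R17c

set_option autoImplicit false

namespace Pool.Agent.Helper38.CV.R17

open Pool.Agent.Helper36.CV
open MeasureTheory Set

theorem r17_nn0 {Hm Hp : ℝ} {C : Set ℝ} (cd : CD Hm Hp C) (x ρ : ℝ) (G : Gap cd) :
    0 ≤ nn x ρ G := by
  unfold nn
  apply integral_nonneg
  intro t'
  exact div_nonneg (cd.im_nonneg t') (abs_nonneg _)

/-- crude bound for `nn` of a witness of the middle child -/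
theorem r17_crudenn (ε K4 ρ s J p n : ℝ) (hε : 0 < ε) (hs : 0 < s)
    (hJ0 : 0 < J) (hp0 : 0 < p) (hJ4 : J ≤ 4 * p) (hs1 : 39 / 10 * ε ^ 2 * ρ ≤ s)
    (haKp : 0 < K4 * ε ^ (6 / 5 : ℝ))
    (haK : K4 * ε ^ (6 / 5 : ℝ) * (1 + 1 / (39 / 10 * ε)) ≤ 1 / 10 ^ 9)
    (h1 : n ≤ K4 * ε ^ (6 / 5 : ℝ) * (1 + ε * ρ / s) * J) : n / p ≤ 1 / 10 ^ 4 := by
  have h2 : ε * ρ / s ≤ 1 / (39 / 10 * ε) := by
    rw [div_le_div_iff₀ hs (by positivity)]
    linarith only [hs1]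
  have h3 : K4 * ε ^ (6 / 5 : ℝ) * (1 + ε * ρ / s) ≤
      K4 * ε ^ (6 / 5 : ℝ) * (1 + 1 / (39 / 10 * ε)) :=
    mul_le_mul_of_nonneg_left (by linarith only [h2]) haKp.le
  have h6 : n ≤ 1 / 10 ^ 9 * J := by
    refine le_trans h1 ?_
    exact mul_le_mul_of_nonneg_right (by linarith only [h3, haK]) hJ0.le
  rw [div_le_iff₀ hp0]
  norm_num at h6 ⊢
  linarith only [h6, hJ4, hp0]

/-- gaps near the centre have labels between those of `VL` and `VR` -/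
theorem r17_between (hN0 : ST_N0) {Hm Hp : ℝ} {C : Set ℝ} (cd : CD Hm Hp C)
    (hmono : ∀ V W : Gap cd, V.a < W.a → V.b < W.a ∧ V.N < W.N)
    (huniq : ∀ V W : Gap cd, V.a = W.a → V = W)
    (V0 VL VR W : Gap cd) (y : ℤ × ℤ) (hunit : |zn (VR.n - VL.n, VR.m - VL.m)| = 1)
    (hy : zm (VR.n - VL.n, VR.m - VL.m) y = (VL.n - V0.n, VL.m - V0.m))
    (p : ℝ) (hp : p = VR.N - VL.N) (hp0 : 0 < p) (hpsq : p ^ 2 ≤ 1 / 100)
    (hmu : |VL.mu + VR.mu| * p ≤ 24 / 100) (x ρ gc : ℝ) (hρ0 : 0 < ρ)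
    (hg1 : gc ≤ x + 1 / 10 * ρ) (hg2 : x - 1 / 10 * ρ ≤ gc)
    (hVLb : VL.b ≤ x - 48 / 100 * ρ) (hVRa : x + 48 / 100 * ρ ≤ VR.a)
    (hWm : W.Meets gc (ρ / 10)) :
    |2 * (W.N - (VL.N + VR.N) / 2) / p| ≤ 1 ∧
        1 ≤ |2 * (W.N - (VL.N + VR.N) / 2) / p| * (2 * p * |W.mu| + 1 / 4) := by
  obtain ⟨hWa, hWb⟩ := hWm
  have hWR : W.N < VR.N := by
    apply (hmono W VR _).2
    linarith only [hWa, hg1, hVRa, hρ0]
  have hWL : VL.N < W.N := by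
    rcases lt_trichotomy VL.a W.a with h | h | h
    · exact (hmono VL W h).2
    · exfalso
      have h1 := huniq VL W h
      rw [← h1] at hWb
      linarith only [hWb, hg2, hVLb, hρ0]
    · exfalso
      have h1 := (hmono W VL h).1
      have h2 := VL.lt
      linarith only [h1, h2, hWb, hg2, hVLb, hρ0]
  have h1 : |2 * (W.N - (VL.N + VR.N) / 2) / p| ≤ 1 := by
    rw [abs_div, abs_of_pos hp0, div_le_one hp0, abs_le]
    constructor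
    · rw [hp]; linarith only [hWR, hWL]
    · rw [hp]; linarith only [hWR, hWL]
  refine ⟨h1, ?_⟩
  obtain ⟨zW, -, -, hbW, hprodW, hconjW⟩ := r17_conj hN0 cd V0 VL VR W y hunit hy p hp hp0
  have h2 : 2 * (W.N - (VL.N + VR.N) / 2) / p = 2 * zv zW - (1 + 2 * zv y) := by
    rw [div_eq_iff hp0.ne']
    linarith only [hbW]
  rw [h2] at h1 ⊢
  have h3 : p ^ 2 * |2 * zv zW - (1 + 2 * zv y)| ≤ 1 / 100 * 1 :=
    mul_le_mul hpsq h1 (abs_nonneg _) (by norm_num)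
  have h4 : |2 * zc zW - (1 + 2 * zc y)| ≤ 2 * p * |W.mu| + 1 / 4 := by
    have : p * |VL.mu + VR.mu| ≤ 24 / 100 := by
      rw [mul_comm]; exact hmu
    linarith only [this, h3, hconjW]
  exact le_trans hprodW (mul_le_mul_of_nonneg_left h4 (abs_nonneg _))

theorem r17_B (ε ρ u ν s χ p gmu B b mm a10 : ℝ) (hs : 0 < s) (hε : 0 < ε) (hρ : 0 < ρ)
    (hχ : χ = s / (2 * ε * ρ))
    (hpsq : p ^ 2 ≤ 1 / 100) (hb : |b| ≤ 1) (hmm : mm * p ≤ 24 / 100)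
    (hB : B ≤ p ^ 2 * |b| + 2 * p * gmu + p * mm)
    (hG : p * gmu * s ≤ ε / 2 * ρ * (1 + 2 / u ^ 2 + a10 + 4 * ν)) :
    B ≤ (1 + 2 / u ^ 2 + a10 + 4 * ν) / (2 * χ) + 1 / 4 := by
  have h1 : p ^ 2 * |b| ≤ 1 / 100 * 1 :=
    mul_le_mul hpsq hb (abs_nonneg _) (by norm_num)
  have h3 : 2 * p * gmu ≤ (1 + 2 / u ^ 2 + a10 + 4 * ν) / (2 * χ) := by
    have e1 : (1 + 2 / u ^ 2 + a10 + 4 * ν) / (2 * χ) =
        ε * ρ * (1 + 2 / u ^ 2 + a10 + 4 * ν) / s := by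
      rw [hχ]
      have : (2 * (s / (2 * ε * ρ))) = s / (ε * ρ) := by field_simp
      rw [this, div_div_eq_mul_div]
      ring
    rw [e1, le_div_iff₀ hs]
    linarith only [hG]
  linarith only [h1, h3, hB, hmm]

theorem r17_R (ρ D u a10 : ℝ) (hρ0 : 0 < ρ) (hD77 : 77 / 100 * ρ ≤ D) (ha : a10 ≤ 1 / 10 ^ 9)
    (huD : u ≤ 4 * (D / ρ + 3 / 5) * (1 + a10)) (hu15 : 15 ≤ u) :
    0 ≤ (D + 3 / 5 * ρ) / (D - ρ) ∧ (D + 3 / 5 * ρ) / (D - ρ) ≤ 176 / 100 := by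
  have hDρ : 314 / 100 * ρ ≤ D := by
    have h0 : 0 ≤ D / ρ := div_nonneg (by linarith only [hρ0, hD77]) hρ0.le
    have h1 : u ≤ 4 * (D / ρ + 3 / 5) * (1 + 1 / 10 ^ 9) := by
      refine le_trans huD ?_
      apply mul_le_mul_of_nonneg_left _ (by positivity)
      linarith only [ha]
    have h2 : 314 / 100 ≤ D / ρ := by linarith only [h1, hu15]
    rwa [le_div_iff₀ hρ0] at h2
  constructor
  · exact div_nonneg (by linarith only [hDρ, hρ0]) (by linarith only [hDρ, hρ0])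
  · rw [div_le_iff₀ (by linarith only [hDρ, hρ0])]
    linarith only [hDρ, hρ0]

/-- the conjugate of `u` is `1/u` for small `t` -/
theorem r17_conju (hN0 : ST_N0) (y : ℤ × ℤ) (u t : ℝ) (hu : u = 1 + 2 * zv y) (hu15 : 15 ≤ u)
    (hQ : |(zn (1 + 2 * y.1, 2 * y.2) : ℝ) - 1| ≤ 1025 / 10 * t + 1 / 1000)
    (ht5 : t ≤ 1 / 10 ^ 5) : |1 + 2 * zc y| ≤ 1 / 15 := by
  have hu0 : 0 < u := by linarith only [hu15]
  obtain ⟨Q, hQdef⟩ : ∃ Q : ℤ, Q = zn (1 + 2 * y.1, 2 * y.2) := ⟨_, rfl⟩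
  rw [← hQdef] at hQ
  have hQ1 : Q = 1 := by
    have h1 : |(Q : ℝ) - 1| < 1 := by
      refine lt_of_le_of_lt hQ ?_
      linarith only [ht5]
    have h2 : |Q - 1| < 1 := by
      have : ((|Q - 1| : ℤ) : ℝ) < ((1 : ℤ) : ℝ) := by push_cast; exact h1
      exact_mod_cast this
    have h3 := Int.abs_lt_one_iff.mp h2
    omega
  obtain ⟨-, hzz, -⟩ := hN0
  have h1 : u * (1 + 2 * zc y) = 1 := by
    have h2 := hzz (1 + 2 * y.1, 2 * y.2)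
    rw [← hQdef, hQ1] at h2
    have e1 : zv (1 + 2 * y.1, 2 * y.2) = u := by
      rw [hu]; simp only [zv]; push_cast; ring
    have e2 : zc (1 + 2 * y.1, 2 * y.2) = 1 + 2 * zc y := by
      simp only [zc]; push_cast; ring
    rw [e1, e2] at h2
    exact_mod_cast h2
  have h4 : 1 + 2 * zc y = 1 / u := by
    rw [eq_div_iff hu0.ne']
    linarith only [h1]
  rw [h4, abs_of_pos (by positivity)]
  exact div_le_div_of_nonneg_left (by norm_num) (by norm_num) hu15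

theorem r17_last (ε z u' b' B M : ℝ) (hε : 0 < ε) (hε1 : ε ≤ 1 / 10 ^ 9) (hb : b' = 2 * z - u')
    (hu : |u'| ≤ 1 / 15) (hB : B = |b'|) (hM : M ≤ 101 / 100)
    (h : ε * B ≤ M / 4 * (1 + 2 / 10 ^ 5) + 1 / 10 ^ 9) : 78 / 10 * ε * |z| ≤ 1 := by
  have h4 : |z| ≤ (B + 1 / 15) / 2 := by
    have h5 : 2 * |z| ≤ B + |u'| := by
      have h6 := abs_add_le (2 * z - u') u'
      have e1 : 2 * z - u' + u' = 2 * z := by ring
      rw [e1, abs_mul, abs_of_pos (by norm_num : (0 : ℝ) < 2)] at h6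
      rw [hB, hb]
      exact h6
    linarith only [h5, hu]
  have h10 : ε * |z| ≤ ε * ((B + 1 / 15) / 2) := mul_le_mul_of_nonneg_left h4 hε.le
  have h11 : 78 / 10 * ε * |z| ≤ 39 / 10 * (ε * B) + 26 / 100 * ε := by linarith only [h10]
  linarith only [h11, h, hM, hε1]

end Pool.Agent.Helper38.CV.R17
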